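import Mathlib

/-!
# Quadric bundles with cubic coefficients: definitions and exact statements of the pieces (helper43)

`X : ∑ C i j (u) x i x j = 0`, `C` symmetric, with coefficients of degree three in the variables of
each block of `u`.  A point is a pair `(x, u)`.
-/

set_option autoImplicit false
set_option linter.unusedVariables false

open Filter Topology

namespace Pool.Agent.K6.H43.GH

section block

variable {r : ℕ} {n : Fin r → ℕ}

/-- the variables -/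
abbrev Vr {r : ℕ} (n : Fin r → ℕ) : Type := (i : Fin r) × Fin (n i + 1)

/-- the restriction to one block of variables -/
noncomputable def Gi {F : Type*} [Field F] (f : MvPolynomial (Vr n) F) (x : Vr n → F) (i : Fin r) :
    MvPolynomial (Fin (n i + 1)) F :=
  MvPolynomial.aeval (fun a : Vr n => Function.update
    (fun (k : Fin r) (j : Fin (n k + 1)) =>
      (MvPolynomial.C (x ⟨k, j⟩) : MvPolynomial (Fin (n i + 1)) F)) i
    (fun j => (MvPolynomial.X j : MvPolynomial (Fin (n i + 1)) F)) a.1 a.2) f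

/-- a vector supported on one block -/
def hat {F : Type*} [Zero F] (i : Fin r) (e : Fin (n i + 1) → F) (a : Vr n) : F :=
  Function.update (fun (k : Fin r) (_ : Fin (n k + 1)) => (0 : F)) i e a.1 a.2

/-- multihomogeneous polynomials -/
def MH (d : Fin r → ℕ) {F : Type*} [Field F] (f : MvPolynomial (Vr n) F) : Prop :=
  ∀ m ∈ f.support, ∀ i, ∑ j, m ⟨i, j⟩ = d i

end block

section defs

variable {R : Type*} [CommRing R] {α β : Type*} [Fintype α]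

/-- the bilinear form of the quadric over the point `u` -/
noncomputable def Bf (C : α → α → MvPolynomial β R) (u : β → R) (x y : α → R) : R :=
  ∑ i, ∑ j, MvPolynomial.eval u (C i j) * x i * y j

/-- change of the ring -/
noncomputable def mC {S : Type*} [CommRing S] (φ : R →+* S) (C : α → α → MvPolynomial β R) :
    α → α → MvPolynomial β S := fun i j => MvPolynomial.map φ (C i j)

/-- the restriction of `g` to the plane `u + s e + r e'`: a polynomial in `r`, whose coefficients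
are polynomials in `s` -/
noncomputable def pl (g : MvPolynomial β R) (u e e' : β → R) : Polynomial (Polynomial R) :=
  MvPolynomial.aeval (R := R) (fun b => Polynomial.C (Polynomial.C (u b) +
    Polynomial.C (e b) * Polynomial.X) + Polynomial.C (Polynomial.C (e' b)) * Polynomial.X) g

/-- the coefficient of `s ^ k * r ^ l` -/
noncomputable def cf (C : α → α → MvPolynomial β R) (u e e' : β → R) (x : α → R) (k l : ℕ) : R :=
  ∑ i, ∑ j, ((pl (C i j) u e e').coeff l).coeff k * x i * x j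

/-- the exponents of the nine monomials -/
def ix : Fin 9 → ℕ × ℕ := ![(1, 0), (0, 1), (2, 0), (1, 1), (0, 2), (3, 0), (2, 1), (1, 2), (0, 3)]

/-- the nine coefficients of the plane cubic -/
noncomputable def c9 (C : α → α → MvPolynomial β R) (u e e' : β → R) (x : α → R) : Fin 9 → R :=
  fun m => cf C u e e' x (ix m).1 (ix m).2

/-- the plane cubic through the origin with coefficients `c₁₀, c₀₁, c₂₀, c₁₁, c₀₂, c₃₀, c₂₁, c₁₂,
c₀₃` -/
def cub (c : Fin 9 → R) (s r : R) : R :=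
  c 0 * s + c 1 * r + c 2 * s ^ 2 + c 3 * s * r + c 4 * r ^ 2 + c 5 * s ^ 3 + c 6 * s ^ 2 * r +
    c 7 * s * r ^ 2 + c 8 * r ^ 3

/-- the quadratic term on the tangent at the origin (zero for a flex) -/
def Ph (c : Fin 9 → R) : R := c 2 * c 1 ^ 2 - c 3 * c 0 * c 1 + c 4 * c 0 ^ 2

/-- The quartic `Ph² + q₁ μ + q₂ μ² + q₃ μ³ + q₄ μ⁴` of the projection from the origin; the line of
the parameter `μ` is the line with direction `(c₀₁, μ - c₁₀)`. It is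
`(Ph + B₁ μ + B₂ μ²)² - 4 c₀₁ μ (A₀ + A₁ μ + A₂ μ² + A₃ μ³)`. -/
def q9 (c : Fin 9 → R) : Fin 4 → R :=
  ![2 * Ph c * (c 3 * c 1 - 2 * c 4 * c 0) -
      4 * c 1 * (c 5 * c 1 ^ 3 - c 6 * c 1 ^ 2 * c 0 + c 7 * c 1 * c 0 ^ 2 - c 8 * c 0 ^ 3),
    (c 3 * c 1 - 2 * c 4 * c 0) ^ 2 + 2 * Ph c * c 4 -
      4 * c 1 * (c 6 * c 1 ^ 2 - 2 * c 7 * c 1 * c 0 + 3 * c 8 * c 0 ^ 2),
    2 * (c 3 * c 1 - 2 * c 4 * c 0) * c 4 - 4 * c 1 * (c 7 * c 1 - 3 * c 8 * c 0),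
    c 4 ^ 2 - 4 * c 1 * c 8]

/-- the discriminant of a cubic `x³ + a x² + b x + c` -/
def dc3 (a b c : R) : R :=
  a ^ 2 * b ^ 2 - 4 * b ^ 3 - 4 * a ^ 3 * c - 27 * c ^ 2 + 18 * a * b * c

/-- the discriminant of the quartic `w² + q 0 μ + q 1 μ² + q 2 μ³ + q 3 μ⁴` -/
def dq4 (w : R) (q : Fin 4 → R) : R :=
  dc3 (q 1) (q 0 * q 2 - 4 * w ^ 2 * q 3)
    (q 0 ^ 2 * q 3 + w ^ 2 * q 2 ^ 2 - 4 * w ^ 2 * q 1 * q 3)

/-- the discriminant of the quartic of the projection -/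
def ds9 (c : Fin 9 → R) : R := dq4 (Ph c) (q9 c)

/-- the ternary cubic form -/
noncomputable def tern (c : Fin 9 → R) : MvPolynomial (Fin 3) R :=
  MvPolynomial.X 0 ^ 2 * (MvPolynomial.C (c 0) * MvPolynomial.X 1 +
      MvPolynomial.C (c 1) * MvPolynomial.X 2) +
    MvPolynomial.X 0 * (MvPolynomial.C (c 2) * MvPolynomial.X 1 ^ 2 +
      MvPolynomial.C (c 3) * (MvPolynomial.X 1 * MvPolynomial.X 2) +
      MvPolynomial.C (c 4) * MvPolynomial.X 2 ^ 2) +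
    (MvPolynomial.C (c 5) * MvPolynomial.X 1 ^ 3 +
      MvPolynomial.C (c 6) * (MvPolynomial.X 1 ^ 2 * MvPolynomial.X 2) +
      MvPolynomial.C (c 7) * (MvPolynomial.X 1 * MvPolynomial.X 2 ^ 2) +
      MvPolynomial.C (c 8) * MvPolynomial.X 2 ^ 3)

/-- a smooth plane curve -/
def Sm3 (G : MvPolynomial (Fin 3) R) : Prop :=
  ∀ y : Fin 3 → R, (∀ j, MvPolynomial.eval y (MvPolynomial.pderiv j G) = 0) → y = 0

/-- the second point of the quadric over `u` on the line through `x` and `m`, if `x` is on it -/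
noncomputable def Rp (C : α → α → MvPolynomial β R) (u : β → R) (x m : α → R) : α → R :=
  fun a => Bf C u m m * x a - 2 * Bf C u x m * m a

/-- the plane sections are plane cubics with the coefficients `c9` -/
def Pid (C : α → α → MvPolynomial β R) (e e' : β → R) : Prop :=
  ∀ (u : β → R) (x : α → R) (s r : R),
    Bf C (fun b => u b + s * e b + r * e' b) x x = Bf C u x x + cub (c9 C u e e' x) s r

end defs

section moves

variable {K : Type} [Field K] {V : Type} {L : V → Type} [∀ v, NontriviallyNormedField (L v)]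
  (s : ∀ v, K →+* L v) {α β : Type} [Fintype α]

/-- weak approximation for the line -/
def Dns (s : ∀ v, K →+* L v) : Prop :=
  ∀ (m : ∀ v, L v) (η : ℝ), 0 < η → ∃ x : K, ∀ v, ‖s v x - m v‖ < η

/-- closeness -/
def nx {γ : Type} (δ : ℝ) (x : γ → K) (x₀ : ∀ v, γ → L v) : Prop :=
  ∀ v a, ‖s v (x a) - x₀ v a‖ < δ

/-- moves on the plane cubics through the point -/
def MvP (C : α → α → MvPolynomial β K) (e e' : β → K) (x₀ : ∀ v, α → L v) (u₀ : ∀ v, β → L v) :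
    Prop :=
  ∃ δ : ℝ, 0 < δ ∧ ∀ (x : α → K) (u : β → K), Bf C u x x = 0 → nx s δ x x₀ → nx s δ u u₀ →
    ∀ S R : ∀ v, L v, (∀ v, ‖S v‖ < δ) → (∀ v, ‖R v‖ < δ) →
    (∀ v, Bf (mC (s v) C) (fun b => s v (u b) + S v * s v (e b) + R v * s v (e' b))
      (fun a => s v (x a)) (fun a => s v (x a)) = 0) →
    ∀ η : ℝ, 0 < η → ∃ S' R' : K, Bf C (fun b => u b + S' * e b + R' * e' b) x x = 0 ∧
      ∀ v, ‖s v S' - S v‖ < η ∧ ‖s v R' - R v‖ < η

/-- moves in the direction `e`, together with `x` -/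
def MvG (C : α → α → MvPolynomial β K) (e : β → K) (x₀ : ∀ v, α → L v) (u₀ : ∀ v, β → L v) :
    Prop :=
  ∃ δ : ℝ, 0 < δ ∧ ∀ (x : α → K) (u : β → K), Bf C u x x = 0 → nx s δ x x₀ → nx s δ u u₀ →
    ∀ (t : ∀ v, L v) (y : ∀ v, α → L v), (∀ v, ‖t v‖ < δ) → (∀ v a, ‖y v a - x₀ v a‖ < δ) →
    (∀ v, Bf (mC (s v) C) (fun b => s v (u b) + t v * s v (e b)) (y v) (y v) = 0) →
    ∀ η : ℝ, 0 < η → ∃ (x' : α → K) (u' : β → K), Bf C u' x' x' = 0 ∧ nx s η x' y ∧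
      nx s η u' (fun v b => s v (u b) + t v * s v (e b))

/-- the closure of the rational points is open at a local point, if it belongs to it -/
def IntG (C : α → α → MvPolynomial β K) (x₀ : ∀ v, α → L v) (u₀ : ∀ v, β → L v) : Prop :=
  ∃ ε : ℝ, 0 < ε ∧ ∀ (x : α → K) (u : β → K), Bf C u x x = 0 → nx s ε x x₀ → nx s ε u u₀ →
    ∀ (y : ∀ v, α → L v) (w : ∀ v, β → L v), (∀ v, Bf (mC (s v) C) (w v) (y v) (y v) = 0) →
    (∀ v a, ‖y v a - x₀ v a‖ < ε) → (∀ v b, ‖w v b - u₀ v b‖ < ε) →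
    ∀ η : ℝ, 0 < η → ∃ (x' : α → K) (u' : β → K), Bf C u' x' x' = 0 ∧ nx s η x' y ∧
      nx s η u' w

end moves

/-- QUA: weak approximation on a quadric with a rational point. -/
def S_QUA : Prop := ∀ (K : Type) [Field K] [CharZero K] (V : Type) [Finite V] (L : V → Type)
  [∀ v, NontriviallyNormedField (L v)] (s : ∀ v, K →+* L v), Dns s →
  ∀ (α β : Type) [Fintype α] (C : α → α → MvPolynomial β K), (∀ i j, C i j = C j i) →
  ∀ (u : β → K) (x : α → K), Bf C u x x = 0 → ∀ y : ∀ v, α → L v,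
  (∀ v, Bf (mC (s v) C) (fun b => s v (u b)) (y v) (y v) = 0) →
  (∀ v, Bf (mC (s v) C) (fun b => s v (u b)) (fun a => s v (x a)) (y v) ≠ 0) →
  ∀ η : ℝ, 0 < η → ∃ x' : α → K, Bf C u x' x' = 0 ∧ nx s η x' y

/-- ONE: simple roots persist. -/
def S_ONE : Prop := ∀ (F : Type) [NontriviallyNormedField F] [CompleteSpace F] (k₁ k₂ k₃ : F),
  k₁ ≠ 0 → ∀ ε : ℝ, 0 < ε → ∃ ρ : ℝ, 0 < ρ ∧ ∀ h l₁ l₂ l₃ : F, ‖h‖ < ρ → ‖l₁ - k₁‖ < ρ →
  ‖l₂ - k₂‖ < ρ → ‖l₃ - k₃‖ < ρ → ∃ t : F, ‖t‖ < ε ∧ h + l₁ * t + l₂ * t ^ 2 + l₃ * t ^ 3 = 0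

/-- TWO: transversal intersections persist. -/
def S_TWO : Prop := ∀ (F : Type) [NontriviallyNormedField F] [CompleteSpace F]
  (c₀ d₀ : Fin 9 → F), c₀ 0 * d₀ 1 - c₀ 1 * d₀ 0 ≠ 0 → ∀ ε : ℝ, 0 < ε → ∃ ρ : ℝ, 0 < ρ ∧
  ∀ (c d : Fin 9 → F) (h k : F), (∀ m, ‖c m - c₀ m‖ < ρ) → (∀ m, ‖d m - d₀ m‖ < ρ) → ‖h‖ < ρ →
  ‖k‖ < ρ → ∃ S R : F, ‖S‖ < ε ∧ ‖R‖ < ε ∧ h + cub c S R = 0 ∧ k + cub d S R = 0

/-- PLN: two plane cubics with different tangents are enough. -/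
def S_PLN : Prop := ∀ (K : Type) [Field K] [CharZero K] (V : Type) [Finite V] (L : V → Type)
  [∀ v, NontriviallyNormedField (L v)] [∀ v, CompleteSpace (L v)] (s : ∀ v, K →+* L v), Dns s →
  ∀ (α β : Type) [Fintype α] [Fintype β] (C : α → α → MvPolynomial β K),
  (∀ i j, C i j = C j i) → ∀ e e' : β → K, Pid C e e' →
  (∀ v, Pid (mC (s v) C) (fun b => s v (e b)) (fun b => s v (e' b))) →
  ∀ (x₀ z₁ z₂ : ∀ v, α → L v) (u₀ : ∀ v, β → L v),
  (∀ v, Bf (mC (s v) C) (u₀ v) (x₀ v) (x₀ v) = 0) →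
  (∀ v, Bf (mC (s v) C) (u₀ v) (z₁ v) (z₁ v) = 0) →
  (∀ v, Bf (mC (s v) C) (u₀ v) (z₂ v) (z₂ v) = 0) →
  (∀ v, Bf (mC (s v) C) (u₀ v) (x₀ v) (z₁ v) ≠ 0) →
  (∀ v, Bf (mC (s v) C) (u₀ v) (z₁ v) (z₂ v) ≠ 0) →
  (∀ v, Bf (mC (s v) C) (u₀ v) (z₂ v) (x₀ v) ≠ 0) →
  (∀ v, c9 (mC (s v) C) (u₀ v) (fun b => s v (e b)) (fun b => s v (e' b)) (z₁ v) 0 *
      c9 (mC (s v) C) (u₀ v) (fun b => s v (e b)) (fun b => s v (e' b)) (z₂ v) 1 -
    c9 (mC (s v) C) (u₀ v) (fun b => s v (e b)) (fun b => s v (e' b)) (z₁ v) 1 *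
      c9 (mC (s v) C) (u₀ v) (fun b => s v (e b)) (fun b => s v (e' b)) (z₂ v) 0 ≠ 0) →
  (∀ v, c9 (mC (s v) C) (u₀ v) (fun b => s v (e b)) (fun b => s v (e' b)) (z₂ v) 1 ≠ 0) →
  MvP s C e e' z₁ u₀ → MvP s C e e' z₂ u₀ → MvG s C e x₀ u₀

/-- CVG: moves in directions which span the space give openness. -/
def S_CVG : Prop := ∀ (K : Type) [Field K] [CharZero K] (V : Type) [Finite V] (L : V → Type)
  [∀ v, NontriviallyNormedField (L v)] [∀ v, CompleteSpace (L v)] (s : ∀ v, K →+* L v), Dns s →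
  ∀ (α β : Type) [Fintype α] [Fintype β] [DecidableEq β] (C : α → α → MvPolynomial β K),
  (∀ i j, C i j = C j i) →
  ∀ (x₀ z : ∀ v, α → L v) (u₀ : ∀ v, β → L v),
  (∀ v, Bf (mC (s v) C) (u₀ v) (x₀ v) (x₀ v) = 0) →
  (∀ v, Bf (mC (s v) C) (u₀ v) (z v) (z v) = 0) →
  (∀ v, Bf (mC (s v) C) (u₀ v) (x₀ v) (z v) ≠ 0) →
  ∀ E : Set (β → K), Submodule.span K E = ⊤ → (∀ e ∈ E, MvG s C e x₀ u₀) → IntG s C x₀ u₀

/-- DSC: a smooth plane cubic; the origin is not a flex and the second axis is not the tangent. -/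
def S_DSC : Prop := ∀ (M : Type) [Field M] [CharZero M] [IsAlgClosed M] (c : Fin 9 → M),
  Sm3 (tern c) → Ph c ≠ 0 → c 1 ≠ 0 → ds9 c ≠ 0

/-- PRM: a root of `P` which is not a root of `Q`, in a family. -/
def S_PRM : Prop := ∀ (A : Type) [CommRing A] (n : ℕ) (P Q : Polynomial A), P.natDegree ≤ n →
  ∀ (M : Type) [Field M] (π : A →+* M) (s₀ : M), (P.map π).eval s₀ = 0 →
  (Q.map π).eval s₀ ≠ 0 → π (P.coeff n) ≠ 0 →
  ∃ ρ : A, π ρ ≠ 0 ∧ ∀ (F : Type) [Field F] (φ : A →+* F), φ (P.coeff n) ≠ 0 → φ ρ ≠ 0 →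
    ∃ t : AlgebraicClosure F, Polynomial.aeval t (P.map φ) = 0 ∧ Polynomial.aeval t (Q.map φ) ≠ 0

/-- the curve `t ↦ Rp (a + t b)` gives polynomial coefficients -/
noncomputable def c9t {A : Type*} [CommRing A] {α β : Type*} [Fintype α]
    (C : α → α → MvPolynomial β A) (u e e' : β → A) (x a b : α → A) : Fin 9 → Polynomial A :=
  c9 (mC Polynomial.C C) (fun c => Polynomial.C (u c)) (fun c => Polynomial.C (e c))
    (fun c => Polynomial.C (e' c))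
    (Rp (mC Polynomial.C C) (fun c => Polynomial.C (u c)) (fun c => Polynomial.C (x c))
      (fun c => Polynomial.C (a c) + Polynomial.C (b c) * Polynomial.X))

/-- LCP: the degree and the leading coefficient. -/
def S_LCP : Prop := ∀ (A : Type) [CommRing A] (α β : Type) [Fintype α]
  (C : α → α → MvPolynomial β A) (u e e' : β → A) (x a b : α → A),
  (Ph (c9t C u e e' x a b)).natDegree ≤ 12 ∧
  (Ph (c9t C u e e' x a b)).coeff 12 = Ph (c9 C u e e' (Rp C u x b))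

/-- the conditions at a point -/
def Cnd {F : Type} [Field F] {α β : Type} [Fintype α] (C : α → α → MvPolynomial β F) (x : α → F)
    (u e e' : β → F) (a₁ b₁ a₂ b₂ : α → F) : Prop :=
  Bf C u x (Rp C u x a₁) ≠ 0 ∧ Bf C u (Rp C u x a₁) (Rp C u x a₂) ≠ 0 ∧
  Bf C u (Rp C u x a₂) x ≠ 0 ∧
  (Ph (c9 C u e e' (Rp C u x a₁)) ≠ 0 ∧ ds9 (c9 C u e e' (Rp C u x a₁)) ≠ 0 ∧
    c9 C u e e' (Rp C u x a₁) 1 ≠ 0) ∧
  (Ph (c9 C u e e' (Rp C u x a₂)) ≠ 0 ∧ ds9 (c9 C u e e' (Rp C u x a₂)) ≠ 0 ∧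
    c9 C u e e' (Rp C u x a₂) 1 ≠ 0) ∧
  c9 C u e e' (Rp C u x a₁) 0 * c9 C u e e' (Rp C u x a₂) 1 -
    c9 C u e e' (Rp C u x a₁) 1 * c9 C u e e' (Rp C u x a₂) 0 ≠ 0 ∧
  (∃ t : AlgebraicClosure F, Polynomial.aeval t (Ph (c9t C u e e' x a₁ b₁)) = 0 ∧
    Polynomial.aeval t (q9 (c9t C u e e' x a₁ b₁) 0) ≠ 0) ∧
  (∃ t : AlgebraicClosure F, Polynomial.aeval t (Ph (c9t C u e e' x a₂ b₂)) = 0 ∧
    Polynomial.aeval t (q9 (c9t C u e e' x a₂ b₂) 0) ≠ 0)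

/-- the type of the parameters `e, e', a₁, b₁, a₂, b₂` -/
abbrev Pa (α κ : Type) : Type := κ ⊕ (κ ⊕ ((α ⊕ α) ⊕ (α ⊕ α)))

/-- the conditions, with the parameters -/
def CndP {F : Type} [Field F] {r : ℕ} {n : Fin r → ℕ} (i : Fin r) {α : Type} [Fintype α]
    (C : α → α → MvPolynomial (Vr n) F) (x : α → F) (u : Vr n → F)
    (π : Pa α (Fin (n i + 1)) → F) : Prop :=
  Cnd C x u (hat i fun l => π (Sum.inl l)) (hat i fun l => π (Sum.inr (Sum.inl l)))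
    (fun a => π (Sum.inr (Sum.inr (Sum.inl (Sum.inl a)))))
    (fun a => π (Sum.inr (Sum.inr (Sum.inl (Sum.inr a)))))
    (fun a => π (Sum.inr (Sum.inr (Sum.inr (Sum.inl a)))))
    (fun a => π (Sum.inr (Sum.inr (Sum.inr (Sum.inr a)))))

/-- the conditions at a geometric point -/
def Geo {M : Type} [Field M] {α β : Type} [Fintype α] (C : α → α → MvPolynomial β M)
    (u e e' : β → M) (z₀ z₁ w : α → M) : Prop :=
  Bf C u z₀ z₀ = 0 ∧ Bf C u z₁ z₁ = 0 ∧ Bf C u z₀ z₁ ≠ 0 ∧ Bf C u z₀ w = 0 ∧ Bf C u w w ≠ 0 ∧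
  Ph (c9 C u e e' z₀) ≠ 0 ∧ ds9 (c9 C u e e' z₀) ≠ 0 ∧ c9 C u e e' z₀ 0 ≠ 0 ∧
  c9 C u e e' z₁ 0 = 0 ∧ c9 C u e e' z₁ 2 = 0 ∧ c9 C u e e' z₁ 1 ≠ 0 ∧ c9 C u e e' z₁ 5 ≠ 0

/-- NPL: a polynomial whose nonvanishing implies the conditions. -/
def S_NPL : Prop := ∀ (K : Type) [Field K] [CharZero K] (r : ℕ) (n : Fin r → ℕ) (i : Fin r)
  (α : Type) [Fintype α] (C : α → α → MvPolynomial (Vr n) K), (∀ i j, C i j = C j i) →
  ∀ (M : Type) [Field M] [CharZero M] (ψ : K →+* M) (u : Vr n → M)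
  (ε ε' : Fin (n i + 1) → M) (z₀ z₁ w : α → M),
  Geo (mC ψ C) u (hat i ε) (hat i ε') z₀ z₁ w →
  ∃ G : MvPolynomial ((α ⊕ Vr n) ⊕ Pa α (Fin (n i + 1))) K,
    (∃ π : Pa α (Fin (n i + 1)) → M,
      MvPolynomial.eval₂ ψ (Sum.elim (Sum.elim z₀ u) π) G ≠ 0) ∧
    ∀ (F : Type) [Field F] [CharZero F] (φ : K →+* F) (x : α → F) (u : Vr n → F)
      (π : Pa α (Fin (n i + 1)) → F),
      MvPolynomial.eval₂ φ (Sum.elim (Sum.elim x u) π) G ≠ 0 → CndP i (mC φ C) x u π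

/-- SPN: rational parameters with spanning directions. -/
def S_SPN : Prop := ∀ (K : Type) [Field K] [CharZero K] (Γ κ Θ : Type) [Finite Γ] [Fintype κ]
  [Finite Θ] (G : MvPolynomial (Γ ⊕ (κ ⊕ Θ)) K) (M : Type) [Field M] (ψ : K →+* M) (P : Γ → M),
  (∃ π : κ ⊕ Θ → M, MvPolynomial.eval₂ ψ (Sum.elim P π) G ≠ 0) →
  ∃ T : Finset (κ ⊕ Θ → K),
    Submodule.span K {e : κ → K | ∃ π ∈ T, e = fun l => π (Sum.inl l)} = ⊤ ∧
    ∀ π ∈ T, MvPolynomial.eval₂ ψ (Sum.elim P fun l => ψ (π l)) G ≠ 0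

/-- ISO: a nondegenerate quadratic form of dimension at least three does not vanish on the
orthogonal complement of an isotropic vector. -/
def S_ISO : Prop := ∀ (M : Type) [Field M] [CharZero M] (α : Type) [Fintype α] [DecidableEq α]
  (b : Matrix α α M), (∀ i j, b i j = b j i) → b.det ≠ 0 → 3 ≤ Fintype.card α →
  ∀ z : α → M, z ≠ 0 → (∑ i, ∑ j, b i j * z i * z j) = 0 →
  ∃ w : α → M, (∑ i, ∑ j, b i j * z i * w j) = 0 ∧ (∑ i, ∑ j, b i j * w i * w j) ≠ 0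

/-- DEG: planes in one block. -/
def S_DEG : Prop := ∀ (F : Type) [Field F] [CharZero F] (r : ℕ) (n : Fin r → ℕ) (i : Fin r)
  (α : Type) [Fintype α] (C : α → α → MvPolynomial (Vr n) F), (∀ a b, MH (fun _ => 3) (C a b)) →
  ∀ ε ε' : Fin (n i + 1) → F, Pid C (hat i ε) (hat i ε')

/-- the cubic form in the variables of the `i`-th block -/
noncomputable def FB {F : Type*} [Field F] {r : ℕ} {n : Fin r → ℕ} {α : Type*} [Fintype α]
    (C : α → α → MvPolynomial (Vr n) F) (u : Vr n → F) (z : α → F) (i : Fin r) :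
    MvPolynomial (Fin (n i + 1)) F :=
  ∑ a, ∑ b, MvPolynomial.C (z a * z b) * Gi (C a b) u i

/-- the restriction to a line -/
noncomputable def lnP {F : Type*} [Field F] {m : ℕ} (G : MvPolynomial (Fin m) F)
    (p e : Fin m → F) : Polynomial F :=
  MvPolynomial.aeval (fun j => Polynomial.C (p j) + Polynomial.C (e j) * Polynomial.X) G

/-- the restriction to a plane -/
noncomputable def plP {F : Type*} [Field F] {m : ℕ} (G : MvPolynomial (Fin m) F)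
    (p e e' : Fin m → F) : MvPolynomial (Fin 3) F :=
  MvPolynomial.aeval (fun j => MvPolynomial.C (p j) * MvPolynomial.X 0 +
    MvPolynomial.C (e j) * MvPolynomial.X 1 + MvPolynomial.C (e' j) * MvPolynomial.X 2) G

/-- HYP: lines and planes in terms of the coefficients `c9`. -/
def S_HYP : Prop := ∀ (F : Type) [Field F] [CharZero F] (r : ℕ) (n : Fin r → ℕ) (i : Fin r)
  (α : Type) [Fintype α] (C : α → α → MvPolynomial (Vr n) F), (∀ a b, MH (fun _ => 3) (C a b)) →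
  ∀ (u : Vr n → F) (ε ε' : Fin (n i + 1) → F) (z : α → F), Bf C u z z = 0 →
  plP (FB C u z i) (fun l => u ⟨i, l⟩) ε ε' = tern (c9 C u (hat i ε) (hat i ε') z) ∧
  (lnP (FB C u z i) (fun l => u ⟨i, l⟩) ε).coeff 1 = c9 C u (hat i ε) (hat i ε') z 0 ∧
  (lnP (FB C u z i) (fun l => u ⟨i, l⟩) ε').coeff 1 = c9 C u (hat i ε) (hat i ε') z 1 ∧
  (lnP (FB C u z i) (fun l => u ⟨i, l⟩) ε).coeff 2 = c9 C u (hat i ε) (hat i ε') z 2 ∧
  (lnP (FB C u z i) (fun l => u ⟨i, l⟩) ε).coeff 3 = c9 C u (hat i ε) (hat i ε') z 5 ∧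
  ∀ a b : F, (lnP (FB C u z i) (fun l => u ⟨i, l⟩) fun l => a * ε l + b * ε' l).coeff 0 = 0 ∧
    (lnP (FB C u z i) (fun l => u ⟨i, l⟩) fun l => a * ε l + b * ε' l).coeff 1 =
      a * c9 C u (hat i ε) (hat i ε') z 0 + b * c9 C u (hat i ε) (hat i ε') z 1 ∧
    (lnP (FB C u z i) (fun l => u ⟨i, l⟩) fun l => a * ε l + b * ε' l).coeff 2 =
      a ^ 2 * c9 C u (hat i ε) (hat i ε') z 2 + a * b * c9 C u (hat i ε) (hat i ε') z 3 +
        b ^ 2 * c9 C u (hat i ε) (hat i ε') z 4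

end Pool.Agent.K6.H43.GH
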