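import Pool.Agent.K6.H43.GH.Alg

/-!
# Coefficients of degree one, two or three: further definitions and statements (helper43)
-/

set_option autoImplicit false
set_option linter.unusedVariables false

open Filter Topology

namespace Pool.Agent.K6.H43.GH

/-- CON: moves on plane conics. -/
def S_CON : Prop := ∀ (K : Type) [Field K] [CharZero K] (V : Type) [Finite V] (L : V → Type)
  [∀ v, NontriviallyNormedField (L v)] (s : ∀ v, K →+* L v), Dns s →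
  ∀ c₀ : ∀ v, Fin 9 → L v, (∀ v, c₀ v 1 ≠ 0) →
  ∃ δ : ℝ, 0 < δ ∧ ∀ c : Fin 9 → K, c 5 = 0 → c 6 = 0 → c 7 = 0 → c 8 = 0 →
    (∀ v m, ‖s v (c m) - c₀ v m‖ < δ) →
    ∀ S R : ∀ v, L v, (∀ v, ‖S v‖ < δ) → (∀ v, ‖R v‖ < δ) →
    (∀ v, cub (fun m => s v (c m)) (S v) (R v) = 0) →
    ∀ η : ℝ, 0 < η → ∃ S' R' : K, cub c S' R' = 0 ∧ ∀ v, ‖s v S' - S v‖ < η ∧ ‖s v R' - R v‖ < η

/-- the conditions at a point, for conics -/
def Cnd2 {F : Type} [Field F] {α β : Type} [Fintype α] (C : α → α → MvPolynomial β F) (x : α → F)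
    (u e e' : β → F) (a₁ a₂ : α → F) : Prop :=
  Bf C u x (Rp C u x a₁) ≠ 0 ∧ Bf C u (Rp C u x a₁) (Rp C u x a₂) ≠ 0 ∧
  Bf C u (Rp C u x a₂) x ≠ 0 ∧ c9 C u e e' (Rp C u x a₁) 1 ≠ 0 ∧
  c9 C u e e' (Rp C u x a₂) 1 ≠ 0 ∧
  c9 C u e e' (Rp C u x a₁) 0 * c9 C u e e' (Rp C u x a₂) 1 -
    c9 C u e e' (Rp C u x a₁) 1 * c9 C u e e' (Rp C u x a₂) 0 ≠ 0

/-- the conditions, with the parameters -/
def CndP2 {F : Type} [Field F] {r : ℕ} {n : Fin r → ℕ} (i : Fin r) {α : Type} [Fintype α]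
    (C : α → α → MvPolynomial (Vr n) F) (x : α → F) (u : Vr n → F)
    (π : Pa α (Fin (n i + 1)) → F) : Prop :=
  Cnd2 C x u (hat i fun l => π (Sum.inl l)) (hat i fun l => π (Sum.inr (Sum.inl l)))
    (fun a => π (Sum.inr (Sum.inr (Sum.inl (Sum.inl a)))))
    (fun a => π (Sum.inr (Sum.inr (Sum.inr (Sum.inl a)))))

/-- the conditions at a geometric point, for conics -/
def Geo2 {M : Type} [Field M] {α β : Type} [Fintype α] (C : α → α → MvPolynomial β M)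
    (u e e' : β → M) (z₀ z₁ w : α → M) : Prop :=
  Bf C u z₀ z₀ = 0 ∧ Bf C u z₁ z₁ = 0 ∧ Bf C u z₀ z₁ ≠ 0 ∧ Bf C u z₀ w = 0 ∧ Bf C u w w ≠ 0 ∧
  c9 C u e e' z₀ 0 * c9 C u e e' z₁ 1 - c9 C u e e' z₀ 1 * c9 C u e e' z₁ 0 ≠ 0

/-- NP2: a polynomial whose nonvanishing implies the conditions, for conics. -/
def S_NP2 : Prop := ∀ (K : Type) [Field K] [CharZero K] (r : ℕ) (n : Fin r → ℕ) (i : Fin r)
  (α : Type) [Fintype α] (C : α → α → MvPolynomial (Vr n) K), (∀ i j, C i j = C j i) →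
  ∀ (M : Type) [Field M] [CharZero M] (ψ : K →+* M) (u : Vr n → M)
  (ε ε' : Fin (n i + 1) → M) (z₀ z₁ w : α → M),
  Geo2 (mC ψ C) u (hat i ε) (hat i ε') z₀ z₁ w →
  ∃ G : MvPolynomial ((α ⊕ Vr n) ⊕ Pa α (Fin (n i + 1))) K,
    (∃ π : Pa α (Fin (n i + 1)) → M,
      MvPolynomial.eval₂ ψ (Sum.elim (Sum.elim z₀ u) π) G ≠ 0) ∧
    ∀ (F : Type) [Field F] [CharZero F] (φ : K →+* F) (x : α → F) (u : Vr n → F)
      (π : Pa α (Fin (n i + 1)) → F),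
      MvPolynomial.eval₂ φ (Sum.elim (Sum.elim x u) π) G ≠ 0 → CndP2 i (mC φ C) x u π

/-- DG2: planes in a block of degree at most three. -/
def S_DG2 : Prop := ∀ (F : Type) [Field F] [CharZero F] (r : ℕ) (n : Fin r → ℕ) (i : Fin r)
  (α : Type) [Fintype α] (C : α → α → MvPolynomial (Vr n) F) (d : Fin r → ℕ),
  (∀ a b, MH d (C a b)) → d i ≤ 3 → ∀ ε ε' : Fin (n i + 1) → F, Pid C (hat i ε) (hat i ε') ∧
  (d i ≤ 2 → ∀ (u : Vr n → F) (x : α → F) (m : Fin 9), 5 ≤ m →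
    c9 C u (hat i ε) (hat i ε') x m = 0)

/-- HY2: lines and planes in terms of the coefficients `c9`, with degree three only in one
block. -/
def S_HY2 : Prop := ∀ (F : Type) [Field F] [CharZero F] (r : ℕ) (n : Fin r → ℕ) (i : Fin r)
  (α : Type) [Fintype α] (C : α → α → MvPolynomial (Vr n) F) (d : Fin r → ℕ),
  (∀ a b, MH d (C a b)) → ∀ (u : Vr n → F) (ε ε' : Fin (n i + 1) → F) (z : α → F),
  Bf C u z z = 0 →
  (lnP (FB C u z i) (fun l => u ⟨i, l⟩) ε).coeff 1 = c9 C u (hat i ε) (hat i ε') z 0 ∧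
  (lnP (FB C u z i) (fun l => u ⟨i, l⟩) ε').coeff 1 = c9 C u (hat i ε) (hat i ε') z 1 ∧
  (d i = 3 → plP (FB C u z i) (fun l => u ⟨i, l⟩) ε ε' =
      tern (c9 C u (hat i ε) (hat i ε') z) ∧
    (lnP (FB C u z i) (fun l => u ⟨i, l⟩) ε).coeff 2 = c9 C u (hat i ε) (hat i ε') z 2 ∧
    (lnP (FB C u z i) (fun l => u ⟨i, l⟩) ε).coeff 3 = c9 C u (hat i ε) (hat i ε') z 5 ∧
    ∀ a b : F, (lnP (FB C u z i) (fun l => u ⟨i, l⟩) fun l => a * ε l + b * ε' l).coeff 0 = 0 ∧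
      (lnP (FB C u z i) (fun l => u ⟨i, l⟩) fun l => a * ε l + b * ε' l).coeff 1 =
        a * c9 C u (hat i ε) (hat i ε') z 0 + b * c9 C u (hat i ε) (hat i ε') z 1 ∧
      (lnP (FB C u z i) (fun l => u ⟨i, l⟩) fun l => a * ε l + b * ε' l).coeff 2 =
        a ^ 2 * c9 C u (hat i ε) (hat i ε') z 2 + a * b * c9 C u (hat i ε) (hat i ε') z 3 +
          b ^ 2 * c9 C u (hat i ε) (hat i ε') z 4)

end Pool.Agent.K6.H43.GH
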