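import Pool.Agent.K6.H43.GH.Base

/-!
# The exceptional divisor (helper43)
-/

set_option autoImplicit false
set_option linter.unusedVariables false
set_option linter.unusedSectionVars false

namespace Pool.Agent.K6.H43.GH

section hat

variable {r : ℕ} {n : Fin r → ℕ} {F : Type*} [Field F]

lemma hatD_same (i : Fin r) (e : Fin (n i + 1) → F) (j : Fin (n i + 1)) :
    hat i e ⟨i, j⟩ = e j := by
  unfold hat
  simp

lemma hatD_ne {i k : Fin r} (h : k ≠ i) (e : Fin (n i + 1) → F)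
    (j : Fin (n k + 1)) : hat i e ⟨k, j⟩ = 0 := by
  unfold hat
  rw [Function.update_of_ne h]

lemma hatD_map {S : Type*} [Field S] (φ : F →+* S) (i : Fin r) (e : Fin (n i + 1) → F) :
    (fun b => φ (hat i e b)) = hat i fun j => φ (e j) := by
  funext ⟨k, j⟩
  by_cases h : k = i
  · subst h
    rw [hatD_same, hatD_same]
  · rw [hatD_ne h, hatD_ne h, map_zero]

/-- the linear map -/
def hatL (F : Type*) [Field F] (i : Fin r) : (Fin (n i + 1) → F) →ₗ[F] (Vr n → F) where
  toFun e := hat i e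
  map_add' e e' := by
    funext ⟨k, j⟩
    by_cases h : k = i
    · subst h
      rw [Pi.add_apply, hatD_same, hatD_same, hatD_same, Pi.add_apply]
    · rw [Pi.add_apply, hatD_ne h, hatD_ne h, hatD_ne h, add_zero]
  map_smul' c e := by
    funext ⟨k, j⟩
    by_cases h : k = i
    · subst h
      simp [hatD_same]
    · simp [hatD_ne h]

/-- vectors in the blocks which span the blocks -/
lemma span_hat (E : ∀ i, Set (Fin (n i + 1) → F)) (h : ∀ i, Submodule.span F (E i) = ⊤) :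
    Submodule.span F {e : Vr n → F | ∃ i, ∃ e' ∈ E i, e = hat i e'} = ⊤ := by
  rw [eq_top_iff]
  intro x _
  have h1 : x = ∑ i, hatL F i fun l => x ⟨i, l⟩ := by
    funext ⟨k, j⟩
    rw [Finset.sum_apply, Finset.sum_eq_single k]
    · change x ⟨k, j⟩ = hat k (fun l => x ⟨k, l⟩) ⟨k, j⟩
      rw [hatD_same]
    · intro i _ hi
      change hat i (fun l => x ⟨i, l⟩) ⟨k, j⟩ = 0
      rw [hatD_ne (Ne.symm hi)]
    · simp
  rw [h1]
  refine Submodule.sum_mem _ fun i _ => ?_
  have h2 : Submodule.map (hatL F i) (Submodule.span F (E i)) ≤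
      Submodule.span F {e : Vr n → F | ∃ i, ∃ e' ∈ E i, e = hat i e'} := by
    rw [Submodule.map_span]
    refine Submodule.span_mono ?_
    rintro _ ⟨e, he, rfl⟩
    exact ⟨i, e, he, rfl⟩
  refine h2 ⟨_, ?_, rfl⟩
  rw [h i]
  trivial

lemma MHD_map {d : Fin r → ℕ} {f : MvPolynomial (Vr n) F} (h : MH d f) {S : Type*} [Field S]
    (φ : F →+* S) : MH d (MvPolynomial.map φ f) := fun m hm =>
  h m (MvPolynomial.support_map_subset _ _ hm)

end hat

section div

variable {K : Type} [Field K] {α β : Type} [Fintype α]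

/-- the equation of the quadric bundle -/
noncomputable def Fq (C : α → α → MvPolynomial β K) : MvPolynomial (α ⊕ β) K :=
  ∑ i, ∑ j, MvPolynomial.rename Sum.inr (C i j) * MvPolynomial.X (Sum.inl i) *
    MvPolynomial.X (Sum.inl j)

lemma Fq_eval {F : Type*} [Field F] (φ : K →+* F) (C : α → α → MvPolynomial β K) (x : α → F)
    (u : β → F) : MvPolynomial.eval₂ φ (Sum.elim x u) (Fq C) = Bf (mC φ C) u x x := by
  unfold Fq Bf mC
  rw [MvPolynomial.eval₂_sum]
  refine Finset.sum_congr rfl fun i _ => ?_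
  rw [MvPolynomial.eval₂_sum]
  refine Finset.sum_congr rfl fun j _ => ?_
  rw [MvPolynomial.eval₂_mul, MvPolynomial.eval₂_mul, MvPolynomial.eval₂_X,
    MvPolynomial.eval₂_X, MvPolynomial.eval₂_rename, MvPolynomial.eval_map]
  rfl

/-- insert the parameters -/
noncomputable def insP {Γ Θ : Type} (G : MvPolynomial (Γ ⊕ Θ) K) (π : Θ → K) : MvPolynomial Γ K :=
  MvPolynomial.aeval (Sum.elim (fun c => MvPolynomial.X c) fun l => MvPolynomial.C (π l)) G

lemma insP_eval {Γ Θ : Type} (G : MvPolynomial (Γ ⊕ Θ) K) (π : Θ → K) {F : Type*} [Field F]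
    (φ : K →+* F) (P : Γ → F) : MvPolynomial.eval₂ φ P (insP G π) =
      MvPolynomial.eval₂ φ (Sum.elim P fun l => φ (π l)) G := by
  unfold insP
  induction G using MvPolynomial.induction_on with
  | C a => simp
  | add p q hp hq => simp only [map_add, MvPolynomial.eval₂_add, hp, hq]
  | mul_X p b hp =>
    simp only [map_mul, MvPolynomial.eval₂_mul, MvPolynomial.aeval_X, MvPolynomial.eval₂_X, hp]
    rcases b with b | b
    · simp
    · simp

/-- **The divisor.** -/
theorem exists_NG (h1 : S_NPL) (h2 : S_SPN) [CharZero K] {r : ℕ} {n : Fin r → ℕ}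
    {C : α → α → MvPolynomial (Vr n) K} (hC : ∀ i j, C i j = C j i)
    (hirr : Irreducible (Fq C))
    (hG : ∀ i, ∃ (u : Vr n → AlgebraicClosure K) (ε ε' : Fin (n i + 1) → AlgebraicClosure K)
      (z₀ z₁ w : α → AlgebraicClosure K),
      Geo (mC (algebraMap K (AlgebraicClosure K)) C) u (hat i ε) (hat i ε') z₀ z₁ w) :
    ∃ T : ∀ i, Finset (Pa α (Fin (n i + 1)) → K),
      (∀ i, Submodule.span K {e : Fin (n i + 1) → K | ∃ π ∈ T i, e = fun l => π (Sum.inl l)} = ⊤) ∧
      ∃ N : MvPolynomial (α ⊕ Vr n) K, ¬ Fq C ∣ N ∧ ∀ (F : Type) [Field F] [CharZero F]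
        (φ : K →+* F) (x : α → F) (u : Vr n → F),
        MvPolynomial.eval₂ φ (Sum.elim x u) N ≠ 0 → ∀ i, ∀ π ∈ T i,
          CndP i (mC φ C) x u fun l => φ (π l) := by
  classical
  choose u ε ε' z₀ z₁ w hgeo using hG
  have h3 := fun i => h1 K r n i α C hC (AlgebraicClosure K) (algebraMap K (AlgebraicClosure K))
    (u i) (ε i) (ε' i) (z₀ i) (z₁ i) (w i) (hgeo i)
  choose G hG1 hG2 using h3
  have h4 := fun i => h2 K (α ⊕ Vr n) (Fin (n i + 1)) (Fin (n i + 1) ⊕ ((α ⊕ α) ⊕ (α ⊕ α))) (G i)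
    (AlgebraicClosure K) (algebraMap K (AlgebraicClosure K)) (Sum.elim (z₀ i) (u i)) (hG1 i)
  choose T hT1 hT2 using h4
  refine ⟨T, hT1, ∏ i, ∏ π ∈ T i, insP (G i) π, ?_, ?_⟩
  · intro hdvd
    obtain ⟨i, -, hi⟩ := (hirr.prime.dvd_finsetProd_iff _).1 hdvd
    obtain ⟨π, hπ, hd⟩ := (hirr.prime.dvd_finsetProd_iff _).1 hi
    apply hT2 i π hπ
    obtain ⟨Q, hQ⟩ := hd
    rw [← insP_eval, hQ, MvPolynomial.eval₂_mul, Fq_eval, (hgeo i).1, zero_mul]
  · intro F _ _ φ x v hN i π hπ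
    refine hG2 i F φ x v _ ?_
    rw [← insP_eval]
    intro h0
    apply hN
    rw [← MvPolynomial.coe_eval₂Hom, map_prod]
    refine Finset.prod_eq_zero (Finset.mem_univ i) ?_
    rw [map_prod]
    exact Finset.prod_eq_zero hπ h0

end div

end Pool.Agent.K6.H43.GH
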