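import Pool.Agent.K6.H43.GH.Opn
import Pool.Agent.K6.H43.GH.Dvs
import Pool.Agent.K6.H43.GH.Alg2

/-!
# Assembly, coefficients of degree at most three (helper43)
-/

set_option autoImplicit false
set_option linter.unusedVariables false
set_option linter.unusedSectionVars false

open Filter Topology Pool.Agent.Y720.MZ

namespace Pool.Agent.K6.H43.GH

section pts

variable {F : Type} [NontriviallyNormedField F] [CompleteSpace F] [CharZero F] {α β : Type}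
  [Fintype α] [Fintype β]

/-- the conditions on two points of the quadric -/
structure Two0 (C : α → α → MvPolynomial β F) (u e e' : β → F) (x z₁ z₂ : α → F) : Prop where
  on₁ : Bf C u z₁ z₁ = 0
  on₂ : Bf C u z₂ z₂ = 0
  b₁ : Bf C u x z₁ ≠ 0
  b₂ : Bf C u z₁ z₂ ≠ 0
  b₃ : Bf C u z₂ x ≠ 0
  w : c9 C u e e' z₁ 0 * c9 C u e e' z₂ 1 - c9 C u e e' z₁ 1 * c9 C u e e' z₂ 0 ≠ 0
  c₁ : c9 C u e e' z₁ 1 ≠ 0
  c₂ : c9 C u e e' z₂ 1 ≠ 0

lemma Two.two0 {C : α → α → MvPolynomial β F} {u e e' : β → F} {x z₁ z₂ : α → F}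
    (h : Two C u e e' x z₁ z₂) : Two0 C u e e' x z₁ z₂ :=
  ⟨h.on₁, h.on₂, h.b₁, h.b₂, h.b₃, h.w, h.c₁, h.c₂⟩

lemma Cnd2.two0 {C : α → α → MvPolynomial β F} (hC : ∀ i j, C i j = C j i)
    {x : α → F} {u e e' : β → F} (hx : Bf C u x x = 0) {a₁ a₂ : α → F}
    (h : Cnd2 C x u e e' a₁ a₂) : Two0 C u e e' x (Rp C u x a₁) (Rp C u x a₂) :=
  ⟨Rp_on hC hx _, Rp_on hC hx _, h.1, h.2.1, h.2.2.1, h.2.2.2.2.2, h.2.2.2.1, h.2.2.2.2.1⟩

end pts

section gen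

variable {K : Type} [Field K] [CharZero K] {V : Type} [Finite V] {L : V → Type}
  [∀ v, NontriviallyNormedField (L v)] [∀ v, CompleteSpace (L v)] [∀ v, CharZero (L v)]
  {s : ∀ v, K →+* L v}

/-- moves on plane conics -/
theorem mvP_con {α β : Type} [Fintype α] [Fintype β] (hQ : S_CON) (hden : Dns s)
    {C : α → α → MvPolynomial β K} {e e' : β → K} (hid : Pid C e e')
    (hz : ∀ u x (m : Fin 9), 5 ≤ m → c9 C u e e' x m = 0)
    (hidv : ∀ v, Pid (mC (s v) C) (fun b => s v (e b)) (fun b => s v (e' b)))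
    {x₀ : ∀ v, α → L v} {u₀ : ∀ v, β → L v}
    (h1 : ∀ v, c9 (mC (s v) C) (u₀ v) (fun b => s v (e b)) (fun b => s v (e' b)) (x₀ v) 1 ≠ 0) :
    MvP s C e e' x₀ u₀ := by
  obtain ⟨δ, hδ, hb⟩ := hQ K V L s hden _ h1
  choose ρ hρ hρb using fun v => c9_ball (mC (s v) C) (fun b => s v (e b)) (fun b => s v (e' b))
    (u₀ v) (x₀ v) hδ
  obtain ⟨ρ₀, hρ₀, hm⟩ := fin_min hρ
  refine ⟨min δ ρ₀, lt_min hδ hρ₀, fun x u hxu hx hu S R hS hR he η hη => ?_⟩
  obtain ⟨S', R', g1, g2⟩ := hb (c9 C u e e' x) (hz u x 5 (by decide)) (hz u x 6 (by decide))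
    (hz u x 7 (by decide)) (hz u x 8 (by decide))
    (fun v m => by
      rw [c9_map]
      exact hρb v _ _ (fun b => (hu v b).trans_le ((min_le_right _ _).trans (hm v)))
        (fun a => (hx v a).trans_le ((min_le_right _ _).trans (hm v))) m)
    S R (fun v => (hS v).trans_le (min_le_left _ _)) (fun v => (hR v).trans_le (min_le_left _ _))
    (fun v => by
      have k1 := hidv v (fun b => s v (u b)) (fun a => s v (x a)) (S v) (R v)
      rw [he v, ← Bf_map, hxu, map_zero, zero_add] at k1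
      have k2 : (fun m => s v (c9 C u e e' x m)) = c9 (mC (s v) C) (fun b => s v (u b))
          (fun b => s v (e b)) (fun b => s v (e' b)) (fun a => s v (x a)) := by
        funext m
        exact c9_map _ _ _ _ _ _ _
      rw [k2]
      exact k1.symm) η hη
  refine ⟨S', R', ?_, g2⟩
  rw [hid u x S' R', hxu, g1, add_zero]

variable {r : ℕ} {n : Fin r → ℕ} {α : Type} [Fintype α]

/-- from the two points at all places to the moves -/
theorem mvG_two (hP : S_PLN) (hD : S_DG2) (hden : Dns s)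
    {C : α → α → MvPolynomial (Vr n) K} (hC : ∀ i j, C i j = C j i) {d : Fin r → ℕ}
    (hH : ∀ a b, MH d (C a b)) {i : Fin r} (hd : d i ≤ 3) {ε ε' : Fin (n i + 1) → K}
    {x₀ : ∀ v, α → L v} {u₀ : ∀ v, Vr n → L v}
    (h0 : ∀ v, Bf (mC (s v) C) (u₀ v) (x₀ v) (x₀ v) = 0) {z₁ z₂ : ∀ v, α → L v}
    (hT : ∀ v, Two0 (mC (s v) C) (u₀ v) (hat i fun l => s v (ε l)) (hat i fun l => s v (ε' l))
      (x₀ v) (z₁ v) (z₂ v))
    (h1 : MvP s C (hat i ε) (hat i ε') z₁ u₀) (h2 : MvP s C (hat i ε) (hat i ε') z₂ u₀) :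
    MvG s C (hat i ε) x₀ u₀ := by
  have hid : Pid C (hat i ε) (hat i ε') := (hD K r n i α C d hH hd ε ε').1
  have hidv : ∀ v, Pid (mC (s v) C) (fun b => s v (hat i ε b)) (fun b => s v (hat i ε' b)) := by
    intro v
    rw [hatD_map, hatD_map]
    exact (hD (L v) r n i α (mC (s v) C) d (fun a b => MHD_map (hH a b) (s v)) hd _ _).1
  have e1 : ∀ v, (fun b => s v (hat i ε b)) = hat i fun l => s v (ε l) := fun v =>
    hatD_map (s v) i ε
  have e2 : ∀ v, (fun b => s v (hat i ε' b)) = hat i fun l => s v (ε' l) := fun v =>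
    hatD_map (s v) i ε'
  refine hP K V L s hden α (Vr n) C hC (hat i ε) (hat i ε') hid hidv x₀ z₁ z₂ u₀ h0
    (fun v => (hT v).on₁) (fun v => (hT v).on₂) (fun v => (hT v).b₁) (fun v => (hT v).b₂)
    (fun v => (hT v).b₃) (fun v => ?_) (fun v => ?_) h1 h2
  · rw [e1, e2]; exact (hT v).w
  · rw [e1, e2]; exact (hT v).c₂

/-- the moves on the plane cubics, for a block -/
theorem mvP_cub (hQ : S_QGC) (hD : S_DG2)
    {C : α → α → MvPolynomial (Vr n) K} {d : Fin r → ℕ}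
    (hH : ∀ a b, MH d (C a b)) {i : Fin r} (hd : d i ≤ 3) {ε ε' : Fin (n i + 1) → K}
    {u₀ : ∀ v, Vr n → L v} {z : ∀ v, α → L v}
    (h1 : ∀ v, c9 (mC (s v) C) (u₀ v) (hat i fun l => s v (ε l)) (hat i fun l => s v (ε' l))
      (z v) 1 ≠ 0)
    (hPh : ∀ v, Ph (c9 (mC (s v) C) (u₀ v) (hat i fun l => s v (ε l))
      (hat i fun l => s v (ε' l)) (z v)) ≠ 0)
    (hW : WAqL s fun v => th9 (c9 (mC (s v) C) (u₀ v) (hat i fun l => s v (ε l))
      (hat i fun l => s v (ε' l)) (z v))) : MvP s C (hat i ε) (hat i ε') z u₀ := by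
  have hid : Pid C (hat i ε) (hat i ε') := (hD K r n i α C d hH hd ε ε').1
  have hidv : ∀ v, Pid (mC (s v) C) (fun b => s v (hat i ε b)) (fun b => s v (hat i ε' b)) := by
    intro v
    rw [hatD_map, hatD_map]
    exact (hD (L v) r n i α (mC (s v) C) d (fun a b => MHD_map (hH a b) (s v)) hd _ _).1
  have e1 : ∀ v, (fun b => s v (hat i ε b)) = hat i fun l => s v (ε l) := fun v =>
    hatD_map (s v) i ε
  have e2 : ∀ v, (fun b => s v (hat i ε' b)) = hat i fun l => s v (ε' l) := fun v =>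
    hatD_map (s v) i ε'
  refine mvP_of hQ hid hidv (fun v => ?_) (fun v => ?_) ?_
  · rw [e1, e2]; exact h1 v
  · rw [e1, e2]; exact hPh v
  · simp only [e1, e2]
    exact hW

/-- the moves on the plane conics, for a block -/
theorem mvP_con' (hQ : S_CON) (hden : Dns s) (hD : S_DG2)
    {C : α → α → MvPolynomial (Vr n) K} {d : Fin r → ℕ}
    (hH : ∀ a b, MH d (C a b)) {i : Fin r} (hd : d i ≤ 2) {ε ε' : Fin (n i + 1) → K}
    {u₀ : ∀ v, Vr n → L v} {z : ∀ v, α → L v}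
    (h1 : ∀ v, c9 (mC (s v) C) (u₀ v) (hat i fun l => s v (ε l)) (hat i fun l => s v (ε' l))
      (z v) 1 ≠ 0) : MvP s C (hat i ε) (hat i ε') z u₀ := by
  have hd3 : d i ≤ 3 := hd.trans (by norm_num)
  have hid := hD K r n i α C d hH hd3 ε ε'
  have hidv : ∀ v, Pid (mC (s v) C) (fun b => s v (hat i ε b)) (fun b => s v (hat i ε' b)) := by
    intro v
    rw [hatD_map, hatD_map]
    exact (hD (L v) r n i α (mC (s v) C) d (fun a b => MHD_map (hH a b) (s v)) hd3 _ _).1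
  have e1 : ∀ v, (fun b => s v (hat i ε b)) = hat i fun l => s v (ε l) := fun v =>
    hatD_map (s v) i ε
  have e2 : ∀ v, (fun b => s v (hat i ε' b)) = hat i fun l => s v (ε' l) := fun v =>
    hatD_map (s v) i ε'
  refine mvP_con hQ hden hid.1 (hid.2 hd) hidv (fun v => ?_)
  rw [e1, e2]; exact h1 v

/-- openness from the moves in all blocks -/
theorem intG_of2 (hV : S_CVG) (hden : Dns s)
    {C : α → α → MvPolynomial (Vr n) K} (hC : ∀ i j, C i j = C j i)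
    {x₀ z : ∀ v, α → L v} {u₀ : ∀ v, Vr n → L v}
    (h0 : ∀ v, Bf (mC (s v) C) (u₀ v) (x₀ v) (x₀ v) = 0)
    (h1 : ∀ v, Bf (mC (s v) C) (u₀ v) (z v) (z v) = 0)
    (h2 : ∀ v, Bf (mC (s v) C) (u₀ v) (x₀ v) (z v) ≠ 0)
    {T : ∀ i, Finset (Pa α (Fin (n i + 1)) → K)}
    (hT : ∀ i, Submodule.span K {e : Fin (n i + 1) → K | ∃ π ∈ T i, e = fun l => π (Sum.inl l)} =
      ⊤)
    (hM : ∀ i, ∀ π ∈ T i, MvG s C (hat i fun l => π (Sum.inl l)) x₀ u₀) : IntG s C x₀ u₀ := by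
  classical
  refine hV K V L s hden α (Vr n) C hC x₀ z u₀ h0 h1 h2 _
    (span_hat (fun i => {e | ∃ π ∈ T i, e = fun l => π (Sum.inl l)}) hT) ?_
  rintro _ ⟨i, _, ⟨π, hπ, rfl⟩, rfl⟩
  exact hM i π hπ

omit [CharZero K] in
lemma T_ne {T : ∀ i, Finset (Pa α (Fin (n i + 1)) → K)}
    (hT : ∀ i, Submodule.span K {e : Fin (n i + 1) → K | ∃ π ∈ T i, e = fun l => π (Sum.inl l)} =
      ⊤) (i₀ : Fin r) : (T i₀).Nonempty := by
  by_contra hne
  rw [Finset.not_nonempty_iff_eq_empty] at hne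
  have h3 := hT i₀
  rw [hne] at h3
  have h4 : {e : Fin (n i₀ + 1) → K | ∃ π ∈ (∅ : Finset (Pa α (Fin (n i₀ + 1)) → K)),
      e = fun l => π (Sum.inl l)} = ∅ := by
    ext e
    simp
  rw [h4, Submodule.span_empty] at h3
  have h5 : (fun _ => 1 : Fin (n i₀ + 1) → K) ∈ (⊥ : Submodule K (Fin (n i₀ + 1) → K)) := by
    rw [h3]; trivial
  rw [Submodule.mem_bot] at h5
  exact one_ne_zero (congrFun h5 0)

/-- the conditions, depending on the degree -/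
def Cn {F : Type} [Field F] {r : ℕ} {n : Fin r → ℕ} (d : Fin r → ℕ) (i : Fin r) {α : Type}
    [Fintype α] (C : α → α → MvPolynomial (Vr n) F) (x : α → F) (u : Vr n → F)
    (π : Pa α (Fin (n i + 1)) → F) : Prop :=
  (d i = 3 ∧ CndP i C x u π) ∨ (d i ≤ 2 ∧ CndP2 i C x u π)

end gen

section all

variable {K : Type} [Field K] [CharZero K] {r : ℕ} {n : Fin r → ℕ} {α : Type} [Fintype α]
  {ι : Type} [Finite ι] {p : ι → ℕ} [hp : ∀ i, Fact (p i).Prime]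

/-- a family of points of both kinds -/
lemma Cn.cases {V : Type} {L : V → Type} [∀ v, Field (L v)] {s : ∀ v, K →+* L v}
    {d : Fin r → ℕ} {i : Fin r} {C : ∀ v, α → α → MvPolynomial (Vr n) (L v)} {x : ∀ v, α → L v}
    {u : ∀ v, Vr n → L v} {π : ∀ v, Pa α (Fin (n i + 1)) → L v}
    (h : ∀ v, Cn d i (C v) (x v) (u v) (π v)) :
    (d i = 3 ∧ ∀ v, CndP i (C v) (x v) (u v) (π v)) ∨
    (d i ≤ 2 ∧ ∀ v, CndP2 i (C v) (x v) (u v) (π v)) ∨ IsEmpty V := by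
  by_cases hV : IsEmpty V
  · exact Or.inr (Or.inr hV)
  rw [not_isEmpty_iff] at hV
  obtain ⟨v₀⟩ := hV
  rcases h v₀ with ⟨h1, -⟩ | ⟨h1, -⟩
  · refine Or.inl ⟨h1, fun v => ?_⟩
    rcases h v with ⟨-, h2⟩ | ⟨h2, -⟩
    · exact h2
    · omega
  · refine Or.inr (Or.inl ⟨h1, fun v => ?_⟩)
    rcases h v with ⟨h2, -⟩ | ⟨-, h2⟩
    · omega
    · exact h2

/-- **p-adic places** -/
theorem gen2_p (hQ : S_QGC) (hO : S_CON) (hN : S_NEA9) (hP : S_PLN) (hV : S_CVG) (hD : S_DG2)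
    [Nonempty ι] (hinj : Function.Injective p) (σ : ∀ i, K →+* ℚ_[p i]) (hr : 0 < r)
    {C : α → α → MvPolynomial (Vr n) K} (hC : ∀ i j, C i j = C j i) {d : Fin r → ℕ}
    (hH : ∀ a b, MH d (C a b)) {T : ∀ i, Finset (Pa α (Fin (n i + 1)) → K)}
    (hT : ∀ i, Submodule.span K {e : Fin (n i + 1) → K | ∃ π ∈ T i, e = fun l => π (Sum.inl l)} =
      ⊤) {x₀ : ∀ v, α → ℚ_[p v]} {u₀ : ∀ v, Vr n → ℚ_[p v]}
    (h0 : ∀ v, Bf (mC (σ v) C) (u₀ v) (x₀ v) (x₀ v) = 0)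
    (hc : ∀ v, ∀ i, ∀ π ∈ T i, Cn d i (mC (σ v) C) (x₀ v) (u₀ v) fun l => σ v (π l)) :
    IntG σ C x₀ u₀ := by
  have hden : Dns σ := dn_p hinj σ
  -- the points
  have h1 : ∀ i, ∀ π ∈ T i, ∃ z₁ z₂ : ∀ v, α → ℚ_[p v],
      (∀ v, Two0 (mC (σ v) C) (u₀ v) (hat i fun l => σ v (π (Sum.inl l)))
        (hat i fun l => σ v (π (Sum.inr (Sum.inl l)))) (x₀ v) (z₁ v) (z₂ v)) ∧
      d i ≤ 3 ∧
      MvP σ C (hat i fun l => π (Sum.inl l)) (hat i fun l => π (Sum.inr (Sum.inl l))) z₁ u₀ ∧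
      MvP σ C (hat i fun l => π (Sum.inl l)) (hat i fun l => π (Sum.inr (Sum.inl l))) z₂ u₀ := by
    intro i π hπ
    rcases Cn.cases (s := σ) (fun v => hc v i π hπ) with ⟨hd, h⟩ | ⟨hd, h⟩ | h
    · choose z₁ z₂ g1 g2 g3 using fun v => two_io hN (mC_symm _ hC) (h0 v) (h v)
      refine ⟨z₁, z₂, fun v => (g1 v).two0, hd.le, ?_, ?_⟩
      · exact mvP_cub hQ hD hH hd.le (ε := fun l => π (Sum.inl l))
          (ε' := fun l => π (Sum.inr (Sum.inl l))) (fun v => (g1 v).c₁) (fun v => (g1 v).p₁)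
          (hw_p hinj σ _ (fun v => (g1 v).p₁) fun v => (g2 v).2)
      · exact mvP_cub hQ hD hH hd.le (ε := fun l => π (Sum.inl l))
          (ε' := fun l => π (Sum.inr (Sum.inl l))) (fun v => (g1 v).c₂) (fun v => (g1 v).p₂)
          (hw_p hinj σ _ (fun v => (g1 v).p₂) fun v => (g3 v).2)
    · refine ⟨_, _, fun v => (h v).two0 (mC_symm _ hC) (h0 v), hd.trans (by norm_num), ?_, ?_⟩
      · exact mvP_con' hO hden hD hH hd (ε := fun l => π (Sum.inl l))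
          (ε' := fun l => π (Sum.inr (Sum.inl l))) fun v =>
          ((h v).two0 (mC_symm _ hC) (h0 v)).c₁
      · exact mvP_con' hO hden hD hH hd (ε := fun l => π (Sum.inl l))
          (ε' := fun l => π (Sum.inr (Sum.inl l))) fun v =>
          ((h v).two0 (mC_symm _ hC) (h0 v)).c₂
    · exact absurd (inferInstance : Nonempty ι) (not_nonempty_iff.2 h)
  obtain ⟨π₀, hπ₀⟩ := T_ne hT (⟨0, hr⟩ : Fin r)
  obtain ⟨z, z', hz, -⟩ := h1 _ π₀ hπ₀
  refine intG_of2 hV hden hC h0 (fun v => (hz v).on₁) (fun v => (hz v).b₁) hT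
    fun i π hπ => ?_
  obtain ⟨z₁, z₂, h6, h7, h8, h9⟩ := h1 i π hπ
  exact mvG_two hP hD hden hC hH h7 (ε' := fun l => π (Sum.inr (Sum.inl l))) h0 h6 h8 h9

/-- **the real place and p-adic places** -/
theorem gen2_r (hQ : S_QGC) (hO : S_CON) (hN : S_NEA9) (hP : S_PLN) (hV : S_CVG) (hD : S_DG2)
    [Nonempty ι] (hinj : Function.Injective p) (σ : ∀ i, K →+* ℚ_[p i]) (τ : K →+* ℝ)
    (hr : 0 < r) {C : α → α → MvPolynomial (Vr n) K} (hC : ∀ i j, C i j = C j i)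
    {d : Fin r → ℕ} (hH : ∀ a b, MH d (C a b)) {T : ∀ i, Finset (Pa α (Fin (n i + 1)) → K)}
    (hT : ∀ i, Submodule.span K {e : Fin (n i + 1) → K | ∃ π ∈ T i, e = fun l => π (Sum.inl l)} =
      ⊤) {x₀ : ∀ v, α → Lv p v} {u₀ : ∀ v, Vr n → Lv p v}
    (h0 : ∀ v, Bf (mC (sv σ τ v) C) (u₀ v) (x₀ v) (x₀ v) = 0)
    (hc : ∀ v, ∀ i, ∀ π ∈ T i, Cn d i (mC (sv σ τ v) C) (x₀ v) (u₀ v) fun l => sv σ τ v (π l)) :
    IntG (sv σ τ) C x₀ u₀ := by
  have hden : Dns (sv σ τ) := dn_all hinj σ τ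
  -- the points
  have h1 : ∀ i, ∀ π ∈ T i, ∃ z₁ z₂ : ∀ v : Option ι, α → Lv p v,
      (∀ v, Two0 (mC (sv σ τ v) C) (u₀ v) (hat i fun l => sv σ τ v (π (Sum.inl l)))
        (hat i fun l => sv σ τ v (π (Sum.inr (Sum.inl l)))) (x₀ v) (z₁ v) (z₂ v)) ∧
      d i ≤ 3 ∧
      MvP (sv σ τ) C (hat i fun l => π (Sum.inl l)) (hat i fun l => π (Sum.inr (Sum.inl l)))
        z₁ u₀ ∧
      MvP (sv σ τ) C (hat i fun l => π (Sum.inl l)) (hat i fun l => π (Sum.inr (Sum.inl l)))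
        z₂ u₀ := by
    intro i π hπ
    rcases Cn.cases (s := sv σ τ) (fun v => hc v i π hπ) with ⟨hd, h⟩ | ⟨hd, h⟩ | h
    · have h2 : ∀ v : Option ι, ∃ z₁ z₂ : α → Lv p v,
          Two (mC (sv σ τ v) C) (u₀ v) (hat i fun l => sv σ τ v (π (Sum.inl l)))
            (hat i fun l => sv σ τ v (π (Sum.inr (Sum.inl l)))) (x₀ v) z₁ z₂ ∧
          ds9 (c9 (mC (sv σ τ v) C) (u₀ v) (hat i fun l => sv σ τ v (π (Sum.inl l)))
            (hat i fun l => sv σ τ v (π (Sum.inr (Sum.inl l)))) z₁) ≠ 0 ∧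
          ds9 (c9 (mC (sv σ τ v) C) (u₀ v) (hat i fun l => sv σ τ v (π (Sum.inl l)))
            (hat i fun l => sv σ τ v (π (Sum.inr (Sum.inl l)))) z₂) ≠ 0 ∧
          (v ≠ none → IO9 (c9 (mC (sv σ τ v) C) (u₀ v) (hat i fun l => sv σ τ v (π (Sum.inl l)))
            (hat i fun l => sv σ τ v (π (Sum.inr (Sum.inl l)))) z₁) ∧
          IO9 (c9 (mC (sv σ τ v) C) (u₀ v) (hat i fun l => sv σ τ v (π (Sum.inl l)))
            (hat i fun l => sv σ τ v (π (Sum.inr (Sum.inl l)))) z₂)) := by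
        intro v
        by_cases hv : v = none
        · obtain ⟨z₁, z₂, g1, g2, g3⟩ := two_pt (mC_symm _ hC) (h0 v) (h v)
          exact ⟨z₁, z₂, g1, g2, g3, fun h => absurd hv h⟩
        · obtain ⟨z₁, z₂, g1, g2, g3⟩ := two_io hN (mC_symm _ hC) (h0 v) (h v)
          refine ⟨z₁, z₂, g1, ?_, ?_, fun _ => ⟨g2, g3⟩⟩
          · rw [ds9_eq]
            exact g2.2.1
          · rw [ds9_eq]
            exact g3.2.1
      choose z₁ z₂ g1 g2 g3 g4 using h2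
      refine ⟨z₁, z₂, fun v => (g1 v).two0, hd.le, ?_, ?_⟩
      · exact mvP_cub hQ hD hH hd.le (ε := fun l => π (Sum.inl l))
          (ε' := fun l => π (Sum.inr (Sum.inl l))) (fun v => (g1 v).c₁) (fun v => (g1 v).p₁)
          (hw_r hinj σ τ (fun v => (g1 v).p₁) (g2 none) fun v => (g4 (some v) (by simp)).1.2)
      · exact mvP_cub hQ hD hH hd.le (ε := fun l => π (Sum.inl l))
          (ε' := fun l => π (Sum.inr (Sum.inl l))) (fun v => (g1 v).c₂) (fun v => (g1 v).p₂)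
          (hw_r hinj σ τ (fun v => (g1 v).p₂) (g3 none) fun v => (g4 (some v) (by simp)).2.2)
    · refine ⟨_, _, fun v => (h v).two0 (mC_symm _ hC) (h0 v), hd.trans (by norm_num), ?_, ?_⟩
      · exact mvP_con' hO hden hD hH hd (ε := fun l => π (Sum.inl l))
          (ε' := fun l => π (Sum.inr (Sum.inl l))) fun v =>
          ((h v).two0 (mC_symm _ hC) (h0 v)).c₁
      · exact mvP_con' hO hden hD hH hd (ε := fun l => π (Sum.inl l))
          (ε' := fun l => π (Sum.inr (Sum.inl l))) fun v =>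
          ((h v).two0 (mC_symm _ hC) (h0 v)).c₂
    · exact absurd (inferInstance : Nonempty (Option ι)) (not_nonempty_iff.2 h)
  obtain ⟨π₀, hπ₀⟩ := T_ne hT (⟨0, hr⟩ : Fin r)
  obtain ⟨z, z', hz, -⟩ := h1 _ π₀ hπ₀
  refine intG_of2 hV hden hC h0 (fun v => (hz v).on₁) (fun v => (hz v).b₁) hT
    fun i π hπ => ?_
  obtain ⟨z₁, z₂, h6, h7, h8, h9⟩ := h1 i π hπ
  exact mvG_two hP hD hden hC hH h7 (ε' := fun l => π (Sum.inr (Sum.inl l))) h0 h6 h8 h9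

end all

section div

variable {K : Type} [Field K] {α : Type} [Fintype α]

/-- **The divisor.** -/
theorem exists_NG2 (h1 : S_NPL) (h1' : S_NP2) (h2 : S_SPN) [CharZero K] {r : ℕ}
    {n : Fin r → ℕ} {C : α → α → MvPolynomial (Vr n) K} (hC : ∀ i j, C i j = C j i)
    (hirr : Irreducible (Fq C)) (d : Fin r → ℕ)
    (hG : ∀ i, (d i = 3 ∧ ∃ (u : Vr n → AlgebraicClosure K)
      (ε ε' : Fin (n i + 1) → AlgebraicClosure K) (z₀ z₁ w : α → AlgebraicClosure K),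
      Geo (mC (algebraMap K (AlgebraicClosure K)) C) u (hat i ε) (hat i ε') z₀ z₁ w) ∨
      (d i ≤ 2 ∧ ∃ (u : Vr n → AlgebraicClosure K)
      (ε ε' : Fin (n i + 1) → AlgebraicClosure K) (z₀ z₁ w : α → AlgebraicClosure K),
      Geo2 (mC (algebraMap K (AlgebraicClosure K)) C) u (hat i ε) (hat i ε') z₀ z₁ w)) :
    ∃ T : ∀ i, Finset (Pa α (Fin (n i + 1)) → K),
      (∀ i, Submodule.span K {e : Fin (n i + 1) → K | ∃ π ∈ T i, e = fun l => π (Sum.inl l)} = ⊤) ∧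
      ∃ N : MvPolynomial (α ⊕ Vr n) K, ¬ Fq C ∣ N ∧ ∀ (F : Type) [Field F] [CharZero F]
        (φ : K →+* F) (x : α → F) (u : Vr n → F),
        MvPolynomial.eval₂ φ (Sum.elim x u) N ≠ 0 → ∀ i, ∀ π ∈ T i,
          Cn d i (mC φ C) x u fun l => φ (π l) := by
  classical
  have h3 : ∀ i, ∃ G : MvPolynomial ((α ⊕ Vr n) ⊕ Pa α (Fin (n i + 1))) K,
      ∃ P : α ⊕ Vr n → AlgebraicClosure K,
      MvPolynomial.eval₂ (algebraMap K (AlgebraicClosure K)) P (Fq C) = 0 ∧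
      (∃ π : Pa α (Fin (n i + 1)) → AlgebraicClosure K,
        MvPolynomial.eval₂ (algebraMap K (AlgebraicClosure K)) (Sum.elim P π) G ≠ 0) ∧
      ∀ (F : Type) [Field F] [CharZero F] (φ : K →+* F) (x : α → F) (u : Vr n → F)
        (π : Pa α (Fin (n i + 1)) → F),
        MvPolynomial.eval₂ φ (Sum.elim (Sum.elim x u) π) G ≠ 0 → Cn d i (mC φ C) x u π := by
    intro i
    rcases hG i with ⟨hd, u, ε, ε', z₀, z₁, w, hgeo⟩ | ⟨hd, u, ε, ε', z₀, z₁, w, hgeo⟩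
    · obtain ⟨G, g1, g2⟩ := h1 K r n i α C hC (AlgebraicClosure K)
        (algebraMap K (AlgebraicClosure K)) u ε ε' z₀ z₁ w hgeo
      refine ⟨G, Sum.elim z₀ u, by rw [Fq_eval]; exact hgeo.1, g1, ?_⟩
      intro F _ _ φ x v π h
      exact Or.inl ⟨hd, g2 F φ x v π h⟩
    · obtain ⟨G, g1, g2⟩ := h1' K r n i α C hC (AlgebraicClosure K)
        (algebraMap K (AlgebraicClosure K)) u ε ε' z₀ z₁ w hgeo
      refine ⟨G, Sum.elim z₀ u, by rw [Fq_eval]; exact hgeo.1, g1, ?_⟩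
      intro F _ _ φ x v π h
      exact Or.inr ⟨hd, g2 F φ x v π h⟩
  choose G P hP hG1 hG2 using h3
  have h4 := fun i => h2 K (α ⊕ Vr n) (Fin (n i + 1)) (Fin (n i + 1) ⊕ ((α ⊕ α) ⊕ (α ⊕ α))) (G i)
    (AlgebraicClosure K) (algebraMap K (AlgebraicClosure K)) (P i) (hG1 i)
  choose T hT1 hT2 using h4
  refine ⟨T, hT1, ∏ i, ∏ π ∈ T i, insP (G i) π, ?_, ?_⟩
  · intro hdvd
    obtain ⟨i, -, hi⟩ := (hirr.prime.dvd_finsetProd_iff _).1 hdvd
    obtain ⟨π, hπ, hd⟩ := (hirr.prime.dvd_finsetProd_iff _).1 hi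
    apply hT2 i π hπ
    obtain ⟨Q, hQ⟩ := hd
    rw [← insP_eval, hQ, MvPolynomial.eval₂_mul, hP i, zero_mul]
  · intro F _ _ φ x v hN i π hπ
    refine hG2 i F φ x v _ ?_
    rw [← insP_eval]
    intro h0
    apply hN
    rw [← MvPolynomial.coe_eval₂Hom, map_prod]
    refine Finset.prod_eq_zero (Finset.mem_univ i) ?_
    rw [map_prod]
    exact Finset.prod_eq_zero hπ h0

end div

end Pool.Agent.K6.H43.GH
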