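import Pool.Agent.K6.H43.GH.Alg

/-!
# Map lemmas, bilinearity and continuity (helper43)
-/

set_option autoImplicit false
set_option linter.unusedVariables false
set_option linter.unusedSectionVars false

open Filter Topology

namespace Pool.Agent.K6.H43.GH

section map

variable {R S : Type*} [CommRing R] [CommRing S] (φ : R →+* S) {α β : Type*} [Fintype α]

lemma eval_map' (g : MvPolynomial β R) (u : β → R) :
    MvPolynomial.eval (fun b => φ (u b)) (MvPolynomial.map φ g) = φ (MvPolynomial.eval u g) := by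
  have h := MvPolynomial.eval₂_comp_left φ (RingHom.id R) u g
  rw [RingHom.comp_id] at h
  rw [MvPolynomial.eval_map]
  exact h.symm

lemma Bf_map (C : α → α → MvPolynomial β R) (u : β → R) (x y : α → R) :
    φ (Bf C u x y) = Bf (mC φ C) (fun b => φ (u b)) (fun a => φ (x a)) (fun a => φ (y a)) := by
  unfold Bf mC
  rw [map_sum]
  refine Finset.sum_congr rfl fun i _ => ?_
  rw [map_sum]
  refine Finset.sum_congr rfl fun j _ => ?_
  rw [map_mul, map_mul, eval_map']

lemma pl_map (g : MvPolynomial β R) (u e e' : β → R) :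
    (pl g u e e').map (Polynomial.mapRingHom φ) =
      pl (MvPolynomial.map φ g) (fun b => φ (u b)) (fun b => φ (e b)) (fun b => φ (e' b)) := by
  induction g using MvPolynomial.induction_on with
  | C a =>
    simp only [pl, MvPolynomial.aeval_C, MvPolynomial.map_C, Polynomial.algebraMap_apply]
    simp
  | add p q hp hq => simp only [pl, map_add, Polynomial.map_add] at *; rw [hp, hq]
  | mul_X p b hp =>
    simp only [pl, map_mul, Polynomial.map_mul, MvPolynomial.aeval_X, MvPolynomial.map_X] at *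
    rw [hp]
    simp

lemma pl_coeff_map (g : MvPolynomial β R) (u e e' : β → R) (k l : ℕ) :
    φ (((pl g u e e').coeff l).coeff k) = ((pl (MvPolynomial.map φ g) (fun b => φ (u b))
      (fun b => φ (e b)) (fun b => φ (e' b))).coeff l).coeff k := by
  rw [← pl_map, Polynomial.coeff_map, Polynomial.coe_mapRingHom, Polynomial.coeff_map]

lemma cf_map (C : α → α → MvPolynomial β R) (u e e' : β → R) (x : α → R) (k l : ℕ) :
    φ (cf C u e e' x k l) = cf (mC φ C) (fun b => φ (u b)) (fun b => φ (e b)) (fun b => φ (e' b))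
      (fun a => φ (x a)) k l := by
  unfold cf mC
  rw [map_sum]
  refine Finset.sum_congr rfl fun i _ => ?_
  rw [map_sum]
  refine Finset.sum_congr rfl fun j _ => ?_
  rw [map_mul, map_mul, pl_coeff_map]

lemma c9_map (C : α → α → MvPolynomial β R) (u e e' : β → R) (x : α → R) (m : Fin 9) :
    φ (c9 C u e e' x m) = c9 (mC φ C) (fun b => φ (u b)) (fun b => φ (e b)) (fun b => φ (e' b))
      (fun a => φ (x a)) m := cf_map φ C u e e' x _ _

lemma cub_map (c : Fin 9 → R) (s r : R) : φ (cub c s r) = cub (fun m => φ (c m)) (φ s) (φ r) := by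
  simp only [cub, map_add, map_mul, map_pow]

lemma Ph_map (c : Fin 9 → R) : φ (Ph c) = Ph (fun m => φ (c m)) := by
  simp only [Ph, map_add, map_sub, map_mul, map_pow]

lemma q9_map (c : Fin 9 → R) (j : Fin 4) : φ (q9 c j) = q9 (fun m => φ (c m)) j := by
  fin_cases j
  · change φ (2 * Ph c * (c 3 * c 1 - 2 * c 4 * c 0) - 4 * c 1 * (c 5 * c 1 ^ 3 -
      c 6 * c 1 ^ 2 * c 0 + c 7 * c 1 * c 0 ^ 2 - c 8 * c 0 ^ 3)) =
      2 * Ph (fun m => φ (c m)) * (φ (c 3) * φ (c 1) - 2 * φ (c 4) * φ (c 0)) -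
      4 * φ (c 1) * (φ (c 5) * φ (c 1) ^ 3 - φ (c 6) * φ (c 1) ^ 2 * φ (c 0) +
        φ (c 7) * φ (c 1) * φ (c 0) ^ 2 - φ (c 8) * φ (c 0) ^ 3)
    simp only [← Ph_map, map_add, map_sub, map_mul, map_pow, map_ofNat]
  · change φ ((c 3 * c 1 - 2 * c 4 * c 0) ^ 2 + 2 * Ph c * c 4 -
      4 * c 1 * (c 6 * c 1 ^ 2 - 2 * c 7 * c 1 * c 0 + 3 * c 8 * c 0 ^ 2)) =
      (φ (c 3) * φ (c 1) - 2 * φ (c 4) * φ (c 0)) ^ 2 + 2 * Ph (fun m => φ (c m)) * φ (c 4) -
      4 * φ (c 1) * (φ (c 6) * φ (c 1) ^ 2 - 2 * φ (c 7) * φ (c 1) * φ (c 0) +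
        3 * φ (c 8) * φ (c 0) ^ 2)
    simp only [← Ph_map, map_add, map_sub, map_mul, map_pow, map_ofNat]
  · change φ (2 * (c 3 * c 1 - 2 * c 4 * c 0) * c 4 - 4 * c 1 * (c 7 * c 1 - 3 * c 8 * c 0)) =
      2 * (φ (c 3) * φ (c 1) - 2 * φ (c 4) * φ (c 0)) * φ (c 4) -
      4 * φ (c 1) * (φ (c 7) * φ (c 1) - 3 * φ (c 8) * φ (c 0))
    simp only [map_add, map_sub, map_mul, map_pow, map_ofNat]
  · change φ (c 4 ^ 2 - 4 * c 1 * c 8) = φ (c 4) ^ 2 - 4 * φ (c 1) * φ (c 8)
    simp only [map_add, map_sub, map_mul, map_pow, map_ofNat]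

lemma dq4_map (w : R) (q : Fin 4 → R) : φ (dq4 w q) = dq4 (φ w) (fun j => φ (q j)) := by
  simp only [dq4, dc3, map_add, map_sub, map_mul, map_pow, map_ofNat]

lemma ds9_map (c : Fin 9 → R) : φ (ds9 c) = ds9 (fun m => φ (c m)) := by
  simp only [ds9, dq4_map, Ph_map, q9_map]

lemma Rp_map (C : α → α → MvPolynomial β R) (u : β → R) (x m : α → R) (a : α) :
    φ (Rp C u x m a) = Rp (mC φ C) (fun b => φ (u b)) (fun a => φ (x a)) (fun a => φ (m a)) a := by
  simp only [Rp, map_sub, map_mul, map_ofNat, Bf_map]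

lemma mC_mC {T : Type*} [CommRing T] (ψ : S →+* T) (C : α → α → MvPolynomial β R) :
    mC ψ (mC φ C) = mC (ψ.comp φ) C := by
  funext i j
  simp only [mC, MvPolynomial.map_map]

lemma mC_id (C : α → α → MvPolynomial β R) : mC (RingHom.id R) C = C := by
  funext i j
  simp only [mC, MvPolynomial.map_id]

lemma c9t_map (C : α → α → MvPolynomial β R) (u e e' : β → R) (x a b : α → R) (m : Fin 9) :
    (c9t C u e e' x a b m).map φ = c9t (mC φ C) (fun b => φ (u b)) (fun b => φ (e b))
      (fun b => φ (e' b)) (fun c => φ (x c)) (fun c => φ (a c)) (fun c => φ (b c)) m := by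
  unfold c9t
  rw [← Polynomial.coe_mapRingHom, c9_map, mC_mC, mC_mC]
  have h0 : (Polynomial.mapRingHom φ).comp Polynomial.C = Polynomial.C.comp φ := by
    ext a
    simp
  simp only [Rp_map, mC_mC, h0, Polynomial.coe_mapRingHom, Polynomial.map_C, Polynomial.map_add,
    Polynomial.map_mul, Polynomial.map_X]

lemma c9t_eval (C : α → α → MvPolynomial β R) (u e e' : β → R) (x a b : α → R) (m : Fin 9)
    (t : R) : (c9t C u e e' x a b m).eval t =
      c9 C u e e' (Rp C u x (fun c => a c + b c * t)) m := by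
  unfold c9t
  rw [← Polynomial.coe_evalRingHom, c9_map, mC_mC]
  have h0 : (Polynomial.evalRingHom t).comp Polynomial.C = RingHom.id R := by
    ext a
    simp
  simp only [Rp_map, mC_mC, h0, mC_id, Polynomial.coe_evalRingHom, Polynomial.eval_C,
    Polynomial.eval_add, Polynomial.eval_mul, Polynomial.eval_X]

end map

section bil

variable {R : Type*} [CommRing R] {α β : Type*} [Fintype α]

lemma Bf_symm {C : α → α → MvPolynomial β R} (hC : ∀ i j, C i j = C j i) (u : β → R)
    (x y : α → R) : Bf C u x y = Bf C u y x := by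
  unfold Bf
  rw [Finset.sum_comm]
  refine Finset.sum_congr rfl fun i _ => Finset.sum_congr rfl fun j _ => ?_
  rw [hC j i]
  ring

lemma Bf_left (C : α → α → MvPolynomial β R) (u : β → R) (x x' y : α → R) (p q : R) :
    Bf C u (fun a => p * x a + q * x' a) y = p * Bf C u x y + q * Bf C u x' y := by
  unfold Bf
  rw [Finset.mul_sum, Finset.mul_sum, ← Finset.sum_add_distrib]
  refine Finset.sum_congr rfl fun i _ => ?_
  rw [Finset.mul_sum, Finset.mul_sum, ← Finset.sum_add_distrib]
  refine Finset.sum_congr rfl fun j _ => ?_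
  ring

lemma Bf_right (C : α → α → MvPolynomial β R) (u : β → R) (x y y' : α → R) (p q : R) :
    Bf C u x (fun a => p * y a + q * y' a) = p * Bf C u x y + q * Bf C u x y' := by
  unfold Bf
  rw [Finset.mul_sum, Finset.mul_sum, ← Finset.sum_add_distrib]
  refine Finset.sum_congr rfl fun i _ => ?_
  rw [Finset.mul_sum, Finset.mul_sum, ← Finset.sum_add_distrib]
  refine Finset.sum_congr rfl fun j _ => ?_
  ring

/-- the form on a line -/
lemma Bf_line {C : α → α → MvPolynomial β R} (hC : ∀ i j, C i j = C j i) (u : β → R)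
    (x y : α → R) (t : R) : Bf C u (fun a => x a + t * y a) (fun a => x a + t * y a) =
      Bf C u x x + 2 * Bf C u x y * t + Bf C u y y * t ^ 2 := by
  have e : (fun a => x a + t * y a) = fun a => 1 * x a + t * y a := by
    funext a; ring
  rw [e, Bf_left, Bf_right, Bf_right, Bf_symm hC u y x]
  ring

lemma Rp_eq (C : α → α → MvPolynomial β R) (u : β → R) (x m : α → R) :
    Rp C u x m = fun a => Bf C u m m * x a + (-(2 * Bf C u x m)) * m a := by
  funext a
  unfold Rp
  ring

/-- `Rp` is on the quadric -/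
lemma Rp_on {C : α → α → MvPolynomial β R} (hC : ∀ i j, C i j = C j i) {u : β → R}
    {x : α → R} (hx : Bf C u x x = 0) (m : α → R) : Bf C u (Rp C u x m) (Rp C u x m) = 0 := by
  rw [Rp_eq, Bf_left, Bf_right, Bf_right, hx, Bf_symm hC u m x]
  ring

lemma mC_symm {S : Type*} [CommRing S] (φ : R →+* S) {C : α → α → MvPolynomial β R}
    (hC : ∀ i j, C i j = C j i) (i j : α) : mC φ C i j = mC φ C j i := by
  simp only [mC, hC i j]

/-- `c9` is quadratic in the vector -/
lemma c9_smul (C : α → α → MvPolynomial β R) (u e e' : β → R) (x : α → R) (k : R) (m : Fin 9) :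
    c9 C u e e' (fun a => k * x a) m = k ^ 2 * c9 C u e e' x m := by
  unfold c9 cf
  rw [Finset.mul_sum]
  refine Finset.sum_congr rfl fun i _ => ?_
  rw [Finset.mul_sum]
  refine Finset.sum_congr rfl fun j _ => ?_
  ring

lemma Ph_smul (c : Fin 9 → R) (k : R) : Ph (fun m => k * c m) = k ^ 3 * Ph c := by
  unfold Ph; ring

lemma ds9_smul (c : Fin 9 → R) (k : R) : ds9 (fun m => k * c m) = k ^ 24 * ds9 c := by
  have e0 : ∀ c : Fin 9 → R, q9 c 0 = 2 * Ph c * (c 3 * c 1 - 2 * c 4 * c 0) -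
      4 * c 1 * (c 5 * c 1 ^ 3 - c 6 * c 1 ^ 2 * c 0 + c 7 * c 1 * c 0 ^ 2 - c 8 * c 0 ^ 3) :=
    fun _ => rfl
  have e1 : ∀ c : Fin 9 → R, q9 c 1 = (c 3 * c 1 - 2 * c 4 * c 0) ^ 2 + 2 * Ph c * c 4 -
      4 * c 1 * (c 6 * c 1 ^ 2 - 2 * c 7 * c 1 * c 0 + 3 * c 8 * c 0 ^ 2) := fun _ => rfl
  have e2 : ∀ c : Fin 9 → R, q9 c 2 = 2 * (c 3 * c 1 - 2 * c 4 * c 0) * c 4 -
      4 * c 1 * (c 7 * c 1 - 3 * c 8 * c 0) := fun _ => rfl
  have e3 : ∀ c : Fin 9 → R, q9 c 3 = c 4 ^ 2 - 4 * c 1 * c 8 := fun _ => rfl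
  have k0 : q9 (fun m => k * c m) 0 = k ^ 5 * q9 c 0 := by
    rw [e0, e0, Ph_smul]; ring
  have k1 : q9 (fun m => k * c m) 1 = k ^ 4 * q9 c 1 := by
    rw [e1, e1, Ph_smul]; ring
  have k2 : q9 (fun m => k * c m) 2 = k ^ 3 * q9 c 2 := by
    rw [e2, e2]; ring
  have k3 : q9 (fun m => k * c m) 3 = k ^ 2 * q9 c 3 := by
    rw [e3, e3]; ring
  unfold ds9 dq4 dc3
  rw [k0, k1, k2, k3, Ph_smul]
  ring

end bil

section cont

variable {F : Type*} [NontriviallyNormedField F] {α β : Type*} [Fintype α]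

lemma Bf_cont (C : α → α → MvPolynomial β F) :
    Continuous fun p : (β → F) × (α → F) × (α → F) => Bf C p.1 p.2.1 p.2.2 := by
  unfold Bf
  refine continuous_finsetSum _ fun i _ => continuous_finsetSum _ fun j _ => ?_
  have h1 : Continuous fun p : (β → F) × (α → F) × (α → F) => MvPolynomial.eval p.1 (C i j) :=
    (MvPolynomial.continuous_eval (C i j)).comp continuous_fst
  fun_prop

/-- the coefficients of the plane section are polynomials in the base point -/
lemma pl_coeff_poly {R : Type*} [CommRing R] (g : MvPolynomial β R) (e e' : β → R) (k l : ℕ) :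
    ∃ G : MvPolynomial β R, ∀ u : β → R, ((pl g u e e').coeff l).coeff k =
      MvPolynomial.eval u G := by
  refine ⟨((pl (MvPolynomial.map MvPolynomial.C g) (fun b => MvPolynomial.X b)
    (fun b => MvPolynomial.C (e b)) (fun b => MvPolynomial.C (e' b))).coeff l).coeff k,
    fun u => ?_⟩
  rw [pl_coeff_map, MvPolynomial.map_map]
  have h0 : (MvPolynomial.eval u).comp MvPolynomial.C = RingHom.id R := by
    ext a
    simp
  rw [h0, MvPolynomial.map_id]
  simp

lemma pl_coeff_cont (g : MvPolynomial β F) (e e' : β → F) (k l : ℕ) :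
    Continuous fun u : β → F => ((pl g u e e').coeff l).coeff k := by
  obtain ⟨G, hG⟩ := pl_coeff_poly g e e' k l
  simp only [hG]
  exact MvPolynomial.continuous_eval G

lemma cf_cont (C : α → α → MvPolynomial β F) (e e' : β → F) (k l : ℕ) :
    Continuous fun p : (β → F) × (α → F) => cf C p.1 e e' p.2 k l := by
  unfold cf
  refine continuous_finsetSum _ fun i _ => continuous_finsetSum _ fun j _ => ?_
  have h1 : Continuous fun p : (β → F) × (α → F) => ((pl (C i j) p.1 e e').coeff l).coeff k :=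
    (pl_coeff_cont (C i j) e e' k l).comp continuous_fst
  fun_prop

lemma c9_cont (C : α → α → MvPolynomial β F) (e e' : β → F) (m : Fin 9) :
    Continuous fun p : (β → F) × (α → F) => c9 C p.1 e e' p.2 m := cf_cont C e e' _ _

lemma Rp_cont (C : α → α → MvPolynomial β F) (u : β → F) (x : α → F) :
    Continuous fun m : α → F => Rp C u x m := by
  refine continuous_pi fun a => ?_
  unfold Rp
  have h1 : Continuous fun m : α → F => Bf C u m m := by
    unfold Bf
    fun_prop
  have h2 : Continuous fun m : α → F => Bf C u x m := by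
    unfold Bf
    fun_prop
  exact (h1.mul continuous_const).sub ((continuous_const.mul h2).mul (continuous_apply a))

end cont

end Pool.Agent.K6.H43.GH
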