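import Pool.Agent.K6.H43.GH.Alg2

/-!
# CON: moves on plane conics through the origin (helper75 for helper43)
-/

set_option autoImplicit false

open Filter Topology

namespace Pool.Agent.K6.H43.GH

theorem con_min {V : Type} [Finite V] (f : V → ℝ) (hf : ∀ v, 0 < f v) :
    ∃ δ : ℝ, 0 < δ ∧ ∀ v, δ ≤ f v := by
  rcases isEmpty_or_nonempty V with h | h
  · exact ⟨1, one_pos, fun v => (h.false v).elim⟩
  · obtain ⟨v, hv⟩ := Finite.exists_min f
    exact ⟨f v, hf v, hv⟩

/-- the local estimate -/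
theorem con_loc {F : Type} [NontriviallyNormedField F] (c₀ : Fin 9 → F) (h : c₀ 1 ≠ 0) :
    ∃ δ : ℝ, 0 < δ ∧ ∀ c : Fin 9 → F, (∀ m, ‖c m - c₀ m‖ < δ) → c 1 ≠ 0 ∧
      ∀ S R : F, ‖S‖ < δ → ‖R‖ < δ → c 1 + c 4 * R ≠ 0 ∧
        c 1 + (c 3 + c 4 * (-c 0 / c 1)) * S + c 4 * R ≠ 0 := by
  have h1 : ContinuousAt (fun x : (Fin 9 → F) × F × F => x.1 1) (c₀, 0, 0) := by fun_prop
  have h2 : ContinuousAt (fun x : (Fin 9 → F) × F × F => x.1 1 + x.1 4 * x.2.2) (c₀, 0, 0) := by
    fun_prop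
  have h3 : ContinuousAt (fun x : (Fin 9 → F) × F × F =>
      x.1 1 + (x.1 3 + x.1 4 * (-x.1 0 / x.1 1)) * x.2.1 + x.1 4 * x.2.2) (c₀, 0, 0) := by
    have h4 : (fun x : (Fin 9 → F) × F × F => x.1 1) (c₀, 0, 0) ≠ 0 := h
    have h5 : ContinuousAt (fun x : (Fin 9 → F) × F × F => -x.1 0 / x.1 1) (c₀, 0, 0) :=
      ContinuousAt.div (by fun_prop) h1 h4
    have h6 : ContinuousAt (fun x : (Fin 9 → F) × F × F => x.1 3) (c₀, 0, 0) := by fun_prop
    have h7 : ContinuousAt (fun x : (Fin 9 → F) × F × F => x.1 4) (c₀, 0, 0) := by fun_prop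
    have h8 : ContinuousAt (fun x : (Fin 9 → F) × F × F => x.2.1) (c₀, 0, 0) := by fun_prop
    have h9 : ContinuousAt (fun x : (Fin 9 → F) × F × F => x.2.2) (c₀, 0, 0) := by fun_prop
    exact (h1.add ((h6.add (h7.mul h5)).mul h8)).add (h7.mul h9)
  have e1 := h1.eventually_ne (y := 0) (by simpa using h)
  have e2 := h2.eventually_ne (y := 0) (by simpa using h)
  have e3 := h3.eventually_ne (y := 0) (by simpa using h)
  obtain ⟨δ, hδ, h4⟩ := Metric.eventually_nhds_iff.1 ((e1.and e2).and e3)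
  refine ⟨δ, hδ, fun c hc => ?_⟩
  have h5 : ∀ S R : F, ‖S‖ < δ → ‖R‖ < δ → dist (c, S, R) (c₀, (0 : F), (0 : F)) < δ := by
    intro S R hS hR
    rw [Prod.dist_eq, Prod.dist_eq, max_lt_iff, max_lt_iff, dist_pi_lt_iff hδ]
    refine ⟨fun m => by rw [dist_eq_norm]; exact hc m, ?_, ?_⟩
    · simpa using hS
    · simpa using hR
  refine ⟨(h4 (h5 0 0 (by simpa using hδ) (by simpa using hδ))).1.1, fun S R hS hR => ?_⟩
  have h6 := h4 (h5 S R hS hR)
  exact ⟨h6.1.2, h6.2⟩

/-- the continuity of the parametrisation -/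
theorem con_par {F : Type} [NontriviallyNormedField F] (a0 a1 a2 a3 a4 ρ : F)
    (h : a2 + a3 * ρ + a4 * ρ ^ 2 ≠ 0) (η : ℝ) (hη : 0 < η) :
    ∃ ε : ℝ, 0 < ε ∧ ∀ x : F, ‖x - ρ‖ < ε → a2 + a3 * x + a4 * x ^ 2 ≠ 0 ∧
      ‖-(a0 + a1 * x) / (a2 + a3 * x + a4 * x ^ 2) -
        -(a0 + a1 * ρ) / (a2 + a3 * ρ + a4 * ρ ^ 2)‖ < η ∧
      ‖x * (-(a0 + a1 * x) / (a2 + a3 * x + a4 * x ^ 2)) -
        ρ * (-(a0 + a1 * ρ) / (a2 + a3 * ρ + a4 * ρ ^ 2))‖ < η := by
  have h1 : ContinuousAt (fun x : F => a2 + a3 * x + a4 * x ^ 2) ρ := by fun_prop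
  have h2 : ContinuousAt (fun x : F => -(a0 + a1 * x) / (a2 + a3 * x + a4 * x ^ 2)) ρ :=
    ContinuousAt.div (by fun_prop) h1 h
  have h3 : ContinuousAt (fun x : F => x * (-(a0 + a1 * x) / (a2 + a3 * x + a4 * x ^ 2))) ρ :=
    continuousAt_id.mul h2
  have e1 := h1.eventually_ne (y := 0) h
  have e2 := (Metric.continuousAt_iff'.1 h2) η hη
  have e3 := (Metric.continuousAt_iff'.1 h3) η hη
  obtain ⟨ε, hε, h4⟩ := Metric.eventually_nhds_iff.1 ((e1.and e2).and e3)
  refine ⟨ε, hε, fun x hx => ?_⟩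
  have h5 := h4 (show dist x ρ < ε by rw [dist_eq_norm]; exact hx)
  refine ⟨h5.1.1, ?_, ?_⟩
  · have := h5.1.2
    rwa [dist_eq_norm] at this
  · have := h5.2
    rwa [dist_eq_norm] at this

theorem t_CON : S_CON := by
  intro K _ _ V _ L _ s hs c₀ hc₀
  choose d hd hd' using fun v => con_loc (c₀ v) (hc₀ v)
  obtain ⟨δ, hδ, hδd⟩ := con_min d hd
  refine ⟨δ, hδ, ?_⟩
  intro c h5 h6 h7 h8 hc S R hS hR hcub η hη
  rcases isEmpty_or_nonempty V with hV | ⟨⟨v₀⟩⟩
  · exact ⟨0, 0, by simp [cub], fun v => (hV.false v).elim⟩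
  have hloc := fun v => hd' v (fun m => s v (c m)) (fun m => (hc v m).trans_le (hδd v))
  have hloc2 := fun v => (hloc v).2 (S v) (R v) ((hS v).trans_le (hδd v)) ((hR v).trans_le (hδd v))
  have hc1 : c 1 ≠ 0 := by
    intro h
    exact (hloc v₀).1 (by simp [h])
  have hcub' : ∀ v, s v (c 0) * S v + s v (c 1) * R v + s v (c 2) * S v ^ 2 +
      s v (c 3) * S v * R v + s v (c 4) * R v ^ 2 = 0 := by
    intro v
    have := hcub v
    simp only [cub, h5, h6, h7, h8, map_zero, zero_mul, add_zero] at this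
    exact this
  have hK : ∀ x y : K, cub c x y = c 0 * x + c 1 * y + c 2 * x ^ 2 + c 3 * x * y + c 4 * y ^ 2 := by
    intro x y
    simp only [cub, h5, h6, h7, h8, zero_mul, add_zero]
  set ρ₀ : K := -c 0 / c 1 with hρ₀
  have hρ₀' : c 0 + c 1 * ρ₀ = 0 := by
    rw [hρ₀]; field_simp; ring
  by_cases hq : c 2 + c 3 * ρ₀ + c 4 * ρ₀ ^ 2 = 0
  · -- case A
    have hR' : ∀ v, R v = s v ρ₀ * S v := by
      intro v
      have h9 : (R v - s v ρ₀ * S v) *
          (s v (c 1) + (s v (c 3) + s v (c 4) * (-s v (c 0) / s v (c 1))) * S v +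
            s v (c 4) * R v) = 0 := by
        have e1 : -s v (c 0) / s v (c 1) = s v ρ₀ := by
          rw [hρ₀, map_div₀, map_neg]
        have e2 : s v (c 0) + s v (c 1) * s v ρ₀ = 0 := by
          rw [← map_mul, ← map_add, hρ₀', map_zero]
        have e3 : s v (c 2) + s v (c 3) * s v ρ₀ + s v (c 4) * s v ρ₀ ^ 2 = 0 := by
          rw [← map_mul, ← map_pow, ← map_mul, ← map_add, ← map_add, hq, map_zero]
        rw [e1]
        linear_combination hcub' v - S v * e2 - S v ^ 2 * e3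
      rcases mul_eq_zero.1 h9 with h10 | h10
      · exact sub_eq_zero.1 h10
      · exact absurd h10 (hloc2 v).2
    obtain ⟨ε, hε, hε'⟩ := con_min (fun v => η / (1 + ‖s v ρ₀‖)) (fun v => by positivity)
    obtain ⟨S', hS'⟩ := hs S ε hε
    have hb : ∀ v, ‖s v S' - S v‖ * (1 + ‖s v ρ₀‖) < η := by
      intro v
      have h11 : (0 : ℝ) < 1 + ‖s v ρ₀‖ := by positivity
      have := (hS' v).trans_le (hε' v)
      rwa [lt_div_iff₀ h11] at this
    refine ⟨S', ρ₀ * S', ?_, fun v => ⟨?_, ?_⟩⟩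
    · rw [hK]
      linear_combination S' * hρ₀' + S' ^ 2 * hq
    · have := hb v
      have h12 : 0 ≤ ‖s v S' - S v‖ * ‖s v ρ₀‖ := by positivity
      nlinarith
    · rw [hR' v, map_mul, ← mul_sub, norm_mul]
      have := hb v
      have h12 : 0 ≤ ‖s v S' - S v‖ := norm_nonneg _
      nlinarith
  · -- case B
    have hρ : ∀ v, ∃ ρ : L v, R v = ρ * S v ∧
        s v (c 0) + s v (c 1) * ρ + S v * (s v (c 2) + s v (c 3) * ρ + s v (c 4) * ρ ^ 2) = 0 := by
      intro v
      by_cases hSv : S v = 0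
      · refine ⟨s v ρ₀, ?_, ?_⟩
        · have h9 : R v * (s v (c 1) + s v (c 4) * R v) = 0 := by
            have := hcub' v
            rw [hSv] at this
            linear_combination this
          rcases mul_eq_zero.1 h9 with h10 | h10
          · rw [h10, hSv, mul_zero]
          · exact absurd h10 (hloc2 v).1
        · rw [hSv, zero_mul, add_zero, ← map_mul, ← map_add, hρ₀', map_zero]
      · refine ⟨R v / S v, by field_simp, ?_⟩
        have h9 : S v * (s v (c 0) + s v (c 1) * (R v / S v) + S v * (s v (c 2) +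
            s v (c 3) * (R v / S v) + s v (c 4) * (R v / S v) ^ 2)) = 0 := by
          have h10 : R v / S v * S v = R v := by field_simp
          set t := R v / S v with ht
          have h11 := hcub' v
          rw [← h10] at h11
          linear_combination h11
        exact (mul_eq_zero.1 h9).resolve_left hSv
    choose ρ hρR hρl using hρ
    have hqρ : ∀ v, s v (c 2) + s v (c 3) * ρ v + s v (c 4) * ρ v ^ 2 ≠ 0 := by
      intro v h9
      have h10 := hρl v
      rw [h9, mul_zero, add_zero] at h10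
      have h11 : s v (c 0) + s v (c 1) * s v ρ₀ = 0 := by
        rw [← map_mul, ← map_add, hρ₀', map_zero]
      have h12 : ρ v = s v ρ₀ := by
        have h13 : s v (c 1) * (ρ v - s v ρ₀) = 0 := by linear_combination h10 - h11
        rcases mul_eq_zero.1 h13 with h14 | h14
        · exact absurd h14 (hloc v).1
        · exact sub_eq_zero.1 h14
      rw [h12, ← map_mul, ← map_pow, ← map_mul, ← map_add, ← map_add] at h9
      exact hq ((map_eq_zero (s v)).1 h9)
    have hSρ : ∀ v, S v = -(s v (c 0) + s v (c 1) * ρ v) /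
        (s v (c 2) + s v (c 3) * ρ v + s v (c 4) * ρ v ^ 2) := by
      intro v
      rw [eq_div_iff (hqρ v)]
      linear_combination hρl v
    choose ε hε hε' using fun v => con_par (s v (c 0)) (s v (c 1)) (s v (c 2)) (s v (c 3))
      (s v (c 4)) (ρ v) (hqρ v) η hη
    obtain ⟨ε₁, hε₁, hε₁'⟩ := con_min ε hε
    obtain ⟨x, hx⟩ := hs ρ ε₁ hε₁
    have hx' := fun v => hε' v (s v x) ((hx v).trans_le (hε₁' v))
    have hqx : c 2 + c 3 * x + c 4 * x ^ 2 ≠ 0 := by
      intro h9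
      have := (hx' v₀).1
      rw [← map_mul, ← map_pow, ← map_mul, ← map_add, ← map_add, h9, map_zero] at this
      exact this rfl
    have e1 : ∀ v, s v (-(c 0 + c 1 * x) / (c 2 + c 3 * x + c 4 * x ^ 2)) =
        -(s v (c 0) + s v (c 1) * s v x) /
          (s v (c 2) + s v (c 3) * s v x + s v (c 4) * s v x ^ 2) := by
      intro v
      simp only [map_div₀, map_neg, map_add, map_mul, map_pow]
    refine ⟨-(c 0 + c 1 * x) / (c 2 + c 3 * x + c 4 * x ^ 2),
      x * (-(c 0 + c 1 * x) / (c 2 + c 3 * x + c 4 * x ^ 2)), ?_, fun v => ⟨?_, ?_⟩⟩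
    · rw [hK]
      field_simp
      ring
    · rw [e1, hSρ v]
      exact (hx' v).2.1
    · rw [map_mul, e1, hρR v, hSρ v]
      exact (hx' v).2.2

end Pool.Agent.K6.H43.GH
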