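import Pool.Agent.K6.H43.GH.Alg

/-!
# Moves in directions which span the space give openness (helper70, for helper43)
-/

set_option autoImplicit false
set_option linter.unusedVariables false
set_option linter.unusedSectionVars false

open Filter Topology

namespace Pool.Agent.K6.H43.GH

namespace CvgAux

section loc

variable {F : Type} [NontriviallyNormedField F] {α β : Type} [Fintype α] [Fintype β]

/-- continuity of the bilinear form -/
lemma bf_cont (C : α → α → MvPolynomial β F) :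
    Continuous fun p : (β → F) × (α → F) × (α → F) => Bf C p.1 p.2.1 p.2.2 := by
  unfold Bf
  refine continuous_finsetSum _ fun i _ => continuous_finsetSum _ fun j _ => ?_
  have h := (MvPolynomial.continuous_eval (C i j)).comp
    (continuous_fst : Continuous fun p : (β → F) × (α → F) × (α → F) => p.1)
  exact (h.mul ((continuous_apply i).comp (continuous_fst.comp continuous_snd))).mul
    ((continuous_apply j).comp (continuous_snd.comp continuous_snd))

/-- nonvanishing persists -/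
lemma ne_near (C : α → α → MvPolynomial β F) {u₀ : β → F} {x₀ y₀ : α → F}
    (h : Bf C u₀ x₀ y₀ ≠ 0) : ∃ δ : ℝ, 0 < δ ∧ ∀ (u : β → F) (x y : α → F),
      (∀ b, ‖u b - u₀ b‖ < δ) → (∀ a, ‖x a - x₀ a‖ < δ) → (∀ a, ‖y a - y₀ a‖ < δ) →
      Bf C u x y ≠ 0 := by
  have hc := (bf_cont C).continuousAt (x := (u₀, x₀, y₀))
  obtain ⟨δ, hδ, hb⟩ := Metric.eventually_nhds_iff_ball.1 (hc.eventually_ne h)
  refine ⟨δ, hδ, fun u x y h1 h2 h3 => hb (u, x, y) ?_⟩
  rw [Metric.mem_ball, Prod.dist_eq, Prod.dist_eq]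
  refine max_lt ?_ (max_lt ?_ ?_)
  · rw [dist_pi_lt_iff hδ]
    intro b
    rw [dist_eq_norm]
    exact h1 b
  · rw [dist_pi_lt_iff hδ]
    intro b
    rw [dist_eq_norm]
    exact h2 b
  · rw [dist_pi_lt_iff hδ]
    intro b
    rw [dist_eq_norm]
    exact h3 b

/-- continuity in `u` -/
lemma bf_near (C : α → α → MvPolynomial β F) (u₀ : β → F) (x y : α → F) {ε : ℝ} (hε : 0 < ε) :
    ∃ δ : ℝ, 0 < δ ∧ ∀ u : β → F, (∀ b, ‖u b - u₀ b‖ < δ) → ‖Bf C u x y - Bf C u₀ x y‖ < ε := by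
  have hc : Continuous fun u : β → F => Bf C u x y := by
    unfold Bf
    refine continuous_finsetSum _ fun i _ => continuous_finsetSum _ fun j _ => ?_
    exact ((MvPolynomial.continuous_eval (C i j)).mul continuous_const).mul continuous_const
  obtain ⟨δ, hδ, hb⟩ := Metric.continuousAt_iff.1 (hc.continuousAt (x := u₀)) ε hε
  refine ⟨δ, hδ, fun u h => ?_⟩
  have h1 : dist u u₀ < δ := by
    rw [dist_pi_lt_iff hδ]
    intro b
    rw [dist_eq_norm]
    exact h b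
  have := hb h1
  rwa [dist_eq_norm] at this

omit [Fintype β] in
/-- symmetry -/
lemma bf_symm {C : α → α → MvPolynomial β F} (hC : ∀ i j, C i j = C j i) (u : β → F)
    (x y : α → F) : Bf C u x y = Bf C u y x := by
  unfold Bf
  rw [Finset.sum_comm]
  refine Finset.sum_congr rfl fun i _ => Finset.sum_congr rfl fun j _ => ?_
  rw [hC j i]
  ring

omit [Fintype β] in
/-- the form on a line -/
lemma bf_line (C : α → α → MvPolynomial β F) (hC : ∀ i j, C i j = C j i) (u : β → F)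
    (y d : α → F) (l : F) :
    Bf C u (fun a => y a + l * d a) (fun a => y a + l * d a) =
      Bf C u y y + 2 * Bf C u y d * l + Bf C u d d * l ^ 2 := by
  have h1 : Bf C u (fun a => y a + l * d a) (fun a => y a + l * d a) =
      Bf C u y y + l * Bf C u y d + l * Bf C u d y + l ^ 2 * Bf C u d d := by
    unfold Bf
    simp only [Finset.mul_sum, ← Finset.sum_add_distrib]
    refine Finset.sum_congr rfl fun i _ => Finset.sum_congr rfl fun j _ => ?_
    ring
  rw [h1, bf_symm hC u d y]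
  ring

/-- points of the quadric persist -/
lemma nzq (h1 : S_ONE) [CompleteSpace F] [CharZero F] (C : α → α → MvPolynomial β F)
    (hC : ∀ i j, C i j = C j i)
    {u₀ : β → F} {y₀ d : α → F} (hy : Bf C u₀ y₀ y₀ = 0) (hd : Bf C u₀ y₀ d ≠ 0) {ε : ℝ}
    (hε : 0 < ε) : ∃ ρ : ℝ, 0 < ρ ∧ ∀ u : β → F, (∀ b, ‖u b - u₀ b‖ < ρ) →
      ∃ y : α → F, (∀ a, ‖y a - y₀ a‖ < ε) ∧ Bf C u y y = 0 := by
  have hD : 0 < ‖d‖ + 1 := by positivity
  obtain ⟨ρ, hρ, hr⟩ := h1 F (2 * Bf C u₀ y₀ d) (Bf C u₀ d d) 0 (mul_ne_zero two_ne_zero hd)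
    (ε / (‖d‖ + 1)) (div_pos hε hD)
  obtain ⟨δ₁, hδ₁, k1⟩ := bf_near C u₀ y₀ y₀ hρ
  obtain ⟨δ₂, hδ₂, k2⟩ := bf_near C u₀ y₀ d
    (show 0 < ρ / (‖(2 : F)‖ + 1) by positivity)
  obtain ⟨δ₃, hδ₃, k3⟩ := bf_near C u₀ d d hρ
  refine ⟨min δ₁ (min δ₂ δ₃), lt_min hδ₁ (lt_min hδ₂ hδ₃), fun u hu => ?_⟩
  obtain ⟨t, ht, he⟩ := hr (Bf C u y₀ y₀) (2 * Bf C u y₀ d) (Bf C u d d) 0
    (by
      have := k1 u fun b => (hu b).trans_le (min_le_left _ _)
      rwa [hy, sub_zero] at this)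
    (by
      have h := k2 u fun b => (hu b).trans_le ((min_le_right _ _).trans (min_le_left _ _))
      rw [← mul_sub, norm_mul]
      rw [lt_div_iff₀ (by positivity)] at h
      have h' := norm_nonneg (Bf C u y₀ d - Bf C u₀ y₀ d)
      nlinarith)
    (k3 u fun b => (hu b).trans_le ((min_le_right _ _).trans (min_le_right _ _)))
    (by rw [sub_self, norm_zero]; exact hρ)
  refine ⟨fun a => y₀ a + t * d a, fun a => ?_, ?_⟩
  · rw [add_sub_cancel_left, norm_mul]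
    rw [lt_div_iff₀ hD] at ht
    have h2 := norm_le_pi_norm d a
    have h3 := norm_nonneg t
    nlinarith [norm_nonneg (d a)]
  · rw [bf_line C hC]
    linear_combination he

end loc

/-- a positive lower bound of finitely many positive numbers -/
lemma fmin {V : Type} [Finite V] {f : V → ℝ} (hf : ∀ v, 0 < f v) :
    ∃ δ : ℝ, 0 < δ ∧ ∀ v, δ ≤ f v := by
  by_cases hV : IsEmpty V
  · exact ⟨1, one_pos, fun v => (hV.false v).elim⟩
  rw [not_isEmpty_iff] at hV
  obtain ⟨v, hv⟩ := Finite.exists_min f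
  exact ⟨f v, hf v, hv⟩

section glob

variable {K : Type} [Field K] [CharZero K] {V : Type} [Finite V] {L : V → Type}
  [∀ v, NontriviallyNormedField (L v)] [∀ v, CompleteSpace (L v)] {s : ∀ v, K →+* L v}
  {α β : Type} [Fintype α] [Fintype β] {C : α → α → MvPolynomial β K}

lemma mC_symm (hC : ∀ i j, C i j = C j i) (v : V) (i j : α) :
    mC (s v) C i j = mC (s v) C j i := by
  unfold mC
  rw [hC]

/-- closeness of the values of the bilinear forms, all places -/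
lemma ne_nearG {x₀ z : ∀ v, α → L v} {u₀ : ∀ v, β → L v}
    (h : ∀ v, Bf (mC (s v) C) (u₀ v) (x₀ v) (z v) ≠ 0) :
    ∃ δ : ℝ, 0 < δ ∧ ∀ (v : V) (u : β → L v) (x y : α → L v),
      (∀ b, ‖u b - u₀ v b‖ < δ) → (∀ a, ‖x a - x₀ v a‖ < δ) → (∀ a, ‖y a - z v a‖ < δ) →
      Bf (mC (s v) C) u x y ≠ 0 := by
  choose δ hδ hb using fun v => ne_near (mC (s v) C) (h v)
  obtain ⟨δ', hδ', hm⟩ := fmin hδ
  exact ⟨δ', hδ', fun v u x y h1 h2 h3 => hb v u x y (fun b => (h1 b).trans_le (hm v))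
    (fun a => (h2 a).trans_le (hm v)) fun a => (h3 a).trans_le (hm v)⟩

/-- points of the quadrics persist, all places -/
lemma nzqG (h1 : S_ONE) (hC : ∀ i j, C i j = C j i) {x₀ z : ∀ v, α → L v} {u₀ : ∀ v, β → L v}
    (hx : ∀ v, Bf (mC (s v) C) (u₀ v) (x₀ v) (x₀ v) = 0)
    (h : ∀ v, Bf (mC (s v) C) (u₀ v) (x₀ v) (z v) ≠ 0) {ε : ℝ} (hε : 0 < ε) :
    ∃ ρ : ℝ, 0 < ρ ∧ ∀ (u : ∀ v, β → L v), (∀ v b, ‖u v b - u₀ v b‖ < ρ) →
      ∃ y : ∀ v, α → L v, (∀ v a, ‖y v a - x₀ v a‖ < ε) ∧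
        ∀ v, Bf (mC (s v) C) (u v) (y v) (y v) = 0 := by
  have hcz : ∀ v, CharZero (L v) := fun v => charZero_of_injective_ringHom (s v).injective
  choose ρ hρ hb using fun v => nzq h1 (mC (s v) C) (mC_symm hC v) (hx v) (h v) hε
  obtain ⟨ρ', hρ', hm⟩ := fmin hρ
  refine ⟨ρ', hρ', fun u hu => ?_⟩
  choose y hy1 hy2 using fun v => hb v (u v) fun b => (hu v b).trans_le (hm v)
  exact ⟨y, hy1, hy2⟩

/-- moves on the quadric over a rational point -/
lemma qm (hQ : S_QUA) (h1 : S_ONE) (hD : Dns s) (hC : ∀ i j, C i j = C j i)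
    {x₀ z : ∀ v, α → L v} {u₀ : ∀ v, β → L v}
    (hz : ∀ v, Bf (mC (s v) C) (u₀ v) (z v) (z v) = 0)
    (h : ∀ v, Bf (mC (s v) C) (u₀ v) (x₀ v) (z v) ≠ 0) :
    ∃ δ : ℝ, 0 < δ ∧ ∀ (x : α → K) (u : β → K), Bf C u x x = 0 → nx s δ x x₀ → nx s δ u u₀ →
      ∀ y : ∀ v, α → L v, (∀ v a, ‖y v a - x₀ v a‖ < δ) →
      (∀ v, Bf (mC (s v) C) (fun b => s v (u b)) (y v) (y v) = 0) → ∀ η : ℝ, 0 < η →
      ∃ x' : α → K, Bf C u x' x' = 0 ∧ nx s η x' y := by
  obtain ⟨δ₁, hδ₁, k1⟩ := ne_nearG h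
  have h' : ∀ v, Bf (mC (s v) C) (u₀ v) (z v) (x₀ v) ≠ 0 := fun v => by
    rw [bf_symm (mC_symm hC v)]
    exact h v
  obtain ⟨ρ, hρ, k2⟩ := nzqG h1 hC hz h' (half_pos hδ₁)
  refine ⟨min δ₁ ρ, lt_min hδ₁ hρ, fun x u hxu hx hu y hy hyu η hη => ?_⟩
  obtain ⟨z', hz1, hz2⟩ := k2 (fun v b => s v (u b)) fun v b =>
    (hu v b).trans_le (min_le_right _ _)
  obtain ⟨x₁, hx1, hx2⟩ := hQ K V L s hD α β C hC u x hxu z' hz2
    (fun v => k1 v _ _ _ (fun b => (hu v b).trans_le (min_le_left _ _))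
      (fun a => (hx v a).trans_le (min_le_left _ _))
      fun a => (hz1 v a).trans (half_lt_self hδ₁)) (δ₁ / 2) (half_pos hδ₁)
  refine hQ K V L s hD α β C hC u x₁ hx1 y hyu (fun v => ?_) η hη
  rw [bf_symm (mC_symm hC v)]
  refine k1 v _ _ _ (fun b => (hu v b).trans_le (min_le_left _ _))
    (fun a => (hy v a).trans_le (min_le_left _ _)) fun a => ?_
  have e1 := hx2 v a
  have e2 := hz1 v a
  have e3 := norm_sub_le_norm_sub_add_norm_sub (s v (x₁ a)) (z' v a) (z v a)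
  linarith

/-- moves of `u`, the vector `x` stays close to `x₀` -/
def UM (s : ∀ v, K →+* L v) (C : α → α → MvPolynomial β K) (x₀ : ∀ v, α → L v)
    (u₀ : ∀ v, β → L v) (e : β → K) : Prop :=
  ∀ ε : ℝ, 0 < ε → ∃ δ : ℝ, 0 < δ ∧ ∀ (x : α → K) (u : β → K), Bf C u x x = 0 → nx s δ x x₀ →
    nx s δ u u₀ → ∀ t : ∀ v, L v, (∀ v, ‖t v‖ < δ) → ∀ η : ℝ, 0 < η →
    ∃ (x' : α → K) (u' : β → K), Bf C u' x' x' = 0 ∧ nx s ε x' x₀ ∧
      nx s η u' (fun v b => s v (u b) + t v * s v (e b))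

/-- a bound for small multiples of the direction -/
lemma dirb (s : ∀ v, K →+* L v) (e : β → K) {ε : ℝ} (hε : 0 < ε) : ∃ κ : ℝ, 0 < κ ∧
    ∀ (v : V) (b : β) (t : L v), ‖t‖ < κ → ‖t * s v (e b)‖ < ε := by
  obtain ⟨κ, hκ, hm⟩ := fmin (V := V × β) (f := fun p => ε / (‖s p.1 (e p.2)‖ + 1))
    fun p => by positivity
  refine ⟨κ, hκ, fun v b t ht => ?_⟩
  have h1 := ht.trans_le (hm (v, b))
  rw [lt_div_iff₀ (by positivity)] at h1
  rw [norm_mul]
  dsimp only at h1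
  nlinarith [norm_nonneg t, norm_nonneg (s v (e b))]

lemma um_of_mv (h1 : S_ONE) (hC : ∀ i j, C i j = C j i)
    {x₀ z : ∀ v, α → L v} {u₀ : ∀ v, β → L v}
    (hx : ∀ v, Bf (mC (s v) C) (u₀ v) (x₀ v) (x₀ v) = 0)
    (h : ∀ v, Bf (mC (s v) C) (u₀ v) (x₀ v) (z v) ≠ 0) {e : β → K} (he : MvG s C e x₀ u₀) :
    UM s C x₀ u₀ e := by
  intro ε hε
  obtain ⟨δ₀, hδ₀, k0⟩ := he
  obtain ⟨ρ, hρ, k1⟩ := nzqG h1 hC hx h (lt_min (half_pos hε) hδ₀)
  obtain ⟨κ, hκ, k2⟩ := dirb s e (half_pos hρ)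
  refine ⟨min δ₀ (min (ρ / 2) κ), lt_min hδ₀ (lt_min (half_pos hρ) hκ),
    fun x u hxu hx' hu t ht η hη => ?_⟩
  obtain ⟨y, hy1, hy2⟩ := k1 (fun v b => s v (u b) + t v * s v (e b)) fun v b => by
    have e1 := (hu v b).trans_le ((min_le_right _ _).trans (min_le_left _ _))
    have e2 := k2 v b (t v) ((ht v).trans_le ((min_le_right _ _).trans (min_le_right _ _)))
    have e3 := norm_add_le (s v (u b) - u₀ v b) (t v * s v (e b))
    have e4 : s v (u b) + t v * s v (e b) - u₀ v b =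
      (s v (u b) - u₀ v b) + t v * s v (e b) := by ring
    rw [e4]
    linarith
  obtain ⟨x', u', g1, g2, g3⟩ := k0 x u hxu (fun v a => (hx' v a).trans_le (min_le_left _ _))
    (fun v b => (hu v b).trans_le (min_le_left _ _)) t y
    (fun v => (ht v).trans_le (min_le_left _ _))
    (fun v a => (hy1 v a).trans_le (min_le_right _ _)) hy2 (min η (ε / 2))
    (lt_min hη (half_pos hε))
  refine ⟨x', u', g1, fun v a => ?_, fun v b => (g3 v b).trans_le (min_le_left _ _)⟩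
  have e1 := (g2 v a).trans_le (min_le_right _ _)
  have e2 := (hy1 v a).trans_le (min_le_left _ _)
  have e3 := norm_sub_le_norm_sub_add_norm_sub (s v (x' a)) (y v a) (x₀ v a)
  linarith

lemma um_zero {x₀ : ∀ v, α → L v} {u₀ : ∀ v, β → L v} : UM s C x₀ u₀ (0 : β → K) := by
  intro ε hε
  refine ⟨ε, hε, fun x u hxu hx hu t ht η hη => ⟨x, u, hxu, hx, fun v b => ?_⟩⟩
  change ‖s v (u b) - (s v (u b) + t v * s v ((0 : β → K) b))‖ < η
  rw [Pi.zero_apply, map_zero, mul_zero, add_zero, sub_self, norm_zero]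
  exact hη

lemma um_smul {x₀ : ∀ v, α → L v} {u₀ : ∀ v, β → L v} {e : β → K} (h : UM s C x₀ u₀ e)
    (c : K) : UM s C x₀ u₀ (c • e) := by
  intro ε hε
  obtain ⟨δ, hδ, k⟩ := h ε hε
  obtain ⟨κ, hκ, k2⟩ := dirb (β := Unit) s (fun _ => c) hδ
  refine ⟨min δ κ, lt_min hδ hκ, fun x u hxu hx hu t ht η hη => ?_⟩
  obtain ⟨x', u', g1, g2, g3⟩ := k x u hxu (fun v a => (hx v a).trans_le (min_le_left _ _))
    (fun v b => (hu v b).trans_le (min_le_left _ _)) (fun v => t v * s v c)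
    (fun v => k2 v () (t v) ((ht v).trans_le (min_le_right _ _))) η hη
  refine ⟨x', u', g1, g2, fun v b => ?_⟩
  have := g3 v b
  dsimp only at this ⊢
  rw [Pi.smul_apply, smul_eq_mul, map_mul, ← mul_assoc]
  exact this

lemma um_add {x₀ : ∀ v, α → L v} {u₀ : ∀ v, β → L v} {e e' : β → K} (h : UM s C x₀ u₀ e)
    (h' : UM s C x₀ u₀ e') : UM s C x₀ u₀ (e + e') := by
  intro ε hε
  obtain ⟨δ₂, hδ₂, k2⟩ := h' ε hε
  obtain ⟨δ₁, hδ₁, k1⟩ := h δ₂ hδ₂
  have h3 : 0 < δ₂ / 3 := by positivity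
  obtain ⟨κ, hκ, k3⟩ := dirb s e h3
  refine ⟨min (min δ₁ δ₂) (min (δ₂ / 3) κ), lt_min (lt_min hδ₁ hδ₂) (lt_min h3 hκ),
    fun x u hxu hx hu t ht η hη => ?_⟩
  have a1 : min (min δ₁ δ₂) (min (δ₂ / 3) κ) ≤ δ₁ := (min_le_left _ _).trans (min_le_left _ _)
  have a2 : min (min δ₁ δ₂) (min (δ₂ / 3) κ) ≤ δ₂ := (min_le_left _ _).trans (min_le_right _ _)
  have a3 : min (min δ₁ δ₂) (min (δ₂ / 3) κ) ≤ δ₂ / 3 :=
    (min_le_right _ _).trans (min_le_left _ _)
  have a4 : min (min δ₁ δ₂) (min (δ₂ / 3) κ) ≤ κ := (min_le_right _ _).trans (min_le_right _ _)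
  obtain ⟨x₁, u₁, g1, g2, g3⟩ := k1 x u hxu (fun v a => (hx v a).trans_le a1)
    (fun v b => (hu v b).trans_le a1) t (fun v => (ht v).trans_le a1) (min (η / 2) (δ₂ / 3))
    (lt_min (half_pos hη) h3)
  obtain ⟨x₂, u₂, f1, f2, f3⟩ := k2 x₁ u₁ g1 g2 (fun v b => by
      have e1 := (g3 v b).trans_le (min_le_right _ _)
      have e2 := (hu v b).trans_le a3
      have e3 := k3 v b (t v) ((ht v).trans_le a4)
      have e4 := norm_add₃_le (a := s v (u₁ b) - (s v (u b) + t v * s v (e b)))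
        (b := s v (u b) - u₀ v b) (c := t v * s v (e b))
      have e5 : s v (u₁ b) - (s v (u b) + t v * s v (e b)) + (s v (u b) - u₀ v b) +
        t v * s v (e b) = s v (u₁ b) - u₀ v b := by ring
      rw [e5] at e4
      linarith) t (fun v => (ht v).trans_le a2) (η / 2) (half_pos hη)
  refine ⟨x₂, u₂, f1, f2, fun v b => ?_⟩
  have e1 := (g3 v b).trans_le (min_le_left _ _)
  have e2 := f3 v b
  have e3 := norm_add_le (s v (u₂ b) - (s v (u₁ b) + t v * s v (e' b)))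
    (s v (u₁ b) - (s v (u b) + t v * s v (e b)))
  have e4 : s v (u₂ b) - (s v (u₁ b) + t v * s v (e' b)) +
    (s v (u₁ b) - (s v (u b) + t v * s v (e b))) =
    s v (u₂ b) - (s v (u b) + t v * s v ((e + e') b)) := by
    rw [Pi.add_apply, map_add]; ring
  rw [e4] at e3
  dsimp only
  linarith

/-- the space of directions -/
def umS (s : ∀ v, K →+* L v) (C : α → α → MvPolynomial β K) (x₀ : ∀ v, α → L v)
    (u₀ : ∀ v, β → L v) : Submodule K (β → K) where
  carrier := {e | UM s C x₀ u₀ e}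
  add_mem' h h' := um_add h h'
  zero_mem' := um_zero
  smul_mem' c _ h := um_smul h c

/-- moves in all coordinates -/
lemma um_all [DecidableEq β] {x₀ : ∀ v, α → L v} {u₀ : ∀ v, β → L v}
    (h : ∀ b, UM s C x₀ u₀ (Pi.single b 1)) (S : Finset β) :
    ∀ ε : ℝ, 0 < ε → ∃ δ : ℝ, 0 < δ ∧ ∀ (x : α → K) (u : β → K), Bf C u x x = 0 →
      nx s δ x x₀ → nx s δ u u₀ → ∀ τ : ∀ v, β → L v, (∀ v b, ‖τ v b‖ < δ) →
      ∀ η : ℝ, 0 < η → ∃ (x' : α → K) (u' : β → K), Bf C u' x' x' = 0 ∧ nx s ε x' x₀ ∧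
        nx s η u' (fun v b => s v (u b) + if b ∈ S then τ v b else 0) := by
  induction S using Finset.induction_on with
  | empty =>
    intro ε hε
    refine ⟨ε, hε, fun x u hxu hx hu τ hτ η hη => ⟨x, u, hxu, hx, fun v b => ?_⟩⟩
    simp only [Finset.notMem_empty, if_false, add_zero, sub_self, norm_zero]
    exact hη
  | insert a S ha ih =>
    intro ε hε
    obtain ⟨δ₂, hδ₂, k2⟩ := h a ε hε
    obtain ⟨δ₁, hδ₁, k1⟩ := ih δ₂ hδ₂
    have h3 : 0 < δ₂ / 3 := by positivity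
    refine ⟨min δ₁ (δ₂ / 3), lt_min hδ₁ h3, fun x u hxu hx hu τ hτ η hη => ?_⟩
    have a1 : min δ₁ (δ₂ / 3) ≤ δ₁ := min_le_left _ _
    have a2 : min δ₁ (δ₂ / 3) ≤ δ₂ / 3 := min_le_right _ _
    obtain ⟨x₁, u₁, g1, g2, g3⟩ := k1 x u hxu (fun v c => (hx v c).trans_le a1)
      (fun v b => (hu v b).trans_le a1) τ (fun v b => (hτ v b).trans_le a1)
      (min (η / 2) (δ₂ / 3)) (lt_min (half_pos hη) h3)
    obtain ⟨x₂, u₂, f1, f2, f3⟩ := k2 x₁ u₁ g1 g2 (fun v b => by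
        have e1 := (g3 v b).trans_le (min_le_right _ _)
        have e2 := (hu v b).trans_le a2
        have e3 : ‖(if b ∈ S then τ v b else 0 : L v)‖ < δ₂ / 3 := by
          split_ifs
          · exact (hτ v b).trans_le a2
          · rw [norm_zero]; exact h3
        have e4 := norm_add₃_le (a := s v (u₁ b) - (s v (u b) + if b ∈ S then τ v b else 0))
          (b := s v (u b) - u₀ v b) (c := if b ∈ S then τ v b else 0)
        have e5 : s v (u₁ b) - (s v (u b) + if b ∈ S then τ v b else 0) +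
          (s v (u b) - u₀ v b) + (if b ∈ S then τ v b else 0) = s v (u₁ b) - u₀ v b := by ring
        rw [e5] at e4
        linarith) (fun v => τ v a) (fun v => (hτ v a).trans_le (a2.trans (by linarith)))
      (η / 2) (half_pos hη)
    refine ⟨x₂, u₂, f1, f2, fun v b => ?_⟩
    have e1 := (g3 v b).trans_le (min_le_left _ _)
    have e2 := f3 v b
    have e3 := norm_add_le (s v (u₂ b) - (s v (u₁ b) + τ v a * s v ((Pi.single a 1 : β → K) b)))
      (s v (u₁ b) - (s v (u b) + if b ∈ S then τ v b else 0))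
    have e4 : s v (u₂ b) - (s v (u₁ b) + τ v a * s v ((Pi.single a 1 : β → K) b)) +
      (s v (u₁ b) - (s v (u b) + if b ∈ S then τ v b else 0)) =
      s v (u₂ b) - (s v (u b) + if b ∈ insert a S then τ v b else 0) := by
      by_cases hb : b = a
      · subst hb
        rw [Pi.single_eq_same, map_one, if_neg ha, if_pos (Finset.mem_insert_self _ _)]
        ring
      · rw [Pi.single_eq_of_ne hb, map_zero]
        have e6 : (b ∈ insert a S) = (b ∈ S) := by
          rw [Finset.mem_insert]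
          exact propext ⟨fun h => h.resolve_left hb, Or.inr⟩
        simp only [e6]
        ring
    rw [e4] at e3
    dsimp only at e1 ⊢
    linarith

end glob

end CvgAux

open CvgAux in
/-- **CVG.** -/
theorem t_CVG (hQ : S_QUA) (h1 : S_ONE) : S_CVG := by
  intro K _ _ V _ L _ _ s hD α β _ _ _ C hC x₀ z u₀ hx hz hxz E hE hM
  have hall : ∀ e : β → K, UM s C x₀ u₀ e := by
    have h2 : Submodule.span K E ≤ umS s C x₀ u₀ :=
      Submodule.span_le.2 fun e he => um_of_mv h1 hC hx hxz (hM e he)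
    rw [hE] at h2
    exact fun e => h2 Submodule.mem_top
  obtain ⟨δQ, hδQ, kQ⟩ := qm hQ h1 hD hC hz hxz
  obtain ⟨δN, hδN, kN⟩ := ne_nearG hxz
  obtain ⟨δ₁, hδ₁, k1⟩ := um_all (fun b => hall (Pi.single b 1)) Finset.univ δQ hδQ
  set ε := min (min (δ₁ / 2) (δQ / 3)) δN with hε
  have hε0 : 0 < ε := lt_min (lt_min (by positivity) (by positivity)) hδN
  have a1 : ε ≤ δ₁ / 2 := (min_le_left _ _).trans (min_le_left _ _)
  have a2 : ε ≤ δQ / 3 := (min_le_left _ _).trans (min_le_right _ _)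
  have a3 : ε ≤ δN := min_le_right _ _
  refine ⟨ε, hε0, fun x u hxu hxn hun y w hyw hyn hwn η hη => ?_⟩
  have hz' : ∀ v, ∀ a, ‖z v a - z v a‖ < δN := fun v a => by
    rw [sub_self, norm_zero]; exact hδN
  have hne : ∀ v, Bf (mC (s v) C) (w v) (y v) (z v) ≠ 0 := fun v =>
    kN v _ _ _ (fun b => (hwn v b).trans_le a3) (fun a => (hyn v a).trans_le a3) (hz' v)
  obtain ⟨ρ, hρ, k2⟩ := nzqG h1 hC hyw hne
    (show 0 < min (η / 2) (δQ / 3) from lt_min (half_pos hη) (by positivity))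
  obtain ⟨x', u', g1, g2, g3⟩ := k1 x u hxu
    (fun v a => (hxn v a).trans_le (a1.trans (by linarith)))
    (fun v b => (hun v b).trans_le (a1.trans (by linarith)))
    (fun v b => w v b - s v (u b)) (fun v b => by
      have e1 := norm_sub_le_norm_sub_add_norm_sub (w v b) (u₀ v b) (s v (u b))
      have e2 := hwn v b
      have e3 := hun v b
      rw [norm_sub_rev] at e3
      linarith) (min (min η ρ) (δQ / 3)) (lt_min (lt_min hη hρ) (by positivity))
  have g4 : ∀ v b, ‖s v (u' b) - w v b‖ < min (min η ρ) (δQ / 3) := by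
    intro v b
    have := g3 v b
    simp only [Finset.mem_univ, if_true, add_sub_cancel] at this
    exact this
  obtain ⟨y', hy1, hy2⟩ := k2 (fun v b => s v (u' b)) fun v b =>
    (g4 v b).trans_le ((min_le_left _ _).trans (min_le_right _ _))
  obtain ⟨x'', f1, f2⟩ := kQ x' u' g1 g2 (fun v b => by
      have e1 := (g4 v b).trans_le (min_le_right _ _)
      have e2 := hwn v b
      have e3 := norm_sub_le_norm_sub_add_norm_sub (s v (u' b)) (w v b) (u₀ v b)
      linarith) y' (fun v a => by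
      have e1 := (hy1 v a).trans_le (min_le_right _ _)
      have e2 := hyn v a
      have e3 := norm_sub_le_norm_sub_add_norm_sub (y' v a) (y v a) (x₀ v a)
      linarith) hy2 (η / 2) (half_pos hη)
  refine ⟨x'', u', f1, fun v a => ?_, fun v b => (g4 v b).trans_le
    ((min_le_left _ _).trans (min_le_left _ _))⟩
  have e1 := f2 v a
  have e2 := (hy1 v a).trans_le (min_le_left _ _)
  have e3 := norm_sub_le_norm_sub_add_norm_sub (s v (x'' a)) (y' v a) (y v a)
  linarith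

end Pool.Agent.K6.H43.GH
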