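import Pool.Agent.K6.H43.GH.Alg

/-!
# DEG: sections by planes in one block are plane cubics (helper55)
-/

set_option autoImplicit false
set_option linter.unusedVariables false

open Filter Topology

namespace Pool.Agent.K6.H43.GH

section deg

variable {R : Type*} [CommRing R]

/-- the value of the two-variable polynomial at `(s, t)` -/
noncomputable def vl (s t : R) : Polynomial (Polynomial R) →+* R :=
  (Polynomial.evalRingHom t).comp (Polynomial.mapRingHom (Polynomial.evalRingHom s))

lemma vl_pl {β : Type*} (g : MvPolynomial β R) (u e e' : β → R) (s t : R) :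
    vl s t (pl g u e e') = MvPolynomial.eval (fun b => u b + s * e b + t * e' b) g := by
  induction g using MvPolynomial.induction_on with
  | C a =>
    simp only [pl, MvPolynomial.aeval_C, MvPolynomial.eval_C, Polynomial.algebraMap_apply]
    simp [vl]
  | add p q hp hq =>
    simp only [pl, map_add] at *
    rw [hp, hq]
  | mul_X p b hp =>
    simp only [pl, map_mul, MvPolynomial.aeval_X, MvPolynomial.eval_X] at *
    rw [hp]
    congr 1
    simp only [vl, RingHom.comp_apply, Polynomial.coe_mapRingHom, Polynomial.coe_evalRingHom,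
      Polynomial.map_add, Polynomial.map_mul, Polynomial.map_C, Polynomial.map_X,
      Polynomial.eval_add, Polynomial.eval_mul, Polynomial.eval_C, Polynomial.eval_X]
    ring

/-- total degree at most `N` -/
def TD (N : ℕ) (p : Polynomial (Polynomial R)) : Prop :=
  ∀ k l : ℕ, N < k + l → (p.coeff l).coeff k = 0

lemma TD.add {N : ℕ} {p q : Polynomial (Polynomial R)} (hp : TD N p) (hq : TD N q) :
    TD N (p + q) := fun k l h => by
  rw [Polynomial.coeff_add, Polynomial.coeff_add, hp k l h, hq k l h, add_zero]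

lemma TD.zero (N : ℕ) : TD N (0 : Polynomial (Polynomial R)) := fun k l h => by simp

lemma TD.sum {N : ℕ} {ι : Type*} (s : Finset ι) (f : ι → Polynomial (Polynomial R))
    (h : ∀ i ∈ s, TD N (f i)) : TD N (∑ i ∈ s, f i) := by
  classical
  induction s using Finset.induction_on with
  | empty => simpa using TD.zero N
  | insert a s ha ih =>
    rw [Finset.sum_insert ha]
    exact (h a (Finset.mem_insert_self a s)).add
      (ih fun i hi => h i (Finset.mem_insert_of_mem hi))

lemma TD.mul {N M : ℕ} {p q : Polynomial (Polynomial R)} (hp : TD N p) (hq : TD M q) :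
    TD (N + M) (p * q) := fun k l h => by
  rw [Polynomial.coeff_mul, Polynomial.finsetSum_coeff]
  refine Finset.sum_eq_zero fun a ha => ?_
  rw [Polynomial.coeff_mul]
  refine Finset.sum_eq_zero fun b hb => ?_
  rw [Finset.HasAntidiagonal.mem_antidiagonal] at ha hb
  by_cases h1 : N < b.1 + a.1
  · rw [hp _ _ h1, zero_mul]
  · have h2 : M < b.2 + a.2 := by omega
    rw [hq _ _ h2, mul_zero]

lemma TD.C (a : R) : TD 0 (Polynomial.C (Polynomial.C a)) := fun k l h => by
  rw [Polynomial.coeff_C]
  split_ifs with hl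
  · rw [Polynomial.coeff_C, if_neg (by omega)]
  · simp

lemma TD.pow {N : ℕ} {p : Polynomial (Polynomial R)} (hp : TD N p) (m : ℕ) :
    TD (N * m) (p ^ m) := by
  induction m with
  | zero =>
    rw [pow_zero, Nat.mul_zero]
    have := TD.C (1 : R)
    simpa using this
  | succ m ih =>
    rw [pow_succ, Nat.mul_succ]
    exact ih.mul hp

lemma TD.prod {ι : Type*} (s : Finset ι) (w : ι → ℕ) (f : ι → Polynomial (Polynomial R))
    (h : ∀ i ∈ s, TD (w i) (f i)) : TD (∑ i ∈ s, w i) (∏ i ∈ s, f i) := by
  classical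
  induction s using Finset.induction_on with
  | empty =>
    have := TD.C (1 : R)
    simpa using this
  | insert a s ha ih =>
    rw [Finset.sum_insert ha, Finset.prod_insert ha]
    exact (h a (Finset.mem_insert_self a s)).mul
      (ih fun i hi => h i (Finset.mem_insert_of_mem hi))

lemma TD.lin (a b c : R) : TD 1 (Polynomial.C (Polynomial.C a + Polynomial.C b * Polynomial.X) +
    Polynomial.C (Polynomial.C c) * Polynomial.X) := fun k l h => by
  rw [Polynomial.coeff_add, Polynomial.coeff_C, Polynomial.coeff_C_mul, Polynomial.coeff_X,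
    Polynomial.coeff_add]
  split_ifs with h1 h2 h2
  · omega
  · subst h1
    rw [mul_zero, Polynomial.coeff_zero, add_zero, Polynomial.coeff_add, Polynomial.coeff_C,
      Polynomial.coeff_C_mul, Polynomial.coeff_X, if_neg (by omega), if_neg (by omega)]
    simp
  · rw [mul_one, Polynomial.coeff_C, if_neg (by omega)]
    simp
  · simp

/-- the value of a polynomial of total degree at most three -/
lemma TD.vl3 {p : Polynomial (Polynomial R)} (hp : TD 3 p) (s t : R) :
    vl s t p = (p.coeff 0).coeff 0 + ((p.coeff 0).coeff 1 * s + (p.coeff 1).coeff 0 * t +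
      (p.coeff 0).coeff 2 * s ^ 2 + (p.coeff 1).coeff 1 * s * t + (p.coeff 2).coeff 0 * t ^ 2 +
      (p.coeff 0).coeff 3 * s ^ 3 + (p.coeff 1).coeff 2 * s ^ 2 * t +
      (p.coeff 2).coeff 1 * s * t ^ 2 + (p.coeff 3).coeff 0 * t ^ 3) := by
  have h0 : ∀ l : ℕ, 3 < l → p.coeff l = 0 := fun l hl => by
    ext k
    rw [hp k l (by omega), Polynomial.coeff_zero]
  have h1 : p.natDegree < 4 := Nat.lt_succ_of_le (Polynomial.natDegree_le_iff_coeff_eq_zero.2 h0)
  have h2 : ∀ l : ℕ, (p.coeff l).eval s = ∑ k ∈ Finset.range 4, (p.coeff l).coeff k * s ^ k := by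
    intro l
    refine Polynomial.eval_eq_sum_range' (Nat.lt_succ_of_le
      (Polynomial.natDegree_le_iff_coeff_eq_zero.2 fun k hk => hp k l (by omega))) s
  have h3 : vl s t p = ∑ l ∈ Finset.range 4, (p.coeff l).eval s * t ^ l := by
    change (p.map (Polynomial.evalRingHom s)).eval t = _
    rw [Polynomial.eval_eq_sum_range' (lt_of_le_of_lt Polynomial.natDegree_map_le h1) t]
    simp
  rw [h3]
  simp only [h2, Finset.sum_range_succ, Finset.sum_range_zero]
  rw [hp 3 1 (by norm_num), hp 2 2 (by norm_num), hp 3 2 (by norm_num), hp 1 3 (by norm_num),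
    hp 2 3 (by norm_num), hp 3 3 (by norm_num)]
  ring

end deg

section block

variable {F : Type*} [Field F] {r : ℕ} {n : Fin r → ℕ}

lemma hat_ne (i : Fin r) (e : Fin (n i + 1) → F) (b : Vr n) (h : b.1 ≠ i) : hat i e b = 0 := by
  unfold hat
  rw [Function.update_of_ne h]

lemma TD_pl (i : Fin r) (g : MvPolynomial (Vr n) F) (hg : MH (fun _ => 3) g) (u : Vr n → F)
    (ε ε' : Fin (n i + 1) → F) : TD 3 (pl g u (hat i ε) (hat i ε')) := by
  classical
  unfold pl
  rw [MvPolynomial.aeval_def, MvPolynomial.eval₂_eq']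
  refine TD.sum _ _ fun m hm => ?_
  have hm3 : ∑ b : Vr n, (if b.1 = i then 1 else 0) * m b = 3 := by
    rw [Fintype.sum_sigma]
    rw [Finset.sum_eq_single i]
    · simpa using hg m hm i
    · intro k _ hk
      refine Finset.sum_eq_zero fun j _ => ?_
      rw [if_neg hk, zero_mul]
    · intro h
      exact absurd (Finset.mem_univ i) h
  have h1 : TD (∑ b : Vr n, (if b.1 = i then 1 else 0) * m b)
      (∏ b : Vr n, (Polynomial.C (Polynomial.C (u b) + Polynomial.C (hat i ε b) * Polynomial.X) +
        Polynomial.C (Polynomial.C (hat i ε' b)) * Polynomial.X) ^ m b) := by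
    refine TD.prod _ _ _ fun b _ => ?_
    refine TD.pow ?_ (m b)
    split_ifs with hb
    · exact TD.lin _ _ _
    · rw [hat_ne i ε b hb, hat_ne i ε' b hb]
      simpa using TD.C (u b)
  rw [hm3] at h1
  have h2 := (TD.C (MvPolynomial.coeff m g)).mul h1
  rw [Nat.zero_add] at h2
  exact h2

end block

theorem t_DEG : S_DEG := by
  intro F _ _ r n i α _ C hC ε ε' u x s t
  have hg : ∀ a b : α, MvPolynomial.eval
      (fun v => u v + s * hat i ε v + t * hat i ε' v) (C a b) = MvPolynomial.eval u (C a b) +
      (((pl (C a b) u (hat i ε) (hat i ε')).coeff 0).coeff 1 * s +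
      ((pl (C a b) u (hat i ε) (hat i ε')).coeff 1).coeff 0 * t +
      ((pl (C a b) u (hat i ε) (hat i ε')).coeff 0).coeff 2 * s ^ 2 +
      ((pl (C a b) u (hat i ε) (hat i ε')).coeff 1).coeff 1 * s * t +
      ((pl (C a b) u (hat i ε) (hat i ε')).coeff 2).coeff 0 * t ^ 2 +
      ((pl (C a b) u (hat i ε) (hat i ε')).coeff 0).coeff 3 * s ^ 3 +
      ((pl (C a b) u (hat i ε) (hat i ε')).coeff 1).coeff 2 * s ^ 2 * t +
      ((pl (C a b) u (hat i ε) (hat i ε')).coeff 2).coeff 1 * s * t ^ 2 +
      ((pl (C a b) u (hat i ε) (hat i ε')).coeff 3).coeff 0 * t ^ 3) := by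
    intro a b
    have hT := TD_pl i (C a b) (hC a b) u ε ε'
    have h0 : MvPolynomial.eval u (C a b) =
        ((pl (C a b) u (hat i ε) (hat i ε')).coeff 0).coeff 0 := by
      have h1 := hT.vl3 0 0
      rw [vl_pl] at h1
      simpa using h1
    rw [← vl_pl, hT.vl3 s t, h0]
  unfold Bf cub c9 cf
  simp only [hg, ix]
  simp only [Finset.sum_mul, ← Finset.sum_add_distrib]
  refine Finset.sum_congr rfl fun a _ => ?_
  refine Finset.sum_congr rfl fun b _ => ?_
  simp
  ring

end Pool.Agent.K6.H43.GH
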