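import Pool.Agent.K6.H43.GH.Deg
import Pool.Agent.K6.H43.GH.Alg2

/-!
# DG2: sections by planes in one block of degree at most three (helper55)
-/

set_option autoImplicit false
set_option linter.unusedVariables false

open Filter Topology

namespace Pool.Agent.K6.H43.GH

section deg2

variable {F : Type*} [Field F] {r : ℕ} {n : Fin r → ℕ}

lemma TD.mono {R : Type*} [CommRing R] {N M : ℕ} {p : Polynomial (Polynomial R)} (hp : TD N p)
    (h : N ≤ M) : TD M p := fun k l hkl => hp k l (lt_of_le_of_lt h hkl)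

lemma TD_pl' (i : Fin r) (d : Fin r → ℕ) (g : MvPolynomial (Vr n) F) (hg : MH d g)
    (u : Vr n → F) (ε ε' : Fin (n i + 1) → F) : TD (d i) (pl g u (hat i ε) (hat i ε')) := by
  classical
  unfold pl
  rw [MvPolynomial.aeval_def, MvPolynomial.eval₂_eq']
  refine TD.sum _ _ fun m hm => ?_
  have hm3 : ∑ b : Vr n, (if b.1 = i then 1 else 0) * m b = d i := by
    rw [Fintype.sum_sigma]
    rw [Finset.sum_eq_single i]
    · simpa using hg m hm i
    · intro k _ hk
      refine Finset.sum_eq_zero fun j _ => ?_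
      rw [if_neg hk, zero_mul]
    · intro h
      exact absurd (Finset.mem_univ i) h
  have h1 : TD (∑ b : Vr n, (if b.1 = i then 1 else 0) * m b)
      (∏ b : Vr n, (Polynomial.C (Polynomial.C (u b) + Polynomial.C (hat i ε b) * Polynomial.X) +
        Polynomial.C (Polynomial.C (hat i ε' b)) * Polynomial.X) ^ m b) := by
    refine TD.prod _ _ _ fun b _ => ?_
    refine TD.pow ?_ (m b)
    split_ifs with hb
    · exact TD.lin _ _ _
    · rw [hat_ne i ε b hb, hat_ne i ε' b hb]
      simpa using TD.C (u b)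
  rw [hm3] at h1
  have h2 := (TD.C (MvPolynomial.coeff m g)).mul h1
  rw [Nat.zero_add] at h2
  exact h2

end deg2

theorem t_DG2 : S_DG2 := by
  intro F _ _ r n i α _ C d hC hd ε ε'
  refine ⟨fun u x s t => ?_, fun hd2 u x m hm => ?_⟩
  · have hg : ∀ a b : α, MvPolynomial.eval
        (fun v => u v + s * hat i ε v + t * hat i ε' v) (C a b) = MvPolynomial.eval u (C a b) +
        (((pl (C a b) u (hat i ε) (hat i ε')).coeff 0).coeff 1 * s +
        ((pl (C a b) u (hat i ε) (hat i ε')).coeff 1).coeff 0 * t +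
        ((pl (C a b) u (hat i ε) (hat i ε')).coeff 0).coeff 2 * s ^ 2 +
        ((pl (C a b) u (hat i ε) (hat i ε')).coeff 1).coeff 1 * s * t +
        ((pl (C a b) u (hat i ε) (hat i ε')).coeff 2).coeff 0 * t ^ 2 +
        ((pl (C a b) u (hat i ε) (hat i ε')).coeff 0).coeff 3 * s ^ 3 +
        ((pl (C a b) u (hat i ε) (hat i ε')).coeff 1).coeff 2 * s ^ 2 * t +
        ((pl (C a b) u (hat i ε) (hat i ε')).coeff 2).coeff 1 * s * t ^ 2 +
        ((pl (C a b) u (hat i ε) (hat i ε')).coeff 3).coeff 0 * t ^ 3) := by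
      intro a b
      have hT := (TD_pl' i d (C a b) (hC a b) u ε ε').mono hd
      have h0 : MvPolynomial.eval u (C a b) =
          ((pl (C a b) u (hat i ε) (hat i ε')).coeff 0).coeff 0 := by
        have h1 := hT.vl3 0 0
        rw [vl_pl] at h1
        simpa using h1
      rw [← vl_pl, hT.vl3 s t, h0]
    unfold Bf cub c9 cf
    simp only [hg, ix]
    simp only [Finset.sum_mul, ← Finset.sum_add_distrib]
    refine Finset.sum_congr rfl fun a _ => ?_
    refine Finset.sum_congr rfl fun b _ => ?_
    simp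
    ring
  · have h3 : 3 ≤ (ix m).1 + (ix m).2 := by
      revert hm
      fin_cases m <;> simp [ix]
    unfold c9 cf
    refine Finset.sum_eq_zero fun a _ => ?_
    refine Finset.sum_eq_zero fun b _ => ?_
    rw [TD_pl' i d (C a b) (hC a b) u ε ε' _ _ (by omega), zero_mul, zero_mul]

end Pool.Agent.K6.H43.GH
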