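import Pool.Agent.K6.H43.GH.Alg

/-!
# Smooth plane cubics: the discriminant of the quartic of the projection from a point (piece DSC)
-/

set_option autoImplicit false
set_option linter.unusedVariables false

open MvPolynomial

namespace Pool.Agent.K6.H43.GH

section

variable {M : Type} [Field M]

theorem dsc_d0 (c : Fin 9 → M) (y : Fin 3 → M) : eval y (pderiv 0 (tern c)) =
    2 * y 0 * (c 0 * y 1 + c 1 * y 2) + (c 2 * y 1 ^ 2 + c 3 * (y 1 * y 2) + c 4 * y 2 ^ 2) := by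
  simp [tern, pderiv_X, Pi.single_apply]
  try ring

theorem dsc_d1 (c : Fin 9 → M) (y : Fin 3 → M) : eval y (pderiv 1 (tern c)) =
    y 0 ^ 2 * c 0 + y 0 * (2 * c 2 * y 1 + c 3 * y 2) +
      (3 * c 5 * y 1 ^ 2 + 2 * c 6 * y 1 * y 2 + c 7 * y 2 ^ 2) := by
  simp [tern, pderiv_X, Pi.single_apply]
  try ring

theorem dsc_d2 (c : Fin 9 → M) (y : Fin 3 → M) : eval y (pderiv 2 (tern c)) =
    y 0 ^ 2 * c 1 + y 0 * (c 3 * y 1 + 2 * c 4 * y 2) +
      (c 6 * y 1 ^ 2 + 2 * c 7 * y 1 * y 2 + 3 * c 8 * y 2 ^ 2) := by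
  simp [tern, pderiv_X, Pi.single_apply]
  try ring

/-- a root of a quartic -/
theorem dsc_root4 [IsAlgClosed M] {a b c d e : M} (ha : a ≠ 0) :
    ∃ x : M, a * x ^ 4 + b * x ^ 3 + c * x ^ 2 + d * x + e = 0 := by
  obtain ⟨p, hp⟩ : ∃ p : Polynomial M, p = Polynomial.C a * Polynomial.X ^ 4 +
      Polynomial.C b * Polynomial.X ^ 3 + Polynomial.C c * Polynomial.X ^ 2 +
      Polynomial.C d * Polynomial.X + Polynomial.C e := ⟨_, rfl⟩
  have h4 : p.coeff 4 = a := by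
    rw [hp]
    simp [Polynomial.coeff_X, Polynomial.coeff_C]
  obtain ⟨x, hx⟩ := IsAlgClosed.exists_root p (fun h => by
    rw [Polynomial.eq_C_of_degree_eq_zero h, Polynomial.coeff_C] at h4
    simp at h4
    exact ha h4.symm)
  refine ⟨x, ?_⟩
  have h1 : p.eval x = 0 := hx
  rw [hp] at h1
  simpa using h1

theorem dsc_root3 [IsAlgClosed M] {a b c d : M} (ha : a ≠ 0) :
    ∃ x : M, a * x ^ 3 + b * x ^ 2 + c * x + d = 0 := by
  obtain ⟨p, hp⟩ : ∃ p : Polynomial M, p = Polynomial.C a * Polynomial.X ^ 3 +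
      Polynomial.C b * Polynomial.X ^ 2 + Polynomial.C c * Polynomial.X + Polynomial.C d :=
    ⟨_, rfl⟩
  have h4 : p.coeff 3 = a := by
    rw [hp]
    simp [Polynomial.coeff_X, Polynomial.coeff_C]
  obtain ⟨x, hx⟩ := IsAlgClosed.exists_root p (fun h => by
    rw [Polynomial.eq_C_of_degree_eq_zero h, Polynomial.coeff_C] at h4
    simp at h4
    exact ha h4.symm)
  refine ⟨x, ?_⟩
  have h1 : p.eval x = 0 := hx
  rw [hp] at h1
  simpa using h1

theorem dsc_root2 [IsAlgClosed M] {a b c : M} (ha : a ≠ 0) :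
    ∃ x : M, a * x ^ 2 + b * x + c = 0 := by
  obtain ⟨p, hp⟩ : ∃ p : Polynomial M, p = Polynomial.C a * Polynomial.X ^ 2 +
      Polynomial.C b * Polynomial.X + Polynomial.C c := ⟨_, rfl⟩
  have h4 : p.coeff 2 = a := by
    rw [hp]
    simp [Polynomial.coeff_X, Polynomial.coeff_C]
  obtain ⟨x, hx⟩ := IsAlgClosed.exists_root p (fun h => by
    rw [Polynomial.eq_C_of_degree_eq_zero h, Polynomial.coeff_C] at h4
    simp at h4
    exact ha h4.symm)
  refine ⟨x, ?_⟩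
  have h1 : p.eval x = 0 := hx
  rw [hp] at h1
  simpa using h1

/-- the roots of a quartic -/
theorem dsc_vieta [IsAlgClosed M] {a b c d e : M} (ha : a ≠ 0) :
    ∃ x y z t : M, b = -a * (x + y + z + t) ∧
      c = a * (x * y + x * z + x * t + y * z + y * t + z * t) ∧
      d = -a * (x * y * z + x * y * t + x * z * t + y * z * t) ∧ e = a * (x * y * z * t) := by
  obtain ⟨x, hx⟩ := dsc_root4 (b := b) (c := c) (d := d) (e := e) ha
  obtain ⟨y, hy⟩ := dsc_root3 (b := b + a * x) (c := c + (b + a * x) * x)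
    (d := d + (c + (b + a * x) * x) * x) ha
  obtain ⟨z, hz⟩ := dsc_root2 (b := b + a * x + a * y)
    (c := c + (b + a * x) * x + (b + a * x + a * y) * y) ha
  obtain ⟨t, ht⟩ : ∃ t : M, b + a * x + a * y + a * z + a * t = 0 :=
    ⟨-(b + a * x + a * y + a * z) / a, by field_simp; ring⟩
  have hb : b = -a * (x + y + z + t) := by linear_combination ht
  subst hb
  have hc : c = a * (x * y + x * z + x * t + y * z + y * t + z * t) := by linear_combination hz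
  subst hc
  have hd : d = -a * (x * y * z + x * y * t + x * z * t + y * z * t) := by linear_combination hy
  subst hd
  have he : e = a * (x * y * z * t) := by linear_combination hx
  exact ⟨x, y, z, t, rfl, rfl, rfl, he⟩

theorem dsc_double [IsAlgClosed M] {w : M} (hw : w ≠ 0) (q : Fin 4 → M) (h : dq4 w q = 0) :
    ∃ x : M, w ^ 2 * x ^ 4 + q 0 * x ^ 3 + q 1 * x ^ 2 + q 2 * x + q 3 = 0 ∧
      4 * w ^ 2 * x ^ 3 + 3 * q 0 * x ^ 2 + 2 * q 1 * x + q 2 = 0 := by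
  obtain ⟨x, y, z, t, h0, h1, h2, h3⟩ := dsc_vieta (b := q 0) (c := q 1) (d := q 2) (e := q 3)
    (pow_ne_zero 2 hw)
  have hd : dq4 w q = w ^ 12 * ((x - y) ^ 2 * (x - z) ^ 2 * (x - t) ^ 2 * (y - z) ^ 2 *
      (y - t) ^ 2 * (z - t) ^ 2) := by
    rw [dq4, dc3, h0, h1, h2, h3]
    ring
  rw [hd] at h
  have hw12 : w ^ 12 ≠ 0 := pow_ne_zero _ hw
  have h' : (x - y) ^ 2 * (x - z) ^ 2 * (x - t) ^ 2 * (y - z) ^ 2 *
      (y - t) ^ 2 * (z - t) ^ 2 = 0 := (mul_eq_zero.1 h).resolve_left hw12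
  rw [h0, h1, h2, h3]
  simp only [mul_eq_zero, ne_eq, OfNat.ofNat_ne_zero, not_false_eq_true, pow_eq_zero_iff,
    sub_eq_zero] at h'
  rcases h' with ((((h' | h') | h') | h') | h') | h'
  · subst h'
    exact ⟨x, by ring, by ring⟩
  · subst h'
    exact ⟨x, by ring, by ring⟩
  · subst h'
    exact ⟨x, by ring, by ring⟩
  · subst h'
    exact ⟨y, by ring, by ring⟩
  · subst h'
    exact ⟨y, by ring, by ring⟩
  · subst h'
    exact ⟨z, by ring, by ring⟩

end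

theorem t_DSC : S_DSC := by
  intro M _ _ _ c hS hP h1 hd
  obtain ⟨x, hx, hx'⟩ := dsc_double hP (q9 c) hd
  have e0 : q9 c 0 = 2 * Ph c * (c 3 * c 1 - 2 * c 4 * c 0) -
      4 * c 1 * (c 5 * c 1 ^ 3 - c 6 * c 1 ^ 2 * c 0 + c 7 * c 1 * c 0 ^ 2 - c 8 * c 0 ^ 3) := rfl
  have e1 : q9 c 1 = (c 3 * c 1 - 2 * c 4 * c 0) ^ 2 + 2 * Ph c * c 4 -
      4 * c 1 * (c 6 * c 1 ^ 2 - 2 * c 7 * c 1 * c 0 + 3 * c 8 * c 0 ^ 2) := rfl
  have e2 : q9 c 2 = 2 * (c 3 * c 1 - 2 * c 4 * c 0) * c 4 -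
      4 * c 1 * (c 7 * c 1 - 3 * c 8 * c 0) := rfl
  have e3 : q9 c 3 = c 4 ^ 2 - 4 * c 1 * c 8 := rfl
  rw [e0, e1, e2, e3] at hx
  rw [e0, e1, e2] at hx'
  rw [Ph] at hx hx'
  obtain ⟨P, hPd⟩ : ∃ P : M, P = (c 2 * c 1 ^ 2 - c 3 * c 0 * c 1 + c 4 * c 0 ^ 2) * x ^ 2 +
      (c 3 * c 1 - 2 * c 4 * c 0) * x + c 4 := ⟨_, rfl⟩
  have h2 : (2 : M) ≠ 0 := two_ne_zero
  have hy := hS ![-P, 2 * c 1 ^ 2 * x, 2 * c 1 * (1 - x * c 0)] ?_
  · have hy1 : 2 * c 1 ^ 2 * x = 0 := congrFun hy 1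
    have hy2 : 2 * c 1 * (1 - x * c 0) = 0 := congrFun hy 2
    have hx0 : x = 0 := by
      rcases mul_eq_zero.1 hy1 with h | h
      · exact absurd h (mul_ne_zero h2 (pow_ne_zero 2 h1))
      · exact h
    rw [hx0] at hy2
    have : 2 * c 1 = 0 := by linear_combination hy2
    exact mul_ne_zero h2 h1 this
  · have k0 : eval ![-P, 2 * c 1 ^ 2 * x, 2 * c 1 * (1 - x * c 0)] (pderiv 0 (tern c)) = 0 := by
      rw [dsc_d0]
      simp only [Matrix.cons_val_zero, Matrix.cons_val_one, Matrix.cons_val]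
      rw [hPd]
      ring
    -- the derivative along the line
    obtain ⟨D1, hD1⟩ : ∃ D1 : M, D1 = eval ![-P, 2 * c 1 ^ 2 * x, 2 * c 1 * (1 - x * c 0)]
      (pderiv 1 (tern c)) := ⟨_, rfl⟩
    obtain ⟨D2, hD2⟩ : ∃ D2 : M, D2 = eval ![-P, 2 * c 1 ^ 2 * x, 2 * c 1 * (1 - x * c 0)]
      (pderiv 2 (tern c)) := ⟨_, rfl⟩
    have f1 := hD1
    have f2 := hD2
    rw [dsc_d1] at f1
    rw [dsc_d2] at f2
    simp only [Matrix.cons_val_zero, Matrix.cons_val_one, Matrix.cons_val] at f1 f2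
    rw [hPd] at f1 f2
    have g1 : x * c 1 * D1 + (1 - x * c 0) * D2 = 0 := by
      rw [f1, f2]
      linear_combination (-3 * c 1) * hx
    have g2 : c 1 * D1 - c 0 * D2 = 0 := by
      rw [f1, f2]
      linear_combination (-c 1) * hx'
    have g3 : D2 = 0 := by linear_combination g1 - x * g2
    have g4 : D1 = 0 := by
      rw [g3] at g2
      have : c 1 * D1 = 0 := by linear_combination g2
      exact (mul_eq_zero.1 this).resolve_left h1
    intro j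
    fin_cases j
    · exact k0
    · exact hD1.symm.trans g4
    · exact hD2.symm.trans g3

end Pool.Agent.K6.H43.GH
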