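import Pool.Agent.K6.H43.GH.Deg

/-!
# HYP: lines and planes of one block in terms of the nine coefficients (helper55)
-/

set_option autoImplicit false
set_option linter.unusedVariables false
set_option linter.unusedSectionVars false
set_option linter.unusedSimpArgs false

open Filter Topology

namespace Pool.Agent.K6.H43.GH

section hyp

variable {F : Type*} [Field F] {r : ℕ} {n : Fin r → ℕ}

/-- replace the block `i` by `w` -/
def upB (i : Fin r) (u : Vr n → F) (w : Fin (n i + 1) → F) (a : Vr n) : F :=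
  Function.update (fun (k : Fin r) (j : Fin (n k + 1)) => u ⟨k, j⟩) i w a.1 a.2

lemma upB_self (i : Fin r) (u : Vr n → F) (w : Fin (n i + 1) → F) (j : Fin (n i + 1)) :
    upB i u w ⟨i, j⟩ = w j := by
  simp [upB]

lemma upB_ne (i : Fin r) (u : Vr n → F) (w : Fin (n i + 1) → F) (a : Vr n) (h : a.1 ≠ i) :
    upB i u w a = u a := by
  unfold upB
  rw [Function.update_of_ne h]

lemma hat_self (i : Fin r) (e : Fin (n i + 1) → F) (j : Fin (n i + 1)) :
    hat i e ⟨i, j⟩ = e j := by
  simp [hat]

lemma eval_Gi (i : Fin r) (u : Vr n → F) (w : Fin (n i + 1) → F) (f : MvPolynomial (Vr n) F) :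
    MvPolynomial.eval w (Gi f u i) = MvPolynomial.eval (upB i u w) f := by
  induction f using MvPolynomial.induction_on with
  | C a => simp [Gi]
  | add p q hp hq =>
    simp only [Gi, map_add] at *
    rw [hp, hq]
  | mul_X p b hp =>
    simp only [Gi, map_mul, MvPolynomial.aeval_X, MvPolynomial.eval_X] at *
    rw [hp]
    congr 1
    obtain ⟨k, j⟩ := b
    by_cases h : k = i
    · subst h
      simp [upB]
    · rw [upB_ne _ _ _ _ h]
      simp [Function.update_of_ne h]

lemma upB_plane (i : Fin r) (u : Vr n → F) (ε ε' : Fin (n i + 1) → F) (s t : F) :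
    upB i u (fun l => u ⟨i, l⟩ + s * ε l + t * ε' l) =
      fun b => u b + s * hat i ε b + t * hat i ε' b := by
  funext b
  obtain ⟨k, j⟩ := b
  by_cases h : k = i
  · subst h
    rw [upB_self, hat_self, hat_self]
  · rw [upB_ne _ _ _ _ h, hat_ne i ε _ h, hat_ne i ε' _ h]
    ring

lemma eval_hom (i : Fin r) (f : MvPolynomial (Vr n) F) (hf : MH (fun _ => 3) f) (v : Vr n → F)
    (t : F) : MvPolynomial.eval (fun b => (if b.1 = i then t else 1) * v b) f =
      t ^ 3 * MvPolynomial.eval v f := by
  classical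
  rw [MvPolynomial.eval_eq', MvPolynomial.eval_eq', Finset.mul_sum]
  refine Finset.sum_congr rfl fun m hm => ?_
  have hm3 : ∑ b : Vr n, (if b.1 = i then 1 else 0) * m b = 3 := by
    rw [Fintype.sum_sigma]
    rw [Finset.sum_eq_single i]
    · simpa using hf m hm i
    · intro k _ hk
      refine Finset.sum_eq_zero fun j _ => ?_
      rw [if_neg hk, zero_mul]
    · intro h
      exact absurd (Finset.mem_univ i) h
  have h1 : ∏ b : Vr n, ((if b.1 = i then t else 1) * v b) ^ m b =
      t ^ 3 * ∏ b : Vr n, v b ^ m b := by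
    rw [← hm3, ← Finset.prod_pow_eq_pow_sum, ← Finset.prod_mul_distrib]
    refine Finset.prod_congr rfl fun b _ => ?_
    rw [mul_pow]
    congr 1
    split_ifs
    · rw [one_mul]
    · rw [one_pow, zero_mul, pow_zero]
  rw [h1]
  ring

lemma upB_smul (i : Fin r) (u : Vr n → F) (w : Fin (n i + 1) → F) (t : F) :
    upB i u (fun l => t * w l) = fun b => (if b.1 = i then t else 1) * upB i u w b := by
  funext b
  obtain ⟨k, j⟩ := b
  by_cases h : k = i
  · subst h
    rw [upB_self, upB_self, if_pos rfl]
  · rw [upB_ne _ _ _ _ h, upB_ne _ _ _ _ h, if_neg h, one_mul]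

variable {α : Type*} [Fintype α]

lemma eval_FB (C : α → α → MvPolynomial (Vr n) F) (u : Vr n → F) (z : α → F) (i : Fin r)
    (w : Fin (n i + 1) → F) :
    MvPolynomial.eval w (FB C u z i) = Bf C (upB i u w) z z := by
  unfold FB Bf
  rw [map_sum]
  refine Finset.sum_congr rfl fun a _ => ?_
  rw [map_sum]
  refine Finset.sum_congr rfl fun b _ => ?_
  rw [map_mul, MvPolynomial.eval_C, eval_Gi]
  ring

lemma eval_FB_smul (C : α → α → MvPolynomial (Vr n) F) (hC : ∀ a b, MH (fun _ => 3) (C a b))
    (u : Vr n → F) (z : α → F) (i : Fin r) (w : Fin (n i + 1) → F) (t : F) :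
    MvPolynomial.eval (fun l => t * w l) (FB C u z i) =
      t ^ 3 * MvPolynomial.eval w (FB C u z i) := by
  rw [eval_FB, eval_FB, upB_smul]
  unfold Bf
  rw [Finset.mul_sum]
  refine Finset.sum_congr rfl fun a _ => ?_
  rw [Finset.mul_sum]
  refine Finset.sum_congr rfl fun b _ => ?_
  rw [eval_hom i (C a b) (hC a b)]
  ring

lemma eval_lnP {m : ℕ} (G : MvPolynomial (Fin m) F) (p e : Fin m → F) (s : F) :
    (lnP G p e).eval s = MvPolynomial.eval (fun j => p j + e j * s) G := by
  induction G using MvPolynomial.induction_on with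
  | C a => simp [lnP]
  | add p q hp hq =>
    simp only [lnP, map_add, Polynomial.eval_add] at *
    rw [hp, hq]
  | mul_X p b hp =>
    simp only [lnP, map_mul, MvPolynomial.aeval_X, MvPolynomial.eval_X, Polynomial.eval_mul] at *
    rw [hp]
    simp

lemma eval_plP {m : ℕ} (G : MvPolynomial (Fin m) F) (p e e' : Fin m → F) (y : Fin 3 → F) :
    MvPolynomial.eval y (plP G p e e') =
      MvPolynomial.eval (fun j => p j * y 0 + e j * y 1 + e' j * y 2) G := by
  induction G using MvPolynomial.induction_on with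
  | C a => simp [plP]
  | add p q hp hq =>
    simp only [plP, map_add] at *
    rw [hp, hq]
  | mul_X p b hp =>
    simp only [plP, map_mul, MvPolynomial.aeval_X, MvPolynomial.eval_X] at *
    rw [hp]
    simp

end hyp

theorem t_HYP : S_HYP := by
  intro F _ _ r n i α _ C hC u ε ε' z hz
  have key : ∀ s t : F, MvPolynomial.eval (fun l => u ⟨i, l⟩ + s * ε l + t * ε' l)
      (FB C u z i) = cub (c9 C u (hat i ε) (hat i ε') z) s t := by
    intro s t
    rw [eval_FB, upB_plane, t_DEG F r n i α C hC ε ε' u z s t, hz, zero_add]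
  set c := c9 C u (hat i ε) (hat i ε') z with hc
  have hline : ∀ a b : F, lnP (FB C u z i) (fun l => u ⟨i, l⟩) (fun l => a * ε l + b * ε' l) =
      Polynomial.C (a * c 0 + b * c 1) * Polynomial.X +
      Polynomial.C (a ^ 2 * c 2 + a * b * c 3 + b ^ 2 * c 4) * Polynomial.X ^ 2 +
      Polynomial.C (a ^ 3 * c 5 + a ^ 2 * b * c 6 + a * b ^ 2 * c 7 + b ^ 3 * c 8) *
        Polynomial.X ^ 3 := by
    intro a b
    refine Polynomial.funext fun s => ?_
    rw [eval_lnP]
    have h1 : (fun l => u ⟨i, l⟩ + (a * ε l + b * ε' l) * s) =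
        fun l => u ⟨i, l⟩ + (a * s) * ε l + (b * s) * ε' l := by
      funext l
      ring
    rw [h1, key (a * s) (b * s)]
    simp only [cub, Polynomial.eval_add, Polynomial.eval_mul, Polynomial.eval_C,
      Polynomial.eval_X, Polynomial.eval_pow]
    ring
  have hl1 := hline 1 0
  have hl2 := hline 0 1
  have e1 : (fun l => (1 : F) * ε l + 0 * ε' l) = ε := by
    funext l
    ring
  have e2 : (fun l => (0 : F) * ε l + 1 * ε' l) = ε' := by
    funext l
    ring
  rw [e1] at hl1
  rw [e2] at hl2
  refine ⟨?_, ?_, ?_, ?_, ?_, fun a b => ⟨?_, ?_, ?_⟩⟩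
  · have h0 : (MvPolynomial.X 0 : MvPolynomial (Fin 3) F) *
        (plP (FB C u z i) (fun l => u ⟨i, l⟩) ε ε' - tern c) = 0 := by
      refine MvPolynomial.funext fun y => ?_
      rw [map_mul, map_sub, MvPolynomial.eval_X, map_zero]
      by_cases hy : y 0 = 0
      · rw [hy, zero_mul]
      · have h1 : (fun l => u ⟨i, l⟩ * y 0 + ε l * y 1 + ε' l * y 2) =
            fun l => y 0 * (u ⟨i, l⟩ + (y 1 / y 0) * ε l + (y 2 / y 0) * ε' l) := by
          funext l
          field_simp
        rw [eval_plP, h1, eval_FB_smul C hC, key]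
        have h2 : y 0 ^ 3 * cub c (y 1 / y 0) (y 2 / y 0) - MvPolynomial.eval y (tern c) = 0 := by
          simp only [tern, cub, map_add, map_mul, map_pow, MvPolynomial.eval_X,
            MvPolynomial.eval_C]
          field_simp
          ring
        rw [h2, mul_zero]
    rcases mul_eq_zero.1 h0 with h | h
    · exact absurd h (MvPolynomial.X_ne_zero 0)
    · exact sub_eq_zero.1 h
  · rw [hl1]
    simp [Polynomial.coeff_X_pow, Polynomial.coeff_X]
  · rw [hl2]
    simp [Polynomial.coeff_X_pow, Polynomial.coeff_X]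
  · rw [hl1]
    simp [Polynomial.coeff_X_pow, Polynomial.coeff_X]
  · rw [hl1]
    simp [Polynomial.coeff_X_pow, Polynomial.coeff_X]
  · rw [hline a b]
    simp [Polynomial.coeff_X_pow, Polynomial.coeff_X]
  · rw [hline a b]
    simp only [Polynomial.coeff_add, Polynomial.coeff_C_mul, Polynomial.coeff_X,
      Polynomial.coeff_X_pow]
    norm_num
  · rw [hline a b]
    simp only [Polynomial.coeff_add, Polynomial.coeff_C_mul, Polynomial.coeff_X,
      Polynomial.coeff_X_pow]
    norm_num

end Pool.Agent.K6.H43.GH
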