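import Pool.Agent.K6.H43.GH.Alg

/-!
# ISO: the orthogonal complement of an isotropic vector (helper98)
-/

set_option autoImplicit false
set_option linter.unusedVariables false

namespace Pool.Agent.K6.H43.GH

theorem t_ISO : S_ISO := by
  intro M _ _ α _ _ b hsym hdet hcard z hz hzz
  by_contra hcon
  push Not at hcon
  set B := Matrix.toBilin' b with hBdef
  have hB : ∀ x y : α → M, B x y = ∑ i, ∑ j, b i j * x i * y j := by
    intro x y
    rw [hBdef, Matrix.toBilin'_apply]
    exact Finset.sum_congr rfl fun i _ => Finset.sum_congr rfl fun j _ => by ring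
  have hs : ∀ x y : α → M, B x y = B y x := by
    intro x y
    rw [hB, hB, Finset.sum_comm]
    exact Finset.sum_congr rfl fun i _ => Finset.sum_congr rfl fun j _ => by
      rw [hsym j i]; ring
  have hnd : ∀ x : α → M, (∀ y, B x y = 0) → x = 0 := by
    intro x hx
    have hdet' : b.transpose.det ≠ 0 := by rwa [Matrix.det_transpose]
    refine Matrix.eq_zero_of_mulVec_eq_zero hdet' ?_
    funext j
    have := hx (Pi.single j 1)
    rw [hB] at this
    rw [Matrix.mulVec, Pi.zero_apply, ← this]
    refine Finset.sum_congr rfl fun i _ => ?_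
    rw [Finset.sum_eq_single j]
    · simp [Matrix.transpose_apply]
    · intro k _ hk
      simp [hk]
    · intro hj
      exact absurd (Finset.mem_univ j) hj
  have hH : ∀ w w' : α → M, B z w = 0 → B z w' = 0 → B w w' = 0 := by
    intro w w' h h'
    have e1 : B w w = 0 := by rw [hB]; exact hcon w (by rw [← hB]; exact h)
    have e2 : B w' w' = 0 := by rw [hB]; exact hcon w' (by rw [← hB]; exact h')
    have e3 : B (w + w') (w + w') = 0 := by
      rw [hB]
      exact hcon (w + w') (by rw [← hB, map_add, h, h', add_zero])
    simp only [map_add, LinearMap.add_apply] at e3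
    have e4 : B w' w = B w w' := hs _ _
    have e5 : 2 * B w w' = 0 := by linear_combination e3 - e1 - e2 - e4
    exact (mul_eq_zero.1 e5).resolve_left two_ne_zero
  obtain ⟨y₀, hy₀⟩ : ∃ y, B z y ≠ 0 := by
    by_contra h
    push Not at h
    exact hz (hnd z h)
  have hker : LinearMap.ker (B z) ≤ Submodule.span M {z} := by
    intro w hw
    rw [LinearMap.mem_ker] at hw
    rw [Submodule.mem_span_singleton]
    refine ⟨B w y₀ / B z y₀, ?_⟩
    have : w - (B w y₀ / B z y₀) • z = 0 := by
      refine hnd _ fun y => ?_
      have h1 : B z (y - (B z y / B z y₀) • y₀) = 0 := by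
        rw [map_sub, map_smul, smul_eq_mul, div_mul_cancel₀ _ hy₀, sub_self]
      have h2 := hH w _ hw h1
      rw [map_sub, map_smul, smul_eq_mul] at h2
      rw [map_sub, map_smul, LinearMap.sub_apply, LinearMap.smul_apply, smul_eq_mul]
      have h3 : B w y = B z y / B z y₀ * B w y₀ := sub_eq_zero.1 h2
      rw [h3]; ring
    exact (sub_eq_zero.1 this).symm
  have h1 := LinearMap.finrank_range_add_finrank_ker (B z)
  have h2 : Module.finrank M (LinearMap.range (B z)) ≤ 1 :=
    (Submodule.finrank_le _).trans (Module.finrank_self M).le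
  have h3 : Module.finrank M (LinearMap.ker (B z)) ≤ 1 :=
    (Submodule.finrank_mono hker).trans (finrank_span_singleton hz).le
  rw [Module.finrank_pi] at h1
  omega

end Pool.Agent.K6.H43.GH
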