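import Pool.Agent.K6.H43.GH.Alg

/-!
# LCP: the degree and the leading coefficient (helper98)
-/

set_option autoImplicit false
set_option linter.unusedVariables false

open Polynomial

namespace Pool.Agent.K6.H43.GH

namespace Lcp

variable {A : Type*} [CommRing A]

/-- degree at most `n` with coefficient `c` -/
def LC (n : ℕ) (p : Polynomial A) (c : A) : Prop := p.natDegree ≤ n ∧ p.coeff n = c

theorem LC.add {n : ℕ} {p q : Polynomial A} {c d : A} (hp : LC n p c) (hq : LC n q d) :
    LC n (p + q) (c + d) :=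
  ⟨(natDegree_add_le _ _).trans (max_le hp.1 hq.1), by rw [coeff_add, hp.2, hq.2]⟩

theorem LC.sub {n : ℕ} {p q : Polynomial A} {c d : A} (hp : LC n p c) (hq : LC n q d) :
    LC n (p - q) (c - d) :=
  ⟨(natDegree_sub_le _ _).trans (max_le hp.1 hq.1), by rw [coeff_sub, hp.2, hq.2]⟩

theorem LC.mul {n m : ℕ} {p q : Polynomial A} {c d : A} (hp : LC n p c) (hq : LC m q d) :
    LC (n + m) (p * q) (c * d) :=
  ⟨natDegree_mul_le.trans (add_le_add hp.1 hq.1), by
    rw [coeff_mul_add_eq_of_natDegree_le hp.1 hq.1, hp.2, hq.2]⟩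

theorem LC.cst (a : A) : LC 0 (Polynomial.C a) a :=
  ⟨(natDegree_C a).le, coeff_C_zero⟩

theorem LC.two : LC 0 (2 : Polynomial A) 2 := by
  have := LC.cst (2 : A)
  rwa [map_ofNat] at this

theorem LC.sum {ι : Type*} (s : Finset ι) {n : ℕ} {p : ι → Polynomial A} {c : ι → A}
    (h : ∀ i ∈ s, LC n (p i) (c i)) : LC n (∑ i ∈ s, p i) (∑ i ∈ s, c i) :=
  ⟨natDegree_sum_le_of_forall_le s p fun i hi => (h i hi).1, by
    rw [finsetSum_coeff]; exact Finset.sum_congr rfl fun i hi => (h i hi).2⟩

theorem LC.sq {n : ℕ} {p : Polynomial A} {c : A} (hp : LC n p c) : LC (n + n) (p ^ 2) (c ^ 2) := by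
  rw [pow_two, pow_two]; exact hp.mul hp

variable {α β : Type*} [Fintype α]

theorem eval_map_C (u : β → A) (p : MvPolynomial β A) :
    MvPolynomial.eval (fun c => Polynomial.C (u c)) (MvPolynomial.map Polynomial.C p) =
      Polynomial.C (MvPolynomial.eval u p) := by
  rw [MvPolynomial.eval_map]
  exact (MvPolynomial.eval₂_comp_left (Polynomial.C : A →+* Polynomial A) (RingHom.id A) u p).symm

theorem LC.bf {n m : ℕ} (C : α → α → MvPolynomial β A) (u : β → A) {X Y : α → Polynomial A}
    {x y : α → A} (hX : ∀ i, LC n (X i) (x i)) (hY : ∀ i, LC m (Y i) (y i)) :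
    LC (n + m) (Bf (mC Polynomial.C C) (fun c => Polynomial.C (u c)) X Y) (Bf C u x y) := by
  unfold Bf mC
  refine LC.sum _ fun i _ => LC.sum _ fun j _ => ?_
  rw [eval_map_C]
  have := ((LC.cst (MvPolynomial.eval u (C i j))).mul (hX i)).mul (hY j)
  rwa [zero_add] at this

theorem pl_map {S : Type*} [CommRing S] (φ : A →+* S) (g : MvPolynomial β A) (u e e' : β → A) :
    pl (MvPolynomial.map φ g) (fun c => φ (u c)) (fun c => φ (e c)) (fun c => φ (e' c)) =
      (pl g u e e').map (Polynomial.mapRingHom φ) := by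
  unfold pl
  induction g using MvPolynomial.induction_on with
  | C a => simp
  | add p q hp hq => rw [map_add, map_add, hp, hq, map_add, Polynomial.map_add]
  | mul_X p b hp =>
    simp only [map_mul, hp, MvPolynomial.map_X, MvPolynomial.aeval_X, Polynomial.map_mul,
      Polynomial.map_add, Polynomial.map_C, Polynomial.map_X, Polynomial.coe_mapRingHom]

theorem pl_coeff (C : MvPolynomial β A) (u e e' : β → A) (k l : ℕ) :
    ((pl (MvPolynomial.map (Polynomial.C : A →+* Polynomial A) C) (fun c => Polynomial.C (u c))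
      (fun c => Polynomial.C (e c)) (fun c => Polynomial.C (e' c))).coeff l).coeff k =
      Polynomial.C (((pl C u e e').coeff l).coeff k) := by
  rw [pl_map, Polynomial.coeff_map, Polynomial.coe_mapRingHom, Polynomial.coeff_map]

theorem LC.cf {n : ℕ} (C : α → α → MvPolynomial β A) (u e e' : β → A) {X : α → Polynomial A}
    {x : α → A} (hX : ∀ i, LC n (X i) (x i)) (k l : ℕ) :
    LC (n + n) (cf (mC Polynomial.C C) (fun c => Polynomial.C (u c)) (fun c => Polynomial.C (e c))
      (fun c => Polynomial.C (e' c)) X k l) (cf C u e e' x k l) := by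
  unfold GH.cf mC
  refine LC.sum _ fun i _ => LC.sum _ fun j _ => ?_
  rw [pl_coeff]
  have := ((LC.cst (((pl (C i j) u e e').coeff l).coeff k)).mul (hX i)).mul (hX j)
  rwa [zero_add] at this

theorem LC.rp {n m : ℕ} (C : α → α → MvPolynomial β A) (u : β → A) (x : α → A)
    {X : α → Polynomial A} {y : α → A} (hX : ∀ i, LC 1 (X i) (y i)) (a : α) :
    LC 2 (Rp (mC Polynomial.C C) (fun c => Polynomial.C (u c)) (fun c => Polynomial.C (x c)) X a)
      (Rp C u x y a) := by
  unfold Rp
  have h1 := (LC.bf C u hX hX).mul (LC.cst (x a))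
  have h2 := (LC.two.mul (LC.bf C u (fun i => LC.cst (x i)) hX)).mul (hX a)
  exact h1.sub h2

theorem LC.ph {X : Fin 9 → Polynomial A} {x : Fin 9 → A} (hX : ∀ i, LC 4 (X i) (x i)) :
    LC 12 (Ph X) (Ph x) := by
  unfold Ph
  exact (((hX 2).mul (hX 1).sq).sub (((hX 3).mul (hX 0)).mul (hX 1))).add ((hX 4).mul (hX 0).sq)

end Lcp

open Lcp in
theorem t_LCP : S_LCP := by
  intro A _ α β _ C u e e' x a b
  have h1 : ∀ i, LC 1 (Polynomial.C (a i) + Polynomial.C (b i) * Polynomial.X) (b i) := by
    intro i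
    refine ⟨?_, by simp⟩
    refine (natDegree_add_le _ _).trans (max_le (by simp) ?_)
    exact (natDegree_C_mul_le _ _).trans natDegree_X_le
  have h := LC.ph (X := c9t C u e e' x a b) (x := c9 C u e e' (Rp C u x b)) fun m =>
    LC.cf C u e e' (fun i => LC.rp (n := 0) (m := 0) C u x h1 i) _ _
  exact h

end Pool.Agent.K6.H43.GH
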