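import Pool.Agent.K6.H43.GH.Stm

/-!
# NEA9: infinite order along a curve through a flex (helper38)
-/

set_option autoImplicit false
set_option linter.unusedVariables false

open WeierstrassCurve Filter Topology Pool.Agent.Y720.MZ

namespace Pool.Agent.K6.H43.GH

namespace Nea

section map

variable {R S : Type*} [CommRing R] [CommRing S] (φ : R →+* S)

lemma Ph_map (c : Fin 9 → R) : Ph (fun m => φ (c m)) = φ (Ph c) := by
  simp only [Ph, map_add, map_sub, map_mul, map_pow]

lemma q9_map (c : Fin 9 → R) (j : Fin 4) : q9 (fun m => φ (c m)) j = φ (q9 c j) := by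
  fin_cases j <;> simp [q9, Ph_map, map_ofNat]

end map

section poly

variable {K : Type*} [Field K] [CharZero K]

/-- The multiples by powers of two are different for all but finitely many values. -/
theorem itd_fin {a b c N D : Polynomial K} {M : Type*} [Field M] [Algebra K M] {s₀ : M}
    (hD : Polynomial.aeval s₀ D = 0) (hD0 : D ≠ 0) (hN : Polynomial.aeval s₀ N ≠ 0) (B : ℕ) :
    {s : K | ¬((∀ i ≤ B, (itd (a.eval s) (b.eval s) (c.eval s) (N.eval s, D.eval s) i).2 ≠ 0) ∧
      ∀ i ≤ B, ∀ j ≤ B, i ≠ j →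
        (itd (a.eval s) (b.eval s) (c.eval s) (N.eval s, D.eval s) i).1 *
          (itd (a.eval s) (b.eval s) (c.eval s) (N.eval s, D.eval s) j).2 -
        (itd (a.eval s) (b.eval s) (c.eval s) (N.eval s, D.eval s) j).1 *
          (itd (a.eval s) (b.eval s) (c.eval s) (N.eval s, D.eval s) i).2 ≠ 0)}.Finite := by
  classical
  have : CharZero M := charZero_of_injective_algebraMap (algebraMap K M).injective
  -- the polynomials
  set q : ℕ → Polynomial K × Polynomial K := fun i => itd a b c (N, D) i with hq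
  have hev : ∀ (s : K) (i : ℕ), itd (a.eval s) (b.eval s) (c.eval s) (N.eval s, D.eval s) i =
      ((q i).1.eval s, (q i).2.eval s) := by
    intro s i
    exact itd_map (Polynomial.evalRingHom s) a b c (N, D) i
  -- the pole
  set φ : Polynomial K →+* M := (Polynomial.aeval s₀ : Polynomial K →ₐ[K] M).toRingHom with hφ
  have hφD : φ D = 0 := hD
  have hφN : φ N ≠ 0 := hN
  choose G hG1 hG2 using fun i : ℕ => itd_pole (a := a) (b := b) (c := c) (N := N) (D := D)
    (π := D) (E := 1) (mul_one D).symm i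
  have hst : ∀ i, φ (q i).1 ≠ 0 ∧ φ (G i) * φ N = 4 ^ i * φ (q i).1 := by
    intro i
    obtain ⟨h1, h2⟩ := hG2 i φ hφD hφN
    rw [map_one, mul_one] at h2
    exact ⟨h1, h2⟩
  have hG0 : ∀ i, φ (G i) ≠ 0 := by
    intro i h0
    have h1 := (hst i).2
    rw [h0, zero_mul] at h1
    exact mul_ne_zero (pow_ne_zero i (by norm_num)) (hst i).1 h1.symm
  have hq2 : ∀ i, (q i).2 ≠ 0 := by
    intro i h0
    have h1 : (q i).2 = D * G i := hG1 i
    rw [h0] at h1
    have h2 := (mul_eq_zero.1 h1.symm).resolve_left hD0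
    exact hG0 i (by rw [h2, map_zero])
  have hqij : ∀ i j, i ≠ j → (q i).1 * (q j).2 - (q j).1 * (q i).2 ≠ 0 := by
    intro i j hij h0
    have h1 : ∀ i, (q i).2 = D * G i := hG1
    have h3 : D * ((q i).1 * G j - (q j).1 * G i) = 0 := by
      rw [h1, h1] at h0
      linear_combination h0
    have h4 := (mul_eq_zero.1 h3).resolve_left hD0
    have h5 := congrArg φ h4
    rw [map_sub, map_mul, map_mul, map_zero] at h5
    obtain ⟨n1, m1⟩ := hst i
    obtain ⟨n2, m2⟩ := hst j
    have h6 : (4 : M) ^ i ≠ 4 ^ j := by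
      intro h
      have h7 : ((4 ^ i : ℕ) : M) = ((4 ^ j : ℕ) : M) := by push_cast; exact h
      have h8 : (4 : ℕ) ^ i = 4 ^ j := Nat.cast_injective h7
      exact hij (Nat.pow_right_injective (le_refl 2 |>.trans (by norm_num)) h8)
    have h8 : (φ (q i).1 * φ (q j).1) * (4 ^ j - 4 ^ i) = 0 := by
      linear_combination φ N * h5 - φ (q i).1 * m2 + φ (q j).1 * m1
    exact mul_ne_zero (mul_ne_zero n1 n2) (sub_ne_zero.2 h6.symm) h8
  -- finiteness
  have hfin1 : {s : K | ∃ i ≤ B, (q i).2.eval s = 0}.Finite := by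
    have : {s : K | ∃ i ≤ B, (q i).2.eval s = 0} = ⋃ i ∈ Finset.range (B + 1),
        {s | (q i).2.IsRoot s} := by
      ext s
      simp
    rw [this]
    exact Set.Finite.biUnion (Finset.finite_toSet _) fun i _ =>
      Polynomial.finite_setOf_isRoot (hq2 i)
  have hfin2 : {s : K | ∃ i ≤ B, ∃ j ≤ B, i ≠ j ∧
      ((q i).1 * (q j).2 - (q j).1 * (q i).2).eval s = 0}.Finite := by
    have : {s : K | ∃ i ≤ B, ∃ j ≤ B, i ≠ j ∧
        ((q i).1 * (q j).2 - (q j).1 * (q i).2).eval s = 0} ⊆
        ⋃ i ∈ Finset.range (B + 1), ⋃ j ∈ Finset.range (B + 1),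
        {s | i ≠ j ∧ ((q i).1 * (q j).2 - (q j).1 * (q i).2).IsRoot s} := by
      rintro s ⟨i, hi, j, hj, hij, h⟩
      simp only [Set.mem_iUnion]
      exact ⟨i, Finset.mem_range.2 (by omega), j, Finset.mem_range.2 (by omega), hij, h⟩
    refine (Set.Finite.biUnion (Finset.finite_toSet _) fun i _ =>
      Set.Finite.biUnion (Finset.finite_toSet _) fun j _ => ?_).subset this
    by_cases hij : i = j
    · refine Set.finite_empty.subset ?_
      rintro s ⟨h, -⟩
      exact absurd hij h
    · exact (Polynomial.finite_setOf_isRoot (hqij i j hij)).subset fun s h => h.2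
  refine (hfin1.union hfin2).subset ?_
  intro s hs
  rw [Set.mem_setOf_eq, not_and_or] at hs
  simp only [hev] at hs
  rcases hs with hs | hs
  · push Not at hs
    left
    exact hs
  · push Not at hs
    obtain ⟨i, hi, j, hj, hij, h⟩ := hs
    right
    refine ⟨i, hi, j, hj, hij, ?_⟩
    rw [Polynomial.eval_sub, Polynomial.eval_mul, Polynomial.eval_mul]
    exact h

end poly

end Nea

open Nea in
theorem t_NEA9 : S_NEA9 := by
  intro F _ _ _ c s₀ h0 h1 hP hd δ hδ
  letI : DecidableEq F := Classical.decEq F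
  set P : Polynomial F := Ph c with hPdef
  set Q : Fin 4 → Polynomial F := q9 c with hQdef
  have hPe : ∀ u, Ph (fun m => (c m).eval u) = P.eval u := fun u =>
    Ph_map (Polynomial.evalRingHom u) c
  have hQe : ∀ u j, q9 (fun m => (c m).eval u) j = (Q j).eval u := fun u j =>
    q9_map (Polynomial.evalRingHom u) c j
  set A : Polynomial F := Q 1 with hA
  set B : Polynomial F := Q 0 * Q 2 - 4 * P ^ 2 * Q 3 with hB
  set C : Polynomial F := Q 0 ^ 2 * Q 3 + P ^ 2 * Q 2 ^ 2 - 4 * P ^ 2 * Q 1 * Q 3 with hC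
  set N : Polynomial F := Q 0 ^ 2 - 4 * P ^ 2 * Q 1 with hN
  obtain ⟨D, hD⟩ : ∃ D : Polynomial F, D = 4 * P ^ 2 := ⟨_, rfl⟩
  have hD0 : Polynomial.aeval s₀ D = 0 := by
    rw [hD, map_mul, map_pow, h0]
    ring
  have hN0 : Polynomial.aeval s₀ N ≠ 0 := by
    have e1 : Polynomial.aeval s₀ N = Polynomial.aeval s₀ (Q 0) ^ 2 := by
      rw [hN, map_sub, map_mul, map_mul, map_pow, map_pow, h0]
      ring
    rw [e1]
    exact pow_ne_zero 2 h1
  have hPne : P ≠ 0 := by
    intro h
    apply hP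
    rw [hPe, h, Polynomial.eval_zero]
  have hDne : D ≠ 0 := by
    rw [hD]
    exact mul_ne_zero (by norm_num) (pow_ne_zero 2 hPne)
  have hAe : ∀ u, tA (th9 (fun m => (c m).eval u)) = A.eval u := fun u => hQe u 1
  have hBe : ∀ u, tB (th9 (fun m => (c m).eval u)) = B.eval u := by
    intro u
    simp only [hB, Polynomial.eval_sub, Polynomial.eval_mul, Polynomial.eval_ofNat,
      Polynomial.eval_pow, ← hQe, ← hPe]
    rfl
  have hCe : ∀ u, tC (th9 (fun m => (c m).eval u)) = C.eval u := by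
    intro u
    simp only [hC, Polynomial.eval_sub, Polynomial.eval_add, Polynomial.eval_mul,
      Polynomial.eval_ofNat, Polynomial.eval_pow, ← hQe, ← hPe]
    rfl
  have hTe : ∀ u, dsc (tA (th9 (fun m => (c m).eval u))) (tB (th9 (fun m => (c m).eval u)))
      (tC (th9 (fun m => (c m).eval u))) = (dsc A B C).eval u := by
    intro u
    rw [hAe, hBe, hCe]
    simp only [dsc, Polynomial.eval_sub, Polynomial.eval_add, Polynomial.eval_mul,
      Polynomial.eval_pow, Polynomial.eval_ofNat]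
  have hT0 : dsc A B C ≠ 0 := by
    intro h
    apply hd
    rw [ds9_eq, hTe, h, Polynomial.eval_zero]
  have hfinT : {u : F | (dsc A B C).eval u = 0}.Finite := Polynomial.finite_setOf_isRoot hT0
  have hfinP : {u : F | P.eval u = 0}.Finite := Polynomial.finite_setOf_isRoot hPne
  have hcnt : (⋃ m : ℕ, {u : F | ¬((∀ i ≤ m, (itd (A.eval u) (B.eval u) (C.eval u)
      (N.eval u, D.eval u) i).2 ≠ 0) ∧ ∀ i ≤ m, ∀ j ≤ m, i ≠ j →
        (itd (A.eval u) (B.eval u) (C.eval u) (N.eval u, D.eval u) i).1 *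
          (itd (A.eval u) (B.eval u) (C.eval u) (N.eval u, D.eval u) j).2 -
        (itd (A.eval u) (B.eval u) (C.eval u) (N.eval u, D.eval u) j).1 *
          (itd (A.eval u) (B.eval u) (C.eval u) (N.eval u, D.eval u) i).2 ≠ 0)}).Countable :=
    Set.countable_iUnion fun m =>
      (itd_fin (a := A) (b := B) (c := C) hD0 hDne hN0 m).countable
  have hdense := (Set.Countable.dense_compl F
    (hcnt.union (hfinT.countable.union hfinP.countable)))
  obtain ⟨u, hu1, hu2⟩ := Metric.dense_iff.1 hdense 0 δ hδ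
  rw [mem_ball_zero_iff] at hu1
  rw [Set.mem_compl_iff, Set.mem_union, Set.mem_union, not_or, not_or] at hu2
  obtain ⟨g1, g2, g3⟩ := hu2
  have g3' : Ph (fun m => (c m).eval u) ≠ 0 := by
    rw [hPe]; exact g3
  refine ⟨u, hu1, g3', ?_, ?_⟩
  · rw [hTe]
    exact g2
  · intro h n hn
    have g4 : (∀ i ≤ n, (itd (A.eval u) (B.eval u) (C.eval u)
      (N.eval u, D.eval u) i).2 ≠ 0) ∧ ∀ i ≤ n, ∀ j ≤ n, i ≠ j →
        (itd (A.eval u) (B.eval u) (C.eval u) (N.eval u, D.eval u) i).1 *
          (itd (A.eval u) (B.eval u) (C.eval u) (N.eval u, D.eval u) j).2 -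
        (itd (A.eval u) (B.eval u) (C.eval u) (N.eval u, D.eval u) j).1 *
          (itd (A.eval u) (B.eval u) (C.eval u) (N.eval u, D.eval u) i).2 ≠ 0 := by
      by_contra hcon
      exact g1 (Set.mem_iUnion.2 ⟨n, hcon⟩)
    have hx : tX (th9 (fun m => (c m).eval u)) * D.eval u = N.eval u := by
      have e1 : D.eval u = 4 * Ph (fun m => (c m).eval u) ^ 2 := by
        rw [hPe, hD, Polynomial.eval_mul, Polynomial.eval_pow, Polynomial.eval_ofNat]
      have e2 : N.eval u = q9 (fun m => (c m).eval u) 0 ^ 2 -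
          4 * Ph (fun m => (c m).eval u) ^ 2 * q9 (fun m => (c m).eval u) 1 := by
        simp only [hN, Polynomial.eval_sub, Polynomial.eval_mul, Polynomial.eval_pow,
          Polynomial.eval_ofNat, hQe, hPe]
      rw [e2, e1]
      simp only [tX, th9, xs]
      field_simp
    revert h
    rw [hAe u, hBe u, hCe u]
    intro h
    exact nontor_of_itd (N := N.eval u) (D := D.eval u) h hx g4.1 g4.2 n hn le_rfl

end Pool.Agent.K6.H43.GH
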