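import Pool.Agent.K6.H43.GH.Alg

/-! # call43b, piece NPL (helper59): a polynomial whose nonvanishing implies the conditions -/

set_option autoImplicit false
set_option linter.unusedVariables false

namespace Pool.Agent.K6.H43.GH.NplAux

open Pool.Agent.K6.H43.GH

section maps

variable {R S : Type*} [CommRing R] [CommRing S] (θ : R →+* S) {α β : Type*} [Fintype α]

lemma eval_m (u : β → R) (p : MvPolynomial β R) :
    θ (MvPolynomial.eval u p) = MvPolynomial.eval (fun b => θ (u b)) (MvPolynomial.map θ p) := by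
  induction p using MvPolynomial.induction_on with
  | C a => simp
  | add p q hp hq => simp [hp, hq]
  | mul_X p b hp => simp [hp]

lemma Bf_m (C : α → α → MvPolynomial β R) (u : β → R) (x y : α → R) :
    θ (Bf C u x y) = Bf (mC θ C) (fun b => θ (u b)) (fun a => θ (x a)) (fun a => θ (y a)) := by
  unfold Bf mC
  simp only [map_sum, map_mul, eval_m]

lemma Rp_m (C : α → α → MvPolynomial β R) (u : β → R) (x m : α → R) (a : α) :
    θ (Rp C u x m a) =
      Rp (mC θ C) (fun b => θ (u b)) (fun a => θ (x a)) (fun a => θ (m a)) a := by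
  unfold Rp
  simp only [map_sub, map_mul, Bf_m, map_ofNat]

lemma pl_m (g : MvPolynomial β R) (u e e' : β → R) :
    pl (MvPolynomial.map θ g) (fun b => θ (u b)) (fun b => θ (e b)) (fun b => θ (e' b)) =
      (pl g u e e').map (Polynomial.mapRingHom θ) := by
  unfold pl
  induction g using MvPolynomial.induction_on with
  | C a => simp [Polynomial.algebraMap_apply]
  | add p q hp hq => rw [map_add, map_add, map_add, Polynomial.map_add, hp, hq]
  | mul_X p b hp =>
    rw [map_mul, map_mul, map_mul, Polynomial.map_mul, hp, MvPolynomial.map_X,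
      MvPolynomial.aeval_X, MvPolynomial.aeval_X]
    simp

lemma c9_m (C : α → α → MvPolynomial β R) (u e e' : β → R) (x : α → R) (m : Fin 9) :
    θ (c9 C u e e' x m) =
      c9 (mC θ C) (fun b => θ (u b)) (fun b => θ (e b)) (fun b => θ (e' b)) (fun a => θ (x a)) m := by
  unfold c9 cf mC
  simp only [map_sum, map_mul, pl_m, Polynomial.coeff_map, Polynomial.coe_mapRingHom]

lemma Ph_m (c : Fin 9 → R) : θ (Ph c) = Ph (fun m => θ (c m)) := by
  unfold Ph
  simp only [map_sub, map_add, map_mul, map_pow]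

lemma q9_m (c : Fin 9 → R) (k : Fin 4) : θ (q9 c k) = q9 (fun m => θ (c m)) k := by
  fin_cases k <;> simp [q9, Ph, map_ofNat θ]

lemma ds9_m (c : Fin 9 → R) : θ (ds9 c) = ds9 (fun m => θ (c m)) := by
  unfold ds9 dq4 dc3
  simp only [map_sub, map_add, map_mul, map_pow, map_ofNat, q9_m, Ph_m]

omit [Fintype α] in
lemma mC_comp {T : Type*} [CommRing T] (φ : S →+* T) (C : α → α → MvPolynomial β R) :
    mC φ (mC θ C) = mC (φ.comp θ) C := by
  funext i j
  unfold mC
  rw [MvPolynomial.map_map]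

omit [Fintype α] in
lemma mC_id (C : α → α → MvPolynomial β R) : mC (RingHom.id R) C = C := by
  funext i j
  unfold mC
  rw [MvPolynomial.map_id]

lemma c9t_m {R S : Type*} [CommRing R] [CommRing S] (θ : R →+* S)
    (C : α → α → MvPolynomial β R) (u e e' : β → R) (x a b : α → R) (m : Fin 9) :
    (c9t C u e e' x a b m).map θ =
      c9t (mC θ C) (fun b => θ (u b)) (fun b => θ (e b)) (fun b => θ (e' b)) (fun c => θ (x c))
        (fun c => θ (a c)) (fun c => θ (b c)) m := by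
  unfold c9t
  have h := c9_m (Polynomial.mapRingHom θ)
    (mC Polynomial.C C) (fun c => Polynomial.C (u c)) (fun c => Polynomial.C (e c))
    (fun c => Polynomial.C (e' c))
    (Rp (mC Polynomial.C C) (fun c => Polynomial.C (u c)) (fun c => Polynomial.C (x c))
      (fun c => Polynomial.C (a c) + Polynomial.C (b c) * Polynomial.X)) m
  rw [Polynomial.coe_mapRingHom] at h
  rw [h]
  have h1 : mC (Polynomial.mapRingHom θ) (mC Polynomial.C C) = mC Polynomial.C (mC θ C) := by
    rw [mC_comp, mC_comp]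
    congr 1
    ext y
    simp
  rw [h1]
  congr 1
  · funext c; simp
  · funext c; simp
  · funext c; simp
  · funext c
    have h2 := Rp_m (Polynomial.mapRingHom θ) (mC Polynomial.C C) (fun c => Polynomial.C (u c))
      (fun c => Polynomial.C (x c)) (fun c => Polynomial.C (a c) + Polynomial.C (b c) * Polynomial.X) c
    rw [Polynomial.coe_mapRingHom] at h2
    rw [h2, h1]
    congr 1
    · funext c; simp
    · funext c; simp
    · funext c; simp

lemma c9t_eval {R : Type*} [CommRing R]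
    (C : α → α → MvPolynomial β R) (u e e' : β → R) (x a b : α → R) (t : R) (m : Fin 9) :
    (c9t C u e e' x a b m).eval t =
      c9 C u e e' (Rp C u x (fun c => a c + b c * t)) m := by
  unfold c9t
  have h := c9_m (Polynomial.evalRingHom t)
    (mC Polynomial.C C) (fun c => Polynomial.C (u c)) (fun c => Polynomial.C (e c))
    (fun c => Polynomial.C (e' c))
    (Rp (mC Polynomial.C C) (fun c => Polynomial.C (u c)) (fun c => Polynomial.C (x c))
      (fun c => Polynomial.C (a c) + Polynomial.C (b c) * Polynomial.X)) m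
  rw [Polynomial.coe_evalRingHom] at h
  rw [h]
  have h1 : mC (Polynomial.evalRingHom t) (mC Polynomial.C C) = C := by
    rw [mC_comp]
    have : (Polynomial.evalRingHom t).comp Polynomial.C = RingHom.id R := by
      ext y
      simp
    rw [this, mC_id]
  rw [h1]
  congr 1
  · funext c; simp
  · funext c; simp
  · funext c; simp
  · funext c
    have h2 := Rp_m (Polynomial.evalRingHom t) (mC Polynomial.C C) (fun c => Polynomial.C (u c))
      (fun c => Polynomial.C (x c)) (fun c => Polynomial.C (a c) + Polynomial.C (b c) * Polynomial.X) c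
    rw [Polynomial.coe_evalRingHom] at h2
    rw [h2, h1]
    congr 1
    · funext c; simp
    · funext c; simp
    · funext c; simp

end maps

section hom

variable {R : Type*} [CommRing R] {α β : Type*} [Fintype α]

lemma Bf_smul_right (C : α → α → MvPolynomial β R) (u : β → R) (x y : α → R) (k : R) :
    Bf C u x (fun a => k * y a) = k * Bf C u x y := by
  unfold Bf
  simp only [Finset.mul_sum]
  refine Finset.sum_congr rfl fun i _ => Finset.sum_congr rfl fun j _ => ?_
  ring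

lemma Bf_smul_left (C : α → α → MvPolynomial β R) (u : β → R) (x y : α → R) (k : R) :
    Bf C u (fun a => k * x a) y = k * Bf C u x y := by
  unfold Bf
  simp only [Finset.mul_sum]
  refine Finset.sum_congr rfl fun i _ => Finset.sum_congr rfl fun j _ => ?_
  ring

lemma Bf_comm (C : α → α → MvPolynomial β R) (hC : ∀ i j, C i j = C j i) (u : β → R)
    (x y : α → R) : Bf C u x y = Bf C u y x := by
  unfold Bf
  rw [Finset.sum_comm]
  refine Finset.sum_congr rfl fun i _ => Finset.sum_congr rfl fun j _ => ?_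
  rw [hC j i]
  ring

lemma c9_smul (C : α → α → MvPolynomial β R) (u e e' : β → R) (x : α → R) (k : R) (m : Fin 9) :
    c9 C u e e' (fun a => k * x a) m = k ^ 2 * c9 C u e e' x m := by
  unfold c9 cf
  simp only [Finset.mul_sum]
  refine Finset.sum_congr rfl fun i _ => Finset.sum_congr rfl fun j _ => ?_
  ring

lemma Ph_smul (c : Fin 9 → R) (k : R) : Ph (fun m => k * c m) = k ^ 3 * Ph c := by
  unfold Ph
  ring

lemma q9_smul0 (c : Fin 9 → R) (k : R) : q9 (fun m => k * c m) 0 = k ^ 5 * q9 c 0 := by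
  simp only [q9, Matrix.cons_val_zero, Ph]
  ring

lemma q9_smul1 (c : Fin 9 → R) (k : R) : q9 (fun m => k * c m) 1 = k ^ 4 * q9 c 1 := by
  simp [q9, Ph]
  ring

lemma q9_smul2 (c : Fin 9 → R) (k : R) : q9 (fun m => k * c m) 2 = k ^ 3 * q9 c 2 := by
  simp [q9, Ph]
  ring

lemma q9_smul3 (c : Fin 9 → R) (k : R) : q9 (fun m => k * c m) 3 = k ^ 2 * q9 c 3 := by
  simp [q9, Ph]
  ring

lemma ds9_smul (c : Fin 9 → R) (k : R) : ds9 (fun m => k * c m) = k ^ 24 * ds9 c := by
  unfold ds9 dq4 dc3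
  rw [Ph_smul, q9_smul0, q9_smul1, q9_smul2, q9_smul3]
  generalize Ph c = w
  generalize q9 c 0 = a0
  generalize q9 c 1 = a1
  generalize q9 c 2 = a2
  generalize q9 c 3 = a3
  ring

end hom

/-! ### the factors -/

section fac

variable {R : Type*} [CommRing R] {α β : Type*} [Fintype α]

/-- the nonvanishing factors -/
noncomputable def E (C : α → α → MvPolynomial β R) (x : α → R) (u e e' : β → R)
    (a₁ b₁ a₂ b₂ : α → R) : Fin 12 → R
  | 0 => Bf C u x (Rp C u x a₁)
  | 1 => Bf C u (Rp C u x a₁) (Rp C u x a₂)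
  | 2 => Bf C u (Rp C u x a₂) x
  | 3 => Ph (c9 C u e e' (Rp C u x a₁))
  | 4 => ds9 (c9 C u e e' (Rp C u x a₁))
  | 5 => c9 C u e e' (Rp C u x a₁) 1
  | 6 => Ph (c9 C u e e' (Rp C u x a₂))
  | 7 => ds9 (c9 C u e e' (Rp C u x a₂))
  | 8 => c9 C u e e' (Rp C u x a₂) 1
  | 9 => c9 C u e e' (Rp C u x a₁) 0 * c9 C u e e' (Rp C u x a₂) 1 -
      c9 C u e e' (Rp C u x a₁) 1 * c9 C u e e' (Rp C u x a₂) 0
  | 10 => Ph (c9 C u e e' (Rp C u x b₁))
  | 11 => Ph (c9 C u e e' (Rp C u x b₂))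

lemma E_m {S : Type*} [CommRing S] (θ : R →+* S) (C : α → α → MvPolynomial β R) (x : α → R)
    (u e e' : β → R) (a₁ b₁ a₂ b₂ : α → R) (j : Fin 12) :
    θ (E C x u e e' a₁ b₁ a₂ b₂ j) =
      E (mC θ C) (fun a => θ (x a)) (fun b => θ (u b)) (fun b => θ (e b)) (fun b => θ (e' b))
        (fun a => θ (a₁ a)) (fun a => θ (b₁ a)) (fun a => θ (a₂ a)) (fun a => θ (b₂ a)) j := by
  fin_cases j <;> simp only [E, Bf_m, Rp_m, Ph_m, ds9_m, c9_m, map_sub, map_mul]

end fac

section hats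

variable {r : ℕ} {n : Fin r → ℕ}

lemma hat_m {R S : Type*} [CommRing R] [CommRing S] (θ : R →+* S) (i : Fin r)
    (e : Fin (n i + 1) → R) (b : Vr n) : θ (hat i e b) = hat i (fun l => θ (e l)) b := by
  unfold hat
  rcases b with ⟨k, l⟩
  by_cases h : k = i
  · subst h
    simp
  · simp [Function.update_of_ne h]

end hats

/-! ### the universal point -/

section main

variable {K : Type} [Field K] {r : ℕ} {n : Fin r → ℕ} (i : Fin r) (α : Type)

/-- the variables -/
abbrev Sg {r : ℕ} (n : Fin r → ℕ) (i : Fin r) (α : Type) : Type :=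
  (α ⊕ Vr n) ⊕ Pa α (Fin (n i + 1))

/-- the evaluation -/
noncomputable def ev {F : Type} [CommRing F] (φ : K →+* F) (x : α → F) (u : Vr n → F)
    (π : Pa α (Fin (n i + 1)) → F) : MvPolynomial (Sg n i α) K →+* F :=
  MvPolynomial.eval₂Hom φ (Sum.elim (Sum.elim x u) π)

variable {α}

lemma ev_apply {F : Type} [CommRing F] (φ : K →+* F) (x : α → F) (u : Vr n → F)
    (π : Pa α (Fin (n i + 1)) → F) (g : MvPolynomial (Sg n i α) K) :
    ev i α φ x u π g = MvPolynomial.eval₂ φ (Sum.elim (Sum.elim x u) π) g := rfl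

lemma ev_C {F : Type} [CommRing F] (φ : K →+* F) (x : α → F) (u : Vr n → F)
    (π : Pa α (Fin (n i + 1)) → F) : (ev i α φ x u π).comp MvPolynomial.C = φ := by
  ext y
  simp [ev]

variable [Fintype α]

/-- the universal factors -/
noncomputable def UE (C : α → α → MvPolynomial (Vr n) K) (j : Fin 12) :
    MvPolynomial (Sg n i α) K :=
  E (mC (MvPolynomial.C (σ := Sg n i α)) C) (fun a => MvPolynomial.X (Sum.inl (Sum.inl a)))
    (fun b => MvPolynomial.X (Sum.inl (Sum.inr b)))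
    (hat i fun l => MvPolynomial.X (Sum.inr (Sum.inl l)))
    (hat i fun l => MvPolynomial.X (Sum.inr (Sum.inr (Sum.inl l))))
    (fun a => MvPolynomial.X (Sum.inr (Sum.inr (Sum.inr (Sum.inl (Sum.inl a))))))
    (fun a => MvPolynomial.X (Sum.inr (Sum.inr (Sum.inr (Sum.inl (Sum.inr a))))))
    (fun a => MvPolynomial.X (Sum.inr (Sum.inr (Sum.inr (Sum.inr (Sum.inl a))))))
    (fun a => MvPolynomial.X (Sum.inr (Sum.inr (Sum.inr (Sum.inr (Sum.inr a)))))) j

lemma UE_ev {F : Type} [CommRing F] (φ : K →+* F) (x : α → F) (u : Vr n → F)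
    (π : Pa α (Fin (n i + 1)) → F) (C : α → α → MvPolynomial (Vr n) K) (j : Fin 12) :
    ev i α φ x u π (UE i C j) =
      E (mC φ C) x u (hat i fun l => π (Sum.inl l)) (hat i fun l => π (Sum.inr (Sum.inl l)))
        (fun a => π (Sum.inr (Sum.inr (Sum.inl (Sum.inl a)))))
        (fun a => π (Sum.inr (Sum.inr (Sum.inl (Sum.inr a)))))
        (fun a => π (Sum.inr (Sum.inr (Sum.inr (Sum.inl a)))))
        (fun a => π (Sum.inr (Sum.inr (Sum.inr (Sum.inr a))))) j := by
  unfold UE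
  rw [E_m, mC_comp, ev_C]
  congr 1
  · funext a; simp [ev]
  · funext a; simp [ev]
  · funext a; rw [hat_m]; simp [ev]
  · funext a; rw [hat_m]; simp [ev]
  · funext a; simp [ev]
  · funext a; simp [ev]
  · funext a; simp [ev]
  · funext a; simp [ev]

/-- the universal curve coefficients: `b` selects the first or the second pair -/
noncomputable def UT (C : α → α → MvPolynomial (Vr n) K) (b : Bool) :
    Fin 9 → Polynomial (MvPolynomial (Sg n i α) K) :=
  c9t (mC (MvPolynomial.C (σ := Sg n i α)) C)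
    (fun b => MvPolynomial.X (Sum.inl (Sum.inr b)))
    (hat i fun l => MvPolynomial.X (Sum.inr (Sum.inl l)))
    (hat i fun l => MvPolynomial.X (Sum.inr (Sum.inr (Sum.inl l))))
    (fun a => MvPolynomial.X (Sum.inl (Sum.inl a)))
    (fun a => MvPolynomial.X (Sum.inr (Sum.inr (Sum.inr
      (if b then Sum.inl (Sum.inl a) else Sum.inr (Sum.inl a))))))
    (fun a => MvPolynomial.X (Sum.inr (Sum.inr (Sum.inr
      (if b then Sum.inl (Sum.inr a) else Sum.inr (Sum.inr a))))))

lemma UT_ev {F : Type} [CommRing F] (φ : K →+* F) (x : α → F) (u : Vr n → F)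
    (π : Pa α (Fin (n i + 1)) → F) (C : α → α → MvPolynomial (Vr n) K) (b : Bool) (m : Fin 9) :
    (UT i C b m).map (ev i α φ x u π) =
      c9t (mC φ C) u (hat i fun l => π (Sum.inl l)) (hat i fun l => π (Sum.inr (Sum.inl l))) x
        (fun a => π (Sum.inr (Sum.inr (if b then Sum.inl (Sum.inl a) else Sum.inr (Sum.inl a)))))
        (fun a => π (Sum.inr (Sum.inr (if b then Sum.inl (Sum.inr a) else Sum.inr (Sum.inr a))))) m
      := by
  unfold UT
  rw [c9t_m, mC_comp, ev_C]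
  congr 1
  · funext a; simp [ev]
  · funext a; rw [hat_m]; simp [ev]
  · funext a; rw [hat_m]; simp [ev]
  · funext a; simp [ev]
  · funext a; simp [ev]
  · funext a; simp [ev]

lemma PhUT_ev {F : Type} [CommRing F] (φ : K →+* F) (x : α → F) (u : Vr n → F)
    (π : Pa α (Fin (n i + 1)) → F) (C : α → α → MvPolynomial (Vr n) K) (b : Bool) :
    (Ph (UT i C b)).map (ev i α φ x u π) =
      Ph (c9t (mC φ C) u (hat i fun l => π (Sum.inl l)) (hat i fun l => π (Sum.inr (Sum.inl l))) x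
        (fun a => π (Sum.inr (Sum.inr (if b then Sum.inl (Sum.inl a) else Sum.inr (Sum.inl a)))))
        (fun a => π (Sum.inr (Sum.inr (if b then Sum.inl (Sum.inr a) else Sum.inr (Sum.inr a))))))
      := by
  have h := Ph_m (Polynomial.mapRingHom (ev i α φ x u π)) (UT i C b)
  rw [Polynomial.coe_mapRingHom] at h
  rw [h]
  simp only [UT_ev]

lemma qUT_ev {F : Type} [CommRing F] (φ : K →+* F) (x : α → F) (u : Vr n → F)
    (π : Pa α (Fin (n i + 1)) → F) (C : α → α → MvPolynomial (Vr n) K) (b : Bool) :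
    (q9 (UT i C b) 0).map (ev i α φ x u π) =
      q9 (c9t (mC φ C) u (hat i fun l => π (Sum.inl l)) (hat i fun l => π (Sum.inr (Sum.inl l))) x
        (fun a => π (Sum.inr (Sum.inr (if b then Sum.inl (Sum.inl a) else Sum.inr (Sum.inl a)))))
        (fun a => π (Sum.inr (Sum.inr (if b then Sum.inl (Sum.inr a) else Sum.inr (Sum.inr a)))))) 0
      := by
  have h := q9_m (Polynomial.mapRingHom (ev i α φ x u π)) (UT i C b) 0
  rw [Polynomial.coe_mapRingHom] at h
  rw [h]
  simp only [UT_ev]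


omit [Fintype α] in
lemma common {M : Type} [Field M] [CharZero M] (ψ : K →+* M) (z : α → M) (u : Vr n → M)
    {J : Type} (T : Finset J) (g : J → MvPolynomial (Sg n i α) K)
    (h : ∀ j ∈ T, ∃ π, ev i α ψ z u π (g j) ≠ 0) :
    ∃ π, ev i α ψ z u π (∏ j ∈ T, g j) ≠ 0 := by
  classical
  have : Infinite M := Infinite.of_injective ((↑) : ℕ → M) Nat.cast_injective
  let Θ : MvPolynomial (Sg n i α) K →+* MvPolynomial (Pa α (Fin (n i + 1))) M :=
    MvPolynomial.eval₂Hom ((MvPolynomial.C).comp ψ)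
      (Sum.elim (Sum.elim (fun a => MvPolynomial.C (z a)) fun b => MvPolynomial.C (u b))
        MvPolynomial.X)
  have hΘ : ∀ (π : Pa α (Fin (n i + 1)) → M) (g : MvPolynomial (Sg n i α) K),
      MvPolynomial.eval π (Θ g) = ev i α ψ z u π g := by
    intro π g
    have : (MvPolynomial.eval π).comp Θ = ev i α ψ z u π := by
      apply MvPolynomial.ringHom_ext
      · intro a; simp [Θ, ev]
      · rintro ((a | b) | p) <;> simp [Θ, ev]
    rw [← this]
    rfl
  have hne : Θ (∏ j ∈ T, g j) ≠ 0 := by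
    rw [map_prod, Finset.prod_ne_zero_iff]
    intro j hj h0
    obtain ⟨π, hπ⟩ := h j hj
    apply hπ
    rw [← hΘ, h0, map_zero]
  by_contra hcon
  push Not at hcon
  apply hne
  apply MvPolynomial.funext
  intro π
  rw [hΘ, hcon π, map_zero]

end main

/-! ### the geometric point -/

section geo

variable {M : Type} [Field M] [CharZero M] {α β : Type} [Fintype α]

omit [CharZero M] in
lemma Rz {C : α → α → MvPolynomial β M} {u : β → M} {z₀ z₁ : α → M} (h : Bf C u z₁ z₁ = 0) :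
    Rp C u z₀ z₁ = fun a => (-2 * Bf C u z₀ z₁) * z₁ a := by
  funext a
  unfold Rp
  rw [h]
  ring

omit [CharZero M] in
lemma Rw {C : α → α → MvPolynomial β M} {u : β → M} {z₀ w : α → M} (h : Bf C u z₀ w = 0) :
    Rp C u z₀ w = fun a => Bf C u w w * z₀ a := by
  funext a
  unfold Rp
  rw [h]
  ring

lemma E_ne {C : α → α → MvPolynomial β M} (hC : ∀ i j, C i j = C j i) {u e e' : β → M}
    {z₀ z₁ w : α → M} (h : Geo C u e e' z₀ z₁ w) (j : Fin 12) :
    ∃ a₁ b₁ a₂ b₂, E C z₀ u e e' a₁ b₁ a₂ b₂ j ≠ 0 := by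
  obtain ⟨h00, h11, h01, h0w, hww, hPh, hds, hc0, hc10, hc12, hc11, hc15⟩ := h
  have h10 : Bf C u z₁ z₀ ≠ 0 := by rwa [Bf_comm C hC]
  have hk : (-2 * Bf C u z₀ z₁) ≠ 0 := mul_ne_zero (by norm_num) h01
  fin_cases j
  · refine ⟨z₁, z₁, z₁, z₁, ?_⟩
    simp only [E]
    rw [Rz h11, Bf_smul_right]
    exact mul_ne_zero hk h01
  · refine ⟨z₁, z₁, w, z₁, ?_⟩
    simp only [E]
    rw [Rz h11, Rw h0w, Bf_smul_right, Bf_smul_left]
    exact mul_ne_zero hww (mul_ne_zero hk h10)
  · refine ⟨z₁, z₁, z₁, z₁, ?_⟩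
    simp only [E]
    rw [Rz h11, Bf_smul_left]
    exact mul_ne_zero hk h10
  · refine ⟨w, w, w, w, ?_⟩
    simp only [E]
    rw [Rw h0w]
    have : c9 C u e e' (fun a => Bf C u w w * z₀ a) = fun m => Bf C u w w ^ 2 * c9 C u e e' z₀ m :=
      funext fun m => c9_smul _ _ _ _ _ _ _
    rw [this, Ph_smul]
    exact mul_ne_zero (by positivity) hPh
  · refine ⟨w, w, w, w, ?_⟩
    simp only [E]
    rw [Rw h0w]
    have : c9 C u e e' (fun a => Bf C u w w * z₀ a) = fun m => Bf C u w w ^ 2 * c9 C u e e' z₀ m :=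
      funext fun m => c9_smul _ _ _ _ _ _ _
    rw [this, ds9_smul]
    exact mul_ne_zero (by positivity) hds
  · refine ⟨z₁, z₁, z₁, z₁, ?_⟩
    simp only [E]
    rw [Rz h11, c9_smul]
    exact mul_ne_zero (pow_ne_zero _ hk) hc11
  · refine ⟨w, w, w, w, ?_⟩
    simp only [E]
    rw [Rw h0w]
    have : c9 C u e e' (fun a => Bf C u w w * z₀ a) = fun m => Bf C u w w ^ 2 * c9 C u e e' z₀ m :=
      funext fun m => c9_smul _ _ _ _ _ _ _
    rw [this, Ph_smul]
    exact mul_ne_zero (by positivity) hPh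
  · refine ⟨w, w, w, w, ?_⟩
    simp only [E]
    rw [Rw h0w]
    have : c9 C u e e' (fun a => Bf C u w w * z₀ a) = fun m => Bf C u w w ^ 2 * c9 C u e e' z₀ m :=
      funext fun m => c9_smul _ _ _ _ _ _ _
    rw [this, ds9_smul]
    exact mul_ne_zero (by positivity) hds
  · refine ⟨z₁, z₁, z₁, z₁, ?_⟩
    simp only [E]
    rw [Rz h11, c9_smul]
    exact mul_ne_zero (pow_ne_zero _ hk) hc11
  · refine ⟨w, w, z₁, w, ?_⟩
    simp only [E]
    rw [Rz h11, Rw h0w, c9_smul, c9_smul, c9_smul, c9_smul, hc10]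
    rw [mul_zero, mul_zero, sub_zero]
    exact mul_ne_zero (mul_ne_zero (pow_ne_zero _ hww) hc0) (mul_ne_zero (pow_ne_zero _ hk) hc11)
  · refine ⟨w, w, w, w, ?_⟩
    simp only [E]
    rw [Rw h0w]
    have : c9 C u e e' (fun a => Bf C u w w * z₀ a) = fun m => Bf C u w w ^ 2 * c9 C u e e' z₀ m :=
      funext fun m => c9_smul _ _ _ _ _ _ _
    rw [this, Ph_smul]
    exact mul_ne_zero (by positivity) hPh
  · refine ⟨w, w, w, w, ?_⟩
    simp only [E]
    rw [Rw h0w]
    have : c9 C u e e' (fun a => Bf C u w w * z₀ a) = fun m => Bf C u w w ^ 2 * c9 C u e e' z₀ m :=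
      funext fun m => c9_smul _ _ _ _ _ _ _
    rw [this, Ph_smul]
    exact mul_ne_zero (by positivity) hPh

/-- the coefficient of degree twelve -/
lemma lead_ne {C : α → α → MvPolynomial β M} {u e e' : β → M}
    {z₀ z₁ w : α → M} (h : Geo C u e e' z₀ z₁ w) : Ph (c9 C u e e' (Rp C u z₀ w)) ≠ 0 := by
  obtain ⟨h00, h11, h01, h0w, hww, hPh, hds, hc0, hc10, hc12, hc11, hc15⟩ := h
  rw [Rw h0w]
  have : c9 C u e e' (fun a => Bf C u w w * z₀ a) = fun m => Bf C u w w ^ 2 * c9 C u e e' z₀ m :=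
    funext fun m => c9_smul _ _ _ _ _ _ _
  rw [this, Ph_smul]
  exact mul_ne_zero (by positivity) hPh

lemma root_P {C : α → α → MvPolynomial β M} {u e e' : β → M}
    {z₀ z₁ w : α → M} (h : Geo C u e e' z₀ z₁ w) :
    (Ph (c9t C u e e' z₀ z₁ w)).eval 0 = 0 := by
  obtain ⟨h00, h11, h01, h0w, hww, hPh, hds, hc0, hc10, hc12, hc11, hc15⟩ := h
  have h1 := Ph_m (Polynomial.evalRingHom (0 : M)) (c9t C u e e' z₀ z₁ w)
  rw [Polynomial.coe_evalRingHom] at h1
  rw [h1]
  simp only [c9t_eval, mul_zero, add_zero]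
  rw [show (fun c => z₁ c) = z₁ from rfl, Rz h11]
  simp only [c9_smul]
  rw [Ph_smul]
  have : Ph (fun m => c9 C u e e' z₁ m) = 0 := by
    unfold Ph
    simp only [hc10, hc12]
    ring
  rw [this, mul_zero]

lemma root_Q {C : α → α → MvPolynomial β M} {u e e' : β → M}
    {z₀ z₁ w : α → M} (h : Geo C u e e' z₀ z₁ w) :
    (q9 (c9t C u e e' z₀ z₁ w) 0).eval 0 ≠ 0 := by
  obtain ⟨h00, h11, h01, h0w, hww, hPh, hds, hc0, hc10, hc12, hc11, hc15⟩ := h
  have hk : (-2 * Bf C u z₀ z₁) ≠ 0 := mul_ne_zero (by norm_num) h01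
  have h1 := q9_m (Polynomial.evalRingHom (0 : M)) (c9t C u e e' z₀ z₁ w) 0
  rw [Polynomial.coe_evalRingHom] at h1
  rw [h1]
  simp only [c9t_eval, mul_zero, add_zero]
  rw [show (fun c => z₁ c) = z₁ from rfl, Rz h11]
  simp only [c9_smul]
  rw [q9_smul0]
  refine mul_ne_zero (pow_ne_zero _ (pow_ne_zero _ hk)) ?_
  have : q9 (fun m => c9 C u e e' z₁ m) 0 = -4 * c9 C u e e' z₁ 5 * c9 C u e e' z₁ 1 ^ 4 := by
    simp only [q9, Matrix.cons_val_zero, Ph, hc10, hc12]
    ring
  rw [this]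
  exact mul_ne_zero (mul_ne_zero (by norm_num) hc15) (pow_ne_zero _ hc11)

end geo

end Pool.Agent.K6.H43.GH.NplAux

namespace Pool.Agent.K6.H43.GH

open NplAux

theorem t_NPL (h1 : S_PRM) (h2 : S_LCP) : S_NPL := by
  intro K _ _ r n i α _ C hC M _ _ ψ u ε ε' z₀ z₁ w hG
  classical
  have hCM : ∀ a b, mC ψ C a b = mC ψ C b a := by
    intro a b
    unfold mC
    rw [hC a b]
  -- the points
  let mk : (α → M) → (α → M) → (α → M) → (α → M) → Pa α (Fin (n i + 1)) → M :=
    fun a₁ b₁ a₂ b₂ => Sum.elim ε (Sum.elim ε' (Sum.elim (Sum.elim a₁ b₁) (Sum.elim a₂ b₂)))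
  let π₀ := mk z₁ w z₁ w
  -- the roots
  have hroot : ∀ b : Bool, ∃ ρ : MvPolynomial (Sg n i α) K, ev i α ψ z₀ u π₀ ρ ≠ 0 ∧
      ∀ (F : Type) [Field F] (φ : MvPolynomial (Sg n i α) K →+* F),
        φ ((Ph (UT i C b)).coeff 12) ≠ 0 → φ ρ ≠ 0 →
        ∃ t : AlgebraicClosure F, Polynomial.aeval t ((Ph (UT i C b)).map φ) = 0 ∧
          Polynomial.aeval t ((q9 (UT i C b) 0).map φ) ≠ 0 := by
    intro b
    have hL := h2 (MvPolynomial (Sg n i α) K) α (Vr n) (mC (MvPolynomial.C (σ := Sg n i α)) C)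
      (fun b => MvPolynomial.X (Sum.inl (Sum.inr b)))
      (hat i fun l => MvPolynomial.X (Sum.inr (Sum.inl l)))
      (hat i fun l => MvPolynomial.X (Sum.inr (Sum.inr (Sum.inl l))))
      (fun a => MvPolynomial.X (Sum.inl (Sum.inl a)))
      (fun a => MvPolynomial.X (Sum.inr (Sum.inr (Sum.inr
        (if b then Sum.inl (Sum.inl a) else Sum.inr (Sum.inl a))))))
      (fun a => MvPolynomial.X (Sum.inr (Sum.inr (Sum.inr
        (if b then Sum.inl (Sum.inr a) else Sum.inr (Sum.inr a))))))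
    change (Ph (UT i C b)).natDegree ≤ 12 ∧ (Ph (UT i C b)).coeff 12 = _ at hL
    refine h1 (MvPolynomial (Sg n i α) K) 12 (Ph (UT i C b)) (q9 (UT i C b) 0) hL.1 M
      (ev i α ψ z₀ u π₀) 0 ?_ ?_ ?_
    · rw [PhUT_ev]
      cases b <;> exact root_P hG
    · rw [qUT_ev]
      cases b <;> exact root_Q hG
    · rw [← Polynomial.coeff_map, PhUT_ev]
      have hL2 := h2 M α (Vr n) (mC ψ C) u (hat i ε) (hat i ε') z₀ z₁ w
      have : Ph (c9 (mC ψ C) u (hat i ε) (hat i ε') (Rp (mC ψ C) u z₀ w)) ≠ 0 := lead_ne hG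
      rw [← hL2.2] at this
      cases b <;> exact this
  obtain ⟨ρ₁, hρ₁, hρ₁'⟩ := hroot true
  obtain ⟨ρ₂, hρ₂, hρ₂'⟩ := hroot false
  -- the product
  let g : Fin 12 ⊕ Bool → MvPolynomial (Sg n i α) K :=
    Sum.elim (UE i C) (fun b => if b then ρ₁ else ρ₂)
  refine ⟨∏ j, g j, ?_, ?_⟩
  · apply common i ψ z₀ u Finset.univ g
    rintro (j | b) -
    · obtain ⟨a₁, b₁, a₂, b₂, h⟩ := E_ne hCM hG j
      refine ⟨mk a₁ b₁ a₂ b₂, ?_⟩
      change ev i α ψ z₀ u (mk a₁ b₁ a₂ b₂) (UE i C j) ≠ 0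
      rw [UE_ev]
      exact h
    · refine ⟨π₀, ?_⟩
      cases b
      · exact hρ₂
      · exact hρ₁
  · intro F _ _ φ x u' π hne
    change ev i α φ x u' π (∏ j, g j) ≠ 0 at hne
    rw [map_prod, Finset.prod_ne_zero_iff] at hne
    have hE : ∀ j : Fin 12, ev i α φ x u' π (UE i C j) ≠ 0 := fun j =>
      hne (Sum.inl j) (Finset.mem_univ _)
    have hr₁ : ev i α φ x u' π ρ₁ ≠ 0 := hne (Sum.inr true) (Finset.mem_univ _)
    have hr₂ : ev i α φ x u' π ρ₂ ≠ 0 := hne (Sum.inr false) (Finset.mem_univ _)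
    simp only [UE_ev] at hE
    have hL : ∀ b : Bool, ev i α φ x u' π ((Ph (UT i C b)).coeff 12) ≠ 0 := by
      intro b
      rw [← Polynomial.coeff_map, PhUT_ev, (h2 F α (Vr n) (mC φ C) u' _ _ x _ _).2]
      cases b
      · exact hE 11
      · exact hE 10
    have k₁ := hρ₁' F (ev i α φ x u' π) (hL true) hr₁
    have k₂ := hρ₂' F (ev i α φ x u' π) (hL false) hr₂
    simp only [PhUT_ev, qUT_ev] at k₁ k₂
    exact ⟨hE 0, hE 1, hE 2, ⟨hE 3, hE 4, hE 5⟩, ⟨hE 6, hE 7, hE 8⟩, hE 9, k₁, k₂⟩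

end Pool.Agent.K6.H43.GH
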