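import Pool.Agent.K6.H43.GH.Alg2
import Pool.Agent.K6.H43.GH.Npl

/-! # call43b, piece NP2 (helper44): the polynomial for conics; the factors are those of `Npl`
(helper59) -/

set_option autoImplicit false
set_option linter.unusedVariables false

namespace Pool.Agent.K6.H43.GH.Np2Aux

open Pool.Agent.K6.H43.GH Pool.Agent.K6.H43.GH.NplAux

/-- the factors in question -/
def sel : Fin 6 → Fin 12 := ![0, 1, 2, 5, 8, 9]

lemma E_ne2 {M : Type} [Field M] [CharZero M] {α β : Type} [Fintype α]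
    {C : α → α → MvPolynomial β M} (hC : ∀ i j, C i j = C j i) {u e e' : β → M}
    {z₀ z₁ w : α → M} (h : Geo2 C u e e' z₀ z₁ w) (j : Fin 6) :
    ∃ a₁ b₁ a₂ b₂, E C z₀ u e e' a₁ b₁ a₂ b₂ (sel j) ≠ 0 := by
  obtain ⟨h00, h11, h01, h0w, hww, hdet⟩ := h
  have h10 : Bf C u z₁ z₀ ≠ 0 := by rwa [NplAux.Bf_comm C hC]
  have hk : (-2 * Bf C u z₀ z₁) ≠ 0 := mul_ne_zero (by norm_num) h01
  have hor : c9 C u e e' z₁ 1 ≠ 0 ∨ c9 C u e e' z₀ 1 ≠ 0 := by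
    by_contra hc
    push Not at hc
    apply hdet
    rw [hc.1, hc.2, mul_zero, zero_mul, sub_zero]
  fin_cases j
  · refine ⟨z₁, z₁, z₁, z₁, ?_⟩
    change Bf C u z₀ (Rp C u z₀ z₁) ≠ 0
    rw [Rz h11, NplAux.Bf_smul_right]
    exact mul_ne_zero hk h01
  · refine ⟨z₁, z₁, w, z₁, ?_⟩
    change Bf C u (Rp C u z₀ z₁) (Rp C u z₀ w) ≠ 0
    rw [Rz h11, Rw h0w, NplAux.Bf_smul_right, NplAux.Bf_smul_left]
    exact mul_ne_zero hww (mul_ne_zero hk h10)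
  · refine ⟨z₁, z₁, z₁, z₁, ?_⟩
    change Bf C u (Rp C u z₀ z₁) z₀ ≠ 0
    rw [Rz h11, NplAux.Bf_smul_left]
    exact mul_ne_zero hk h10
  · rcases hor with h | h
    · refine ⟨z₁, z₁, z₁, z₁, ?_⟩
      change c9 C u e e' (Rp C u z₀ z₁) 1 ≠ 0
      rw [Rz h11, NplAux.c9_smul]
      exact mul_ne_zero (pow_ne_zero _ hk) h
    · refine ⟨w, w, w, w, ?_⟩
      change c9 C u e e' (Rp C u z₀ w) 1 ≠ 0
      rw [Rw h0w, NplAux.c9_smul]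
      exact mul_ne_zero (pow_ne_zero _ hww) h
  · rcases hor with h | h
    · refine ⟨z₁, z₁, z₁, z₁, ?_⟩
      change c9 C u e e' (Rp C u z₀ z₁) 1 ≠ 0
      rw [Rz h11, NplAux.c9_smul]
      exact mul_ne_zero (pow_ne_zero _ hk) h
    · refine ⟨w, w, w, w, ?_⟩
      change c9 C u e e' (Rp C u z₀ w) 1 ≠ 0
      rw [Rw h0w, NplAux.c9_smul]
      exact mul_ne_zero (pow_ne_zero _ hww) h
  · refine ⟨w, w, z₁, w, ?_⟩
    change c9 C u e e' (Rp C u z₀ w) 0 * c9 C u e e' (Rp C u z₀ z₁) 1 -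
      c9 C u e e' (Rp C u z₀ w) 1 * c9 C u e e' (Rp C u z₀ z₁) 0 ≠ 0
    rw [Rz h11, Rw h0w, NplAux.c9_smul, NplAux.c9_smul, NplAux.c9_smul, NplAux.c9_smul]
    have e1 : Bf C u w w ^ 2 * c9 C u e e' z₀ 0 * ((-2 * Bf C u z₀ z₁) ^ 2 * c9 C u e e' z₁ 1) -
        Bf C u w w ^ 2 * c9 C u e e' z₀ 1 * ((-2 * Bf C u z₀ z₁) ^ 2 * c9 C u e e' z₁ 0) =
        Bf C u w w ^ 2 * (-2 * Bf C u z₀ z₁) ^ 2 *
          (c9 C u e e' z₀ 0 * c9 C u e e' z₁ 1 - c9 C u e e' z₀ 1 * c9 C u e e' z₁ 0) := by ring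
    rw [e1]
    exact mul_ne_zero (mul_ne_zero (pow_ne_zero _ hww) (pow_ne_zero _ hk)) hdet

end Pool.Agent.K6.H43.GH.Np2Aux

namespace Pool.Agent.K6.H43.GH

open NplAux Np2Aux

theorem t_NP2 : S_NP2 := by
  intro K _ _ r n i α _ C hC M _ _ ψ u ε ε' z₀ z₁ w hG
  classical
  have hCM : ∀ a b, mC ψ C a b = mC ψ C b a := by
    intro a b
    unfold mC
    rw [hC a b]
  let mk : (α → M) → (α → M) → (α → M) → (α → M) → Pa α (Fin (n i + 1)) → M :=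
    fun a₁ b₁ a₂ b₂ => Sum.elim ε (Sum.elim ε' (Sum.elim (Sum.elim a₁ b₁) (Sum.elim a₂ b₂)))
  let g : Fin 6 → MvPolynomial (Sg n i α) K := fun j => UE i C (sel j)
  refine ⟨∏ j, g j, ?_, ?_⟩
  · apply common i ψ z₀ u Finset.univ g
    intro j _
    obtain ⟨a₁, b₁, a₂, b₂, h⟩ := E_ne2 hCM hG j
    refine ⟨mk a₁ b₁ a₂ b₂, ?_⟩
    change ev i α ψ z₀ u (mk a₁ b₁ a₂ b₂) (UE i C (sel j)) ≠ 0
    rw [UE_ev]
    exact h
  · intro F _ _ φ x u' π hne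
    change ev i α φ x u' π (∏ j, g j) ≠ 0 at hne
    rw [map_prod, Finset.prod_ne_zero_iff] at hne
    have hE : ∀ j : Fin 6, ev i α φ x u' π (UE i C (sel j)) ≠ 0 := fun j =>
      hne j (Finset.mem_univ _)
    simp only [UE_ev] at hE
    exact ⟨hE 0, hE 1, hE 2, hE 3, hE 4, hE 5⟩

end Pool.Agent.K6.H43.GH
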