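import Pool.Agent.K6.H43.GH.Alg

/-!
# ONE: simple roots persist (helper52)
-/

set_option autoImplicit false

open Filter Topology

namespace Pool.Agent.K6.H43.GH

theorem t_ONE : S_ONE := by
  intro F _ _ k₁ k₂ k₃ hk ε hε
  let k : Fin 4 → F := ![0, k₁, k₂, k₃]
  let a : (Fin 4 → F) × F := (k, 0)
  let g : (Fin 4 → F) × F → F := fun q => q.1 0 + q.1 1 * q.2 + q.1 2 * q.2 ^ 2 + q.1 3 * q.2 ^ 3
  have hp : ∀ i : Fin 4, HasStrictFDerivAt (fun q : (Fin 4 → F) × F => q.1 i)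
      ((ContinuousLinearMap.proj (R := F) (φ := fun _ : Fin 4 => F) i).comp
        (ContinuousLinearMap.fst F (Fin 4 → F) F)) a := by
    intro i
    exact ((ContinuousLinearMap.proj (R := F) (φ := fun _ : Fin 4 => F) i).comp
        (ContinuousLinearMap.fst F (Fin 4 → F) F)).hasStrictFDerivAt
  have ht : HasStrictFDerivAt (fun q : (Fin 4 → F) × F => q.2)
      (ContinuousLinearMap.snd F (Fin 4 → F) F) a :=
    (ContinuousLinearMap.snd F (Fin 4 → F) F).hasStrictFDerivAt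
  have hg := ((hp 0).add ((hp 1).mul ht)).add (((hp 2).mul (ht.pow 2)).add
    ((hp 3).mul (ht.pow 3)))
  have hf := ((ContinuousLinearMap.fst F (Fin 4 → F) F).hasStrictFDerivAt (x := a)).prodMk hg
  have hmap := hf.map_nhds_eq_of_surj (by
    rw [LinearMap.range_eq_top]
    rintro ⟨p, y⟩
    refine ⟨(p, (y - p 0) / k₁), ?_⟩
    ext
    · simp
    · simp [a, k]
      field_simp
      ring)
  have hU : {q : (Fin 4 → F) × F | ‖q.2‖ < ε} ∈ 𝓝 a := by
    have hc : Continuous fun q : (Fin 4 → F) × F => ‖q.2‖ := continuous_snd.norm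
    refine (isOpen_lt hc continuous_const).mem_nhds ?_
    simpa [a] using hε
  have him := Filter.image_mem_map hU (m := fun q : (Fin 4 → F) × F =>
    ((ContinuousLinearMap.fst F (Fin 4 → F) F) q,
      (q.1 0 + q.1 1 * q.2) + (q.1 2 * q.2 ^ 2 + q.1 3 * q.2 ^ 3)))
  have hmap' : map (fun q : (Fin 4 → F) × F =>
    ((ContinuousLinearMap.fst F (Fin 4 → F) F) q,
      (q.1 0 + q.1 1 * q.2) + (q.1 2 * q.2 ^ 2 + q.1 3 * q.2 ^ 3))) (𝓝 a) = 𝓝 (k, (0 : F)) := by
    refine hmap.trans ?_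
    congr 1
    simp [a, k]
  rw [hmap'] at him
  obtain ⟨ρ, hρ, hball⟩ := Metric.mem_nhds_iff.1 him
  refine ⟨ρ, hρ, fun h l₁ l₂ l₃ h0 h1 h2 h3 => ?_⟩
  have hmem : ((![h, l₁, l₂, l₃] : Fin 4 → F), (0 : F)) ∈ Metric.ball (k, (0 : F)) ρ := by
    rw [Metric.mem_ball, Prod.dist_eq]
    refine max_lt ?_ (by simpa using hρ)
    rw [dist_pi_lt_iff hρ]
    intro i
    fin_cases i
    · simpa [k, dist_eq_norm] using h0
    · simpa [k, dist_eq_norm] using h1
    · simpa [k, dist_eq_norm] using h2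
    · simpa [k, dist_eq_norm] using h3
  obtain ⟨⟨p, t⟩, ht', he⟩ := hball hmem
  simp only [Prod.mk.injEq] at he
  obtain ⟨he1, he2⟩ := he
  have he1' : p = ![h, l₁, l₂, l₃] := he1
  refine ⟨t, ht', ?_⟩
  rw [he1'] at he2
  simpa [add_assoc] using he2

end Pool.Agent.K6.H43.GH
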