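import Pool.Agent.Y720.WL.Nt
import Pool.Agent.Y720.WL.LemR
import Pool.Agent.K6.H43.GH.Alg

/-!
# Quadric bundles with cubic coefficients: the pieces on curves of genus one (helper43)
-/

set_option autoImplicit false
set_option linter.unusedVariables false

open Filter Topology Pool.Agent.Y720.MZ

namespace Pool.Agent.K6.H43.GH

/-- the data of the quartic -/
def th9 {R : Type*} [CommRing R] (c : Fin 9 → R) : R × (Fin 4 → R) := (Ph c, q9 c)

lemma ds9_eq {F : Type*} [Field F] [CharZero F] (c : Fin 9 → F) :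
    ds9 c = dsc (tA (th9 c)) (tB (th9 c)) (tC (th9 c)) := rfl

/-- the class `h - 3 P` on the plane cubic is of infinite order -/
def IO9 {F : Type*} [Field F] [CharZero F] (c : Fin 9 → F) : Prop :=
  Ph c ≠ 0 ∧ IOt (th9 c)

/-- QGC: moves on plane cubics from the quartics. -/
def S_QGC : Prop := ∀ (K : Type) [Field K] [CharZero K] (V : Type) [Finite V] (L : V → Type)
  [∀ v, NontriviallyNormedField (L v)] [∀ v, CompleteSpace (L v)] [∀ v, CharZero (L v)]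
  (s : ∀ v, K →+* L v) (c₀ : ∀ v, Fin 9 → L v), (∀ v, c₀ v 1 ≠ 0) → (∀ v, Ph (c₀ v) ≠ 0) →
  WAqL s (fun v => th9 (c₀ v)) →
  ∃ δ : ℝ, 0 < δ ∧ ∀ c : Fin 9 → K, (∀ v m, ‖s v (c m) - c₀ v m‖ < δ) →
    ∀ S R : ∀ v, L v, (∀ v, ‖S v‖ < δ) → (∀ v, ‖R v‖ < δ) →
    (∀ v, cub (fun m => s v (c m)) (S v) (R v) = 0) →
    ∀ η : ℝ, 0 < η → ∃ S' R' : K, cub c S' R' = 0 ∧ ∀ v, ‖s v S' - S v‖ < η ∧ ‖s v R' - R v‖ < η

/-- NEA9: infinite order along a curve which passes, over the algebraic closure, through a flex. -/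
def S_NEA9 : Prop := ∀ (F : Type) [NontriviallyNormedField F] [CompleteSpace F] [CharZero F]
  (c : Fin 9 → Polynomial F) (s₀ : AlgebraicClosure F), Polynomial.aeval s₀ (Ph c) = 0 →
  Polynomial.aeval s₀ (q9 c 0) ≠ 0 → Ph (fun m => (c m).eval 0) ≠ 0 →
  ds9 (fun m => (c m).eval 0) ≠ 0 → ∀ δ : ℝ, 0 < δ →
  ∃ t : F, ‖t‖ < δ ∧ IO9 (fun m => (c m).eval t)

end Pool.Agent.K6.H43.GH
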