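import Pool.Agent.Y718.CL.Op
import Pool.Agent.K6.H43.GH.Stm
import Pool.Agent.K6.H43.GH.Base

/-!
# Moves on the plane cubics of infinite order (helper43)
-/

set_option autoImplicit false
set_option linter.unusedVariables false
set_option linter.unusedSectionVars false

open Filter Topology Pool.Agent.Y720.MZ

namespace Pool.Agent.K6.H43.GH

section near

variable {F : Type*} [NontriviallyNormedField F] {α β : Type*} [Fintype α] [Fintype β]

/-- continuity of the coefficients, with a bound -/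
lemma c9_ball (C : α → α → MvPolynomial β F) (e e' : β → F) (u₀ : β → F) (x₀ : α → F) {δ : ℝ}
    (hδ : 0 < δ) : ∃ ρ : ℝ, 0 < ρ ∧ ∀ (u : β → F) (x : α → F), (∀ b, ‖u b - u₀ b‖ < ρ) →
      (∀ a, ‖x a - x₀ a‖ < ρ) → ∀ m, ‖c9 C u e e' x m - c9 C u₀ e e' x₀ m‖ < δ := by
  have h1 : ∀ᶠ p in 𝓝 (u₀, x₀), ∀ m : Fin 9, ‖c9 C p.1 e e' p.2 m - c9 C u₀ e e' x₀ m‖ < δ := by
    rw [Filter.eventually_all]
    intro m
    have h2 : Continuous fun p : (β → F) × (α → F) => c9 C p.1 e e' p.2 m := c9_cont C e e' m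
    have h3 : Tendsto (fun p : (β → F) × (α → F) => ‖c9 C p.1 e e' p.2 m - c9 C u₀ e e' x₀ m‖)
        (𝓝 (u₀, x₀)) (𝓝 0) := by
      have := ((h2.tendsto (u₀, x₀)).sub_const (c9 C u₀ e e' x₀ m)).norm
      rwa [sub_self, norm_zero] at this
    exact h3.eventually_lt_const hδ
  obtain ⟨ρ, hρ, hb⟩ := Metric.eventually_nhds_iff_ball.1 h1
  refine ⟨ρ, hρ, fun u x hu hx => hb (u, x) ?_⟩
  rw [Metric.mem_ball, Prod.dist_eq]
  refine max_lt ?_ ?_
  · rw [dist_pi_lt_iff hρ]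
    intro b
    rw [dist_eq_norm]
    exact hu b
  · rw [dist_pi_lt_iff hρ]
    intro a
    rw [dist_eq_norm]
    exact hx a

end near

section mvp

variable {K : Type} [Field K] [CharZero K] {V : Type} [Finite V] {L : V → Type}
  [∀ v, NontriviallyNormedField (L v)] [∀ v, CompleteSpace (L v)] [∀ v, CharZero (L v)]
  {s : ∀ v, K →+* L v} {α β : Type} [Fintype α] [Fintype β]

/-- moves on the plane cubics -/
theorem mvP_of (hQ : S_QGC) {C : α → α → MvPolynomial β K} {e e' : β → K} (hid : Pid C e e')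
    (hidv : ∀ v, Pid (mC (s v) C) (fun b => s v (e b)) (fun b => s v (e' b)))
    {x₀ : ∀ v, α → L v} {u₀ : ∀ v, β → L v}
    (h1 : ∀ v, c9 (mC (s v) C) (u₀ v) (fun b => s v (e b)) (fun b => s v (e' b)) (x₀ v) 1 ≠ 0)
    (hP : ∀ v, Ph (c9 (mC (s v) C) (u₀ v) (fun b => s v (e b)) (fun b => s v (e' b)) (x₀ v)) ≠ 0)
    (hW : WAqL s (fun v =>
      th9 (c9 (mC (s v) C) (u₀ v) (fun b => s v (e b)) (fun b => s v (e' b)) (x₀ v)))) :
    MvP s C e e' x₀ u₀ := by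
  obtain ⟨δ, hδ, hb⟩ := hQ K V L s _ h1 hP hW
  choose ρ hρ hρb using fun v => c9_ball (mC (s v) C) (fun b => s v (e b)) (fun b => s v (e' b))
    (u₀ v) (x₀ v) hδ
  obtain ⟨ρ₀, hρ₀, hm⟩ := fin_min hρ
  refine ⟨min δ ρ₀, lt_min hδ hρ₀, fun x u hxu hx hu S R hS hR he η hη => ?_⟩
  obtain ⟨S', R', g1, g2⟩ := hb (c9 C u e e' x)
    (fun v m => by
      rw [c9_map]
      exact hρb v _ _ (fun b => (hu v b).trans_le ((min_le_right _ _).trans (hm v)))
        (fun a => (hx v a).trans_le ((min_le_right _ _).trans (hm v))) m)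
    S R (fun v => (hS v).trans_le (min_le_left _ _)) (fun v => (hR v).trans_le (min_le_left _ _))
    (fun v => by
      have k1 := hidv v (fun b => s v (u b)) (fun a => s v (x a)) (S v) (R v)
      rw [he v, ← Bf_map, hxu, map_zero, zero_add] at k1
      have k2 : (fun m => s v (c9 C u e e' x m)) = c9 (mC (s v) C) (fun b => s v (u b))
          (fun b => s v (e b)) (fun b => s v (e' b)) (fun a => s v (x a)) := by
        funext m
        exact c9_map _ _ _ _ _ _ _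
      rw [k2]
      exact k1.symm) η hη
  refine ⟨S', R', ?_, g2⟩
  rw [hid u x S' R', hxu, g1, add_zero]

end mvp

section loc

variable {F : Type} [NontriviallyNormedField F] [CompleteSpace F] [CharZero F] {α β : Type}
  [Fintype α] [Fintype β]

/-- the conditions on two points of the quadric -/
structure Two (C : α → α → MvPolynomial β F) (u e e' : β → F) (x z₁ z₂ : α → F) : Prop where
  on₁ : Bf C u z₁ z₁ = 0
  on₂ : Bf C u z₂ z₂ = 0
  b₁ : Bf C u x z₁ ≠ 0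
  b₂ : Bf C u z₁ z₂ ≠ 0
  b₃ : Bf C u z₂ x ≠ 0
  w : c9 C u e e' z₁ 0 * c9 C u e e' z₂ 1 - c9 C u e e' z₁ 1 * c9 C u e e' z₂ 0 ≠ 0
  c₁ : c9 C u e e' z₁ 1 ≠ 0
  c₂ : c9 C u e e' z₂ 1 ≠ 0
  p₁ : Ph (c9 C u e e' z₁) ≠ 0
  p₂ : Ph (c9 C u e e' z₂) ≠ 0

/-- one point, close to `Rp a` -/
lemma one_pt (hN : S_NEA9) {C : α → α → MvPolynomial β F} {x : α → F} {u e e' : β → F}
    {a b : α → F} (hP : Ph (c9 C u e e' (Rp C u x a)) ≠ 0)
    (hd : ds9 (c9 C u e e' (Rp C u x a)) ≠ 0)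
    (hr : ∃ t : AlgebraicClosure F, Polynomial.aeval t (Ph (c9t C u e e' x a b)) = 0 ∧
      Polynomial.aeval t (q9 (c9t C u e e' x a b) 0) ≠ 0) {P : (α → F) → Prop}
    (hev : ∀ᶠ z in 𝓝 (Rp C u x a), P z) :
    ∃ m : α → F, P (Rp C u x m) ∧ IO9 (c9 C u e e' (Rp C u x m)) := by
  obtain ⟨s₀, h1, h2⟩ := hr
  have e0 : (fun m => (c9t C u e e' x a b m).eval 0) = c9 C u e e' (Rp C u x a) := by
    funext m
    rw [c9t_eval]
    simp only [mul_zero, add_zero]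
  have h3 : Continuous fun t : F => Rp C u x (fun c => a c + b c * t) :=
    (Rp_cont C u x).comp (continuous_pi fun c => by fun_prop)
  have h4 : ∀ᶠ t in 𝓝 (0 : F), P (Rp C u x (fun c => a c + b c * t)) := by
    have h5 := h3.tendsto 0
    have e1 : (fun c => a c + b c * (0 : F)) = a := by
      funext c
      rw [mul_zero, add_zero]
    simp only [e1] at h5
    exact h5.eventually hev
  obtain ⟨δ, hδ, hb⟩ := Metric.eventually_nhds_iff_ball.1 h4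
  obtain ⟨t, ht, hio⟩ := hN F (c9t C u e e' x a b) s₀ h1 h2 (by rwa [e0]) (by rwa [e0]) δ hδ
  refine ⟨fun c => a c + b c * t, hb t (mem_ball_zero_iff.2 ht), ?_⟩
  have e2 : (fun m => (c9t C u e e' x a b m).eval t) =
      c9 C u e e' (Rp C u x (fun c => a c + b c * t)) := by
    funext m
    rw [c9t_eval]
  rwa [e2] at hio

lemma ev_two {C : α → α → MvPolynomial β F} {x z₀ z₁ : α → F} {u e e' : β → F}
    (h1 : Bf C u x z₀ ≠ 0) (h2 : Bf C u z₀ z₁ ≠ 0) (h3 : c9 C u e e' z₀ 1 ≠ 0)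
    (h4 : c9 C u e e' z₀ 0 * c9 C u e e' z₁ 1 - c9 C u e e' z₀ 1 * c9 C u e e' z₁ 0 ≠ 0) :
    ∀ᶠ z in 𝓝 z₀, Bf C u x z ≠ 0 ∧ Bf C u z z₁ ≠ 0 ∧ c9 C u e e' z 1 ≠ 0 ∧
      c9 C u e e' z 0 * c9 C u e e' z₁ 1 - c9 C u e e' z 1 * c9 C u e e' z₁ 0 ≠ 0 := by
  have cB : Continuous fun z : α → F => Bf C u x z := by
    unfold Bf
    fun_prop
  have cB' : Continuous fun z : α → F => Bf C u z z₁ := by
    unfold Bf
    fun_prop
  have c0 : Continuous fun z : α → F => c9 C u e e' z 0 := by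
    unfold c9 cf
    fun_prop
  have c1 : Continuous fun z : α → F => c9 C u e e' z 1 := by
    unfold c9 cf
    fun_prop
  have cw : Continuous fun z : α → F =>
      c9 C u e e' z 0 * c9 C u e e' z₁ 1 - c9 C u e e' z 1 * c9 C u e e' z₁ 0 :=
    (c0.mul continuous_const).sub (c1.mul continuous_const)
  exact (cB.continuousAt.eventually_ne h1).and ((cB'.continuousAt.eventually_ne h2).and
    ((c1.continuousAt.eventually_ne h3).and (cw.continuousAt.eventually_ne h4)))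

/-- **Two points of infinite order.** -/
theorem two_io (hN : S_NEA9) {C : α → α → MvPolynomial β F} (hC : ∀ i j, C i j = C j i)
    {x : α → F} {u e e' : β → F} (hx : Bf C u x x = 0) {a₁ b₁ a₂ b₂ : α → F}
    (h : Cnd C x u e e' a₁ b₁ a₂ b₂) : ∃ z₁ z₂ : α → F, Two C u e e' x z₁ z₂ ∧
      IO9 (c9 C u e e' z₁) ∧ IO9 (c9 C u e e' z₂) := by
  obtain ⟨h1, h2, h3, ⟨h4, h5, h6⟩, ⟨h7, h8, h9⟩, h10, h11, h12⟩ := h
  obtain ⟨m₁, ⟨g3, g4, g5, g6⟩, g2⟩ := one_pt hN h4 h5 h11 (ev_two h1 h2 h6 h10)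
  have h3' : Bf C u x (Rp C u x a₂) ≠ 0 := by rwa [Bf_symm hC]
  have h2' : Bf C u (Rp C u x a₂) (Rp C u x m₁) ≠ 0 := by rwa [Bf_symm hC]
  have h10' : c9 C u e e' (Rp C u x a₂) 0 * c9 C u e e' (Rp C u x m₁) 1 -
      c9 C u e e' (Rp C u x a₂) 1 * c9 C u e e' (Rp C u x m₁) 0 ≠ 0 := by
    intro h
    apply g6
    linear_combination -h
  obtain ⟨m₂, ⟨k3, k4, k5, k6⟩, k2⟩ := one_pt hN h7 h8 h12 (ev_two h3' h2' h9 h10')
  refine ⟨Rp C u x m₁, Rp C u x m₂, ⟨Rp_on hC hx _, Rp_on hC hx _, g3, ?_, ?_, ?_, g5, k5, g2.1,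
    k2.1⟩, g2, k2⟩
  · rwa [Bf_symm hC]
  · rwa [Bf_symm hC]
  · intro h
    apply k6
    linear_combination -h

/-- the points, without the condition on the order -/
theorem two_pt {C : α → α → MvPolynomial β F} (hC : ∀ i j, C i j = C j i)
    {x : α → F} {u e e' : β → F} (hx : Bf C u x x = 0) {a₁ b₁ a₂ b₂ : α → F}
    (h : Cnd C x u e e' a₁ b₁ a₂ b₂) : ∃ z₁ z₂ : α → F, Two C u e e' x z₁ z₂ ∧
      ds9 (c9 C u e e' z₁) ≠ 0 ∧ ds9 (c9 C u e e' z₂) ≠ 0 := by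
  obtain ⟨h1, h2, h3, ⟨h4, h5, h6⟩, ⟨h7, h8, h9⟩, h10, h11, h12⟩ := h
  exact ⟨_, _, ⟨Rp_on hC hx _, Rp_on hC hx _, h1, h2, h3, h10, h6, h9, h4, h7⟩, h5, h8⟩

end loc

end Pool.Agent.K6.H43.GH
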