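import Pool.Agent.K6.H43.GH.Alg

/-!
# PLN: two plane cubics with different tangents are enough (helper52)
-/

set_option autoImplicit false

open Filter Topology

namespace Pool.Agent.K6.H43.GH

namespace Pln

/-- a common lower bound -/
theorem fmin {V : Type} [Finite V] (f : V → ℝ) (hf : ∀ v, 0 < f v) :
    ∃ ρ : ℝ, 0 < ρ ∧ ∀ v, ρ ≤ f v := by
  cases isEmpty_or_nonempty V with
  | inl h => exact ⟨1, one_pos, fun v => (h.false v).elim⟩
  | inr h =>
    obtain ⟨v₀, hv₀⟩ := Finite.exists_min f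
    exact ⟨f v₀, hf v₀, hv₀⟩

/-- a common upper bound -/
theorem fmax {V : Type} [Finite V] (f : V → ℝ) : ∃ M : ℝ, 1 ≤ M ∧ ∀ v, f v ≤ M := by
  cases isEmpty_or_nonempty V with
  | inl h => exact ⟨1, le_rfl, fun v => (h.false v).elim⟩
  | inr h =>
    obtain ⟨v₀, hv₀⟩ := Finite.exists_max f
    exact ⟨max 1 (f v₀), le_max_left _ _, fun v => (hv₀ v).trans (le_max_right _ _)⟩

section alg

variable {α β : Type} [Fintype α]

theorem Bf_map' {K F : Type} [Field K] [Field F] (φ : K →+* F) (C : α → α → MvPolynomial β K)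
    (u : β → K) (x y : α → K) :
    φ (Bf C u x y) =
      Bf (mC φ C) (fun b => φ (u b)) (fun a => φ (x a)) (fun a => φ (y a)) := by
  unfold Bf mC
  rw [map_sum]
  refine Finset.sum_congr rfl fun i _ => ?_
  rw [map_sum]
  refine Finset.sum_congr rfl fun j _ => ?_
  rw [map_mul, map_mul, MvPolynomial.eval_map, ← MvPolynomial.eval₂_id,
    MvPolynomial.eval₂_comp_left]
  rfl

theorem Bf_symm {F : Type} [Field F] (C : α → α → MvPolynomial β F) (hC : ∀ i j, C i j = C j i)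
    (u : β → F) (x y : α → F) : Bf C u x y = Bf C u y x := by
  unfold Bf
  rw [Finset.sum_comm]
  refine Finset.sum_congr rfl fun i _ => Finset.sum_congr rfl fun j _ => ?_
  rw [hC j i]
  ring

theorem Bf_line {F : Type} [Field F] (C : α → α → MvPolynomial β F) (hC : ∀ i j, C i j = C j i)
    (u : β → F) (z d : α → F) (l : F) :
    Bf C u (fun a => z a + l * d a) (fun a => z a + l * d a) =
      Bf C u z z + (2 * Bf C u z d) * l + Bf C u d d * l ^ 2 := by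
  have h : Bf C u (fun a => z a + l * d a) (fun a => z a + l * d a) =
      Bf C u z z + Bf C u z d * l + Bf C u d z * l + Bf C u d d * l ^ 2 := by
    unfold Bf
    simp only [Finset.sum_mul, ← Finset.sum_add_distrib]
    refine Finset.sum_congr rfl fun i _ => Finset.sum_congr rfl fun j _ => ?_
    ring
  rw [h, Bf_symm C hC u d z]
  ring

end alg

section cont

variable {α β : Type} [Fintype α] [Fintype β] {F : Type} [NontriviallyNormedField F]

theorem near_of_mem {u₀ : β → F} {x₀ y₀ : α → F} {U : Set ((β → F) × (α → F) × (α → F))}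
    (hU : U ∈ 𝓝 (u₀, x₀, y₀)) : ∃ ρ : ℝ, 0 < ρ ∧ ∀ (u : β → F) (x y : α → F),
    (∀ b, ‖u b - u₀ b‖ < ρ) → (∀ a, ‖x a - x₀ a‖ < ρ) → (∀ a, ‖y a - y₀ a‖ < ρ) →
    (u, x, y) ∈ U := by
  obtain ⟨ρ, hρ, hb⟩ := Metric.mem_nhds_iff.1 hU
  refine ⟨ρ, hρ, fun u x y hu hx hy => hb ?_⟩
  rw [Metric.mem_ball, Prod.dist_eq, Prod.dist_eq]
  refine max_lt ?_ (max_lt ?_ ?_)
  · exact (dist_pi_lt_iff hρ).2 fun b => by rw [dist_eq_norm]; exact hu b
  · exact (dist_pi_lt_iff hρ).2 fun b => by rw [dist_eq_norm]; exact hx b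
  · exact (dist_pi_lt_iff hρ).2 fun b => by rw [dist_eq_norm]; exact hy b

theorem near2 {u₀ : β → F} {x₀ : α → F} {U : Set ((β → F) × (α → F))}
    (hU : U ∈ 𝓝 (u₀, x₀)) : ∃ ρ : ℝ, 0 < ρ ∧ ∀ (u : β → F) (x : α → F),
    (∀ b, ‖u b - u₀ b‖ < ρ) → (∀ a, ‖x a - x₀ a‖ < ρ) → (u, x) ∈ U := by
  obtain ⟨ρ, hρ, hb⟩ := Metric.mem_nhds_iff.1 hU
  refine ⟨ρ, hρ, fun u x hu hx => hb ?_⟩
  rw [Metric.mem_ball, Prod.dist_eq]
  refine max_lt ?_ ?_
  · exact (dist_pi_lt_iff hρ).2 fun b => by rw [dist_eq_norm]; exact hu b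
  · exact (dist_pi_lt_iff hρ).2 fun b => by rw [dist_eq_norm]; exact hx b

omit [Fintype β] in
theorem cont_eval (g : MvPolynomial β F) : Continuous fun u : β → F => MvPolynomial.eval u g :=
  MvPolynomial.continuous_eval g

omit [Fintype β] in
theorem cont_Bf (C : α → α → MvPolynomial β F) :
    Continuous fun p : (β → F) × (α → F) × (α → F) => Bf C p.1 p.2.1 p.2.2 := by
  unfold Bf
  refine continuous_finsetSum _ fun i _ => continuous_finsetSum _ fun j _ => ?_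
  refine (((cont_eval (C i j)).comp continuous_fst).mul
    ((continuous_apply i).comp (continuous_fst.comp continuous_snd))).mul
    ((continuous_apply j).comp (continuous_snd.comp continuous_snd))

omit [Fintype β] in
theorem cont_pl (g : MvPolynomial β F) (e e' : β → F) (l : ℕ) : ∀ k : ℕ,
    Continuous fun u : β → F => ((pl g u e e').coeff l).coeff k := by
  induction g using MvPolynomial.induction_on generalizing l with
  | C a =>
    intro k
    have : (fun u : β → F => ((pl (MvPolynomial.C a : MvPolynomial β F) u e e').coeff l).coeff k) =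
        fun _ => (((Polynomial.C (Polynomial.C a) : Polynomial (Polynomial F))).coeff l).coeff k := by
      funext u
      unfold pl
      rw [MvPolynomial.aeval_C]
      rfl
    rw [this]
    exact continuous_const
  | add p q hp hq =>
    intro k
    have : (fun u : β → F => ((pl (p + q) u e e').coeff l).coeff k) =
        fun u => ((pl p u e e').coeff l).coeff k + ((pl q u e e').coeff l).coeff k := by
      funext u
      unfold pl
      rw [map_add, Polynomial.coeff_add, Polynomial.coeff_add]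
    rw [this]
    exact (hp l k).add (hq l k)
  | mul_X p b hp =>
    intro k
    have hX : ∀ l' k' : ℕ, Continuous fun u : β → F =>
        ((Polynomial.C (Polynomial.C (u b) +
    Polynomial.C (e b) * Polynomial.X) + Polynomial.C (Polynomial.C (e' b)) * Polynomial.X :
      Polynomial (Polynomial F)).coeff l').coeff k' := by
      intro l' k'
      simp only [Polynomial.coeff_add, Polynomial.coeff_C, Polynomial.coeff_C_mul]
      refine Continuous.add ?_ continuous_const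
      by_cases hl : l' = 0
      · simp only [hl, if_true, Polynomial.coeff_add, Polynomial.coeff_C, Polynomial.coeff_C_mul]
        refine Continuous.add ?_ continuous_const
        by_cases hk : k' = 0
        · simp only [hk, if_true]
          exact continuous_apply b
        · simp only [hk, if_false]
          exact continuous_const
      · simp only [hl, if_false, Polynomial.coeff_zero]
        exact continuous_const
    have : (fun u : β → F => ((pl (p * MvPolynomial.X b) u e e').coeff l).coeff k) =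
        fun u => ∑ x ∈ Finset.HasAntidiagonal.antidiagonal l, ∑ y ∈ Finset.HasAntidiagonal.antidiagonal k,
          ((pl p u e e').coeff x.1).coeff y.1 * ((Polynomial.C (Polynomial.C (u b) +
    Polynomial.C (e b) * Polynomial.X) + Polynomial.C (Polynomial.C (e' b)) * Polynomial.X :
      Polynomial (Polynomial F)).coeff x.2).coeff y.2 := by
      funext u
      unfold pl
      rw [map_mul, MvPolynomial.aeval_X, Polynomial.coeff_mul, Polynomial.finsetSum_coeff]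
      refine Finset.sum_congr rfl fun x _ => ?_
      rw [Polynomial.coeff_mul]
    rw [this]
    exact continuous_finsetSum _ fun x _ => continuous_finsetSum _ fun y _ =>
      (hp x.1 y.1).mul (hX x.2 y.2)

omit [Fintype β] in
theorem cont_c9 (C : α → α → MvPolynomial β F) (e e' : β → F) (m : Fin 9) :
    Continuous fun p : (β → F) × (α → F) => c9 C p.1 e e' p.2 m := by
  unfold c9 cf
  refine continuous_finsetSum _ fun i _ => continuous_finsetSum _ fun j _ => ?_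
  exact (((cont_pl (C i j) e e' _ _).comp continuous_fst).mul
    ((continuous_apply i).comp continuous_snd)).mul
    ((continuous_apply j).comp continuous_snd)

/-- nonvanishing persists -/
theorem nz (C : α → α → MvPolynomial β F) (u₀ : β → F) (x₀ y₀ : α → F)
    (h : Bf C u₀ x₀ y₀ ≠ 0) : ∃ ρ : ℝ, 0 < ρ ∧ ∀ (u : β → F) (x y : α → F),
    (∀ b, ‖u b - u₀ b‖ < ρ) → (∀ a, ‖x a - x₀ a‖ < ρ) → (∀ a, ‖y a - y₀ a‖ < ρ) →
    Bf C u x y ≠ 0 :=
  near_of_mem ((isOpen_ne_fun (cont_Bf C) continuous_const).mem_nhds h)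

theorem nz9 (C : α → α → MvPolynomial β F) (e e' : β → F) (u₀ : β → F) (x₀ : α → F)
    (m : Fin 9) (h : c9 C u₀ e e' x₀ m ≠ 0) : ∃ ρ : ℝ, 0 < ρ ∧ ∀ (u : β → F) (x : α → F),
    (∀ b, ‖u b - u₀ b‖ < ρ) → (∀ a, ‖x a - x₀ a‖ < ρ) → c9 C u e e' x m ≠ 0 :=
  near2 ((isOpen_ne_fun (cont_c9 C e e' m) continuous_const).mem_nhds h)

/-- closeness of `c9` -/
theorem cl9 (C : α → α → MvPolynomial β F) (e e' : β → F) (u₀ : β → F) (x₀ : α → F) (ε : ℝ)
    (hε : 0 < ε) : ∃ ρ : ℝ, 0 < ρ ∧ ∀ (u : β → F) (x : α → F),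
    (∀ b, ‖u b - u₀ b‖ < ρ) → (∀ a, ‖x a - x₀ a‖ < ρ) → ∀ m,
      ‖c9 C u e e' x m - c9 C u₀ e e' x₀ m‖ < ε := by
  have hm : ∀ m : Fin 9, ∃ ρ : ℝ, 0 < ρ ∧ ∀ (u : β → F) (x : α → F),
    (∀ b, ‖u b - u₀ b‖ < ρ) → (∀ a, ‖x a - x₀ a‖ < ρ) →
      ‖c9 C u e e' x m - c9 C u₀ e e' x₀ m‖ < ε := by
    intro m
    have hc : Continuous fun p : (β → F) × (α → F) =>
        ‖c9 C p.1 e e' p.2 m - c9 C u₀ e e' x₀ m‖ :=
      ((cont_c9 C e e' m).sub continuous_const).norm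
    exact near2 (u₀ := u₀) (x₀ := x₀)
      ((isOpen_lt hc (continuous_const (y := ε))).mem_nhds (by
        show ‖c9 C u₀ e e' x₀ m - c9 C u₀ e e' x₀ m‖ < ε
        rw [sub_self, norm_zero]
        exact hε))
  choose ρ hρ hb using hm
  obtain ⟨r, hr, hr2⟩ := fmin ρ hρ
  exact ⟨r, hr, fun u x hu hx m => hb m u x (fun b => (hu b).trans_le (hr2 m))
    (fun a => (hx a).trans_le (hr2 m))⟩

/-- closeness of `Bf` -/
theorem clB (C : α → α → MvPolynomial β F) (u₀ : β → F) (x₀ y₀ : α → F) (ε : ℝ)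
    (hε : 0 < ε) : ∃ ρ : ℝ, 0 < ρ ∧ ∀ (u : β → F) (x y : α → F),
    (∀ b, ‖u b - u₀ b‖ < ρ) → (∀ a, ‖x a - x₀ a‖ < ρ) → (∀ a, ‖y a - y₀ a‖ < ρ) →
      ‖Bf C u x y - Bf C u₀ x₀ y₀‖ < ε := by
  have hc : Continuous fun p : (β → F) × (α → F) × (α → F) =>
      ‖Bf C p.1 p.2.1 p.2.2 - Bf C u₀ x₀ y₀‖ := ((cont_Bf C).sub continuous_const).norm
  exact near_of_mem (u₀ := u₀) (x₀ := x₀) (y₀ := y₀)
    ((isOpen_lt hc (continuous_const (y := ε))).mem_nhds (by simpa using hε))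

variable [CompleteSpace F]

/-- the quadric has points near a point for which the derivative does not vanish -/
theorem nzq (h1 : S_ONE) (h2 : (2 : F) ≠ 0) (C : α → α → MvPolynomial β F)
    (hC : ∀ i j, C i j = C j i) (u₀ : β → F) (z d : α → F) (hz : Bf C u₀ z z = 0)
    (hd : Bf C u₀ z d ≠ 0) (ε : ℝ) (hε : 0 < ε) : ∃ ρ : ℝ, 0 < ρ ∧ ∀ u : β → F,
    (∀ b, ‖u b - u₀ b‖ < ρ) → ∃ z' : α → F, (∀ a, ‖z' a - z a‖ < ε) ∧ Bf C u z' z' = 0 := by
  obtain ⟨D, hD1, hD⟩ := fmax fun a => ‖d a‖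
  obtain ⟨ρ₁, hρ₁, hone⟩ := h1 F (2 * Bf C u₀ z d) (Bf C u₀ d d) 0 (mul_ne_zero h2 hd)
    (ε / D) (by positivity)
  have h2n : 0 < ‖(2 : F)‖ := norm_pos_iff.2 h2
  obtain ⟨r₁, hr₁, hb₁⟩ := clB C u₀ z z ρ₁ hρ₁
  obtain ⟨r₂, hr₂, hb₂⟩ := clB C u₀ z d (ρ₁ / ‖(2 : F)‖) (by positivity)
  obtain ⟨r₃, hr₃, hb₃⟩ := clB C u₀ d d ρ₁ hρ₁
  refine ⟨min r₁ (min r₂ r₃), lt_min hr₁ (lt_min hr₂ hr₃), fun u hu => ?_⟩
  have hz0 : ∀ r : ℝ, 0 < r → ∀ a, ‖z a - z a‖ < r := fun r hr a => by simpa using hr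
  have hd0 : ∀ r : ℝ, 0 < r → ∀ a, ‖d a - d a‖ < r := fun r hr a => by simpa using hr
  have e1 := hb₁ u z z (fun b => (hu b).trans_le (min_le_left _ _)) (hz0 _ hr₁) (hz0 _ hr₁)
  have e2 := hb₂ u z d (fun b => (hu b).trans_le ((min_le_right _ _).trans (min_le_left _ _)))
    (hz0 _ hr₂) (hd0 _ hr₂)
  have e3 := hb₃ u d d (fun b => (hu b).trans_le ((min_le_right _ _).trans (min_le_right _ _)))
    (hd0 _ hr₃) (hd0 _ hr₃)
  obtain ⟨t, ht, het⟩ := hone (Bf C u z z) (2 * Bf C u z d) (Bf C u d d) 0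
    (by rw [hz, sub_zero] at e1; exact e1)
    (by
      rw [← mul_sub, norm_mul]
      calc ‖(2 : F)‖ * ‖Bf C u z d - Bf C u₀ z d‖ < ‖(2 : F)‖ * (ρ₁ / ‖(2 : F)‖) :=
            mul_lt_mul_of_pos_left e2 h2n
        _ = ρ₁ := by field_simp)
    e3 (by simpa using hρ₁)
  refine ⟨fun a => z a + t * d a, fun a => ?_, ?_⟩
  · rw [add_sub_cancel_left, norm_mul]
    calc ‖t‖ * ‖d a‖ ≤ ‖t‖ * D := mul_le_mul_of_nonneg_left (hD a) (norm_nonneg _)
      _ < ε / D * D := mul_lt_mul_of_pos_right ht (by linarith)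
      _ = ε := by
        have : D ≠ 0 := by linarith
        field_simp
  · rw [Bf_line C hC]
    simpa using het

/-- the common point of two plane cubics -/
theorem two' (h2 : S_TWO) (C : α → α → MvPolynomial β F) (e e' : β → F) (hP : Pid C e e')
    (u₀ : β → F) (z₁ z₂ : α → F) (hz : Bf C u₀ z₂ z₂ = 0)
    (hdet : c9 C u₀ e e' z₁ 0 * c9 C u₀ e e' z₂ 1 - c9 C u₀ e e' z₁ 1 * c9 C u₀ e e' z₂ 0 ≠ 0)
    (ε : ℝ) (hε : 0 < ε) : ∃ ρ : ℝ, 0 < ρ ∧ ∀ (u : β → F) (x z : α → F),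
    (∀ b, ‖u b - u₀ b‖ < ρ) → (∀ a, ‖x a - z₁ a‖ < ρ) → (∀ a, ‖z a - z₂ a‖ < ρ) →
    Bf C u x x = 0 → ∃ S R : F, ‖S‖ < ε ∧ ‖R‖ < ε ∧
      Bf C (fun b => u b + S * e b + R * e' b) x x = 0 ∧
      Bf C (fun b => u b + S * e b + R * e' b) z z = 0 := by
  obtain ⟨ρ₁, hρ₁, htwo⟩ := h2 F (c9 C u₀ e e' z₁) (c9 C u₀ e e' z₂) hdet ε hε
  obtain ⟨r₁, hr₁, hb₁⟩ := cl9 C e e' u₀ z₁ ρ₁ hρ₁
  obtain ⟨r₂, hr₂, hb₂⟩ := cl9 C e e' u₀ z₂ ρ₁ hρ₁
  obtain ⟨r₃, hr₃, hb₃⟩ := clB C u₀ z₂ z₂ ρ₁ hρ₁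
  refine ⟨min r₁ (min r₂ r₃), lt_min hr₁ (lt_min hr₂ hr₃), fun u x z hu hx hz' hxx => ?_⟩
  have e1 := hb₁ u x (fun b => (hu b).trans_le (min_le_left _ _))
    (fun b => (hx b).trans_le (min_le_left _ _))
  have e2 := hb₂ u z (fun b => (hu b).trans_le ((min_le_right _ _).trans (min_le_left _ _)))
    (fun b => (hz' b).trans_le ((min_le_right _ _).trans (min_le_left _ _)))
  have e3 := hb₃ u z z (fun b => (hu b).trans_le ((min_le_right _ _).trans (min_le_right _ _)))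
    (fun b => (hz' b).trans_le ((min_le_right _ _).trans (min_le_right _ _)))
    (fun b => (hz' b).trans_le ((min_le_right _ _).trans (min_le_right _ _)))
  rw [hz, sub_zero] at e3
  obtain ⟨S, R, hS, hR, h3, h4⟩ := htwo (c9 C u e e' x) (c9 C u e e' z) 0 (Bf C u z z) e1 e2
    (by simpa using hρ₁) e3
  refine ⟨S, R, hS, hR, ?_, ?_⟩
  · rw [hP u x S R, hxx]
    exact h3
  · rw [hP u z S R]
    exact h4

/-- the correction in the direction `e'` -/
theorem lemE (h1 : S_ONE) (C : α → α → MvPolynomial β F) (e e' : β → F) (hP : Pid C e e')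
    (u : β → F) (z : α → F) (hz : Bf C u z z = 0) (hc : c9 C u e e' z 1 ≠ 0)
    (ε : ℝ) (hε : 0 < ε) : ∃ ρ : ℝ, 0 < ρ ∧ ∀ x : α → F, (∀ a, ‖x a - z a‖ < ρ) →
      ∃ r : F, ‖r‖ < ε ∧ Bf C (fun b => u b + r * e' b) x x = 0 := by
  obtain ⟨ρ₁, hρ₁, hone⟩ := h1 F (c9 C u e e' z 1) (c9 C u e e' z 4) (c9 C u e e' z 8) hc ε hε
  obtain ⟨r₁, hr₁, hb₁⟩ := cl9 C e e' u z ρ₁ hρ₁
  obtain ⟨r₂, hr₂, hb₂⟩ := clB C u z z ρ₁ hρ₁
  refine ⟨min r₁ r₂, lt_min hr₁ hr₂, fun x hx => ?_⟩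
  have e1 := hb₁ u x (fun b => by simpa using hr₁) (fun a => (hx a).trans_le (min_le_left _ _))
  have e2 := hb₂ u x x (fun b => by simpa using hr₂) (fun a => (hx a).trans_le (min_le_right _ _))
    (fun a => (hx a).trans_le (min_le_right _ _))
  rw [hz, sub_zero] at e2
  obtain ⟨r, hr, her⟩ := hone (Bf C u x x) (c9 C u e e' x 1) (c9 C u e e' x 4)
    (c9 C u e e' x 8) e2 (e1 1) (e1 4) (e1 8)
  refine ⟨r, hr, ?_⟩
  have := hP u x 0 r
  simp only [zero_mul, add_zero] at this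
  rw [this]
  unfold cub
  linear_combination her

end cont

theorem tri {F : Type} [NormedField F] (u u₀ S R e e' : F) (M : ℝ) (he : ‖e‖ ≤ M)
    (he' : ‖e'‖ ≤ M) : ‖u + S * e + R * e' - u₀‖ ≤ ‖u - u₀‖ + M * ‖S‖ + M * ‖R‖ := by
  have h : u + S * e + R * e' - u₀ = (u - u₀) + S * e + R * e' := by ring
  rw [h]
  have h1 : ‖S * e‖ ≤ M * ‖S‖ := by
    rw [norm_mul, mul_comm]
    exact mul_le_mul_of_nonneg_right he (norm_nonneg _)
  have h2 : ‖R * e'‖ ≤ M * ‖R‖ := by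
    rw [norm_mul, mul_comm]
    exact mul_le_mul_of_nonneg_right he' (norm_nonneg _)
  calc ‖u - u₀ + S * e + R * e'‖ ≤ ‖u - u₀ + S * e‖ + ‖R * e'‖ := norm_add_le _ _
    _ ≤ ‖u - u₀‖ + ‖S * e‖ + ‖R * e'‖ := by
      have := norm_add_le (u - u₀) (S * e)
      linarith
    _ ≤ _ := by linarith

theorem scale {M c x : ℝ} (hM : 1 ≤ M) (h : x < c / (8 * M)) : M * x < c / 8 := by
  have hM0 : 0 < M := by linarith
  rw [lt_div_iff₀ (by positivity)] at h
  linarith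

theorem scale' {M c x : ℝ} (hM : 1 ≤ M) (hx : 0 ≤ x) (h : x < c / (8 * M)) : x < c / 8 := by
  have := scale hM h
  nlinarith

section places

variable {V : Type} [Finite V] {L : V → Type} [∀ v, NontriviallyNormedField (L v)]
  {α β : Type} [Fintype α] [Fintype β]

theorem unz (C : ∀ v, α → α → MvPolynomial β (L v)) (u₀ : ∀ v, β → L v) (x₀ y₀ : ∀ v, α → L v)
    (h : ∀ v, Bf (C v) (u₀ v) (x₀ v) (y₀ v) ≠ 0) :
    ∃ ρ : ℝ, 0 < ρ ∧ ∀ (v : V) (u : β → L v) (x y : α → L v), (∀ b, ‖u b - u₀ v b‖ < ρ) →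
      (∀ a, ‖x a - x₀ v a‖ < ρ) → (∀ a, ‖y a - y₀ v a‖ < ρ) → Bf (C v) u x y ≠ 0 := by
  choose ρ hρ hb using fun v => nz (C v) (u₀ v) (x₀ v) (y₀ v) (h v)
  obtain ⟨r, hr, hr2⟩ := fmin ρ hρ
  exact ⟨r, hr, fun v u x y hu hx hy => hb v u x y (fun b => (hu b).trans_le (hr2 v))
    (fun a => (hx a).trans_le (hr2 v)) (fun a => (hy a).trans_le (hr2 v))⟩

theorem unz9 (C : ∀ v, α → α → MvPolynomial β (L v)) (e e' : ∀ v, β → L v)
    (u₀ : ∀ v, β → L v) (x₀ : ∀ v, α → L v)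
    (h : ∀ v, c9 (C v) (u₀ v) (e v) (e' v) (x₀ v) 1 ≠ 0) :
    ∃ ρ : ℝ, 0 < ρ ∧ ∀ (v : V) (u : β → L v) (x : α → L v), (∀ b, ‖u b - u₀ v b‖ < ρ) →
      (∀ a, ‖x a - x₀ v a‖ < ρ) → c9 (C v) u (e v) (e' v) x 1 ≠ 0 := by
  choose ρ hρ hb using fun v => nz9 (C v) (e v) (e' v) (u₀ v) (x₀ v) 1 (h v)
  obtain ⟨r, hr, hr2⟩ := fmin ρ hρ
  exact ⟨r, hr, fun v u x hu hx => hb v u x (fun b => (hu b).trans_le (hr2 v))
    (fun a => (hx a).trans_le (hr2 v))⟩

theorem unzq [∀ v, CompleteSpace (L v)] (h1 : S_ONE) (h2 : ∀ v, (2 : L v) ≠ 0)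
    (C : ∀ v, α → α → MvPolynomial β (L v)) (hC : ∀ v i j, C v i j = C v j i)
    (u₀ : ∀ v, β → L v) (z d : ∀ v, α → L v) (hz : ∀ v, Bf (C v) (u₀ v) (z v) (z v) = 0)
    (hd : ∀ v, Bf (C v) (u₀ v) (z v) (d v) ≠ 0) (ε : ℝ) (hε : 0 < ε) :
    ∃ ρ : ℝ, 0 < ρ ∧ ∀ (v : V) (u : β → L v), (∀ b, ‖u b - u₀ v b‖ < ρ) →
      ∃ z' : α → L v, (∀ a, ‖z' a - z v a‖ < ε) ∧ Bf (C v) u z' z' = 0 := by
  choose ρ hρ hb using fun v => nzq h1 (h2 v) (C v) (hC v) (u₀ v) (z v) (d v) (hz v) (hd v) ε hε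
  obtain ⟨r, hr, hr2⟩ := fmin ρ hρ
  exact ⟨r, hr, fun v u hu => hb v u (fun b => (hu b).trans_le (hr2 v))⟩

end places

end Pln

open Pln in
theorem t_PLN (hQ : S_QUA) (h1 : S_ONE) (h2 : S_TWO) : S_PLN := by
  intro K _ _ V _ L _ _ s hD α β _ _ C hC e e' hP hPv x₀ z₁ z₂ u₀ hx0 hz1 hz2 hB01 hB12 hB20
    hdet hc1 hM1 hM2
  classical
  have hchar : ∀ v, (2 : L v) ≠ 0 := by
    intro v h
    have h' : s v 2 = 0 := by
      rw [map_ofNat]
      exact h
    exact two_ne_zero ((map_eq_zero (s v)).1 h')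
  have hCv : ∀ v i j, mC (s v) C i j = mC (s v) C j i := fun v i j => by
    unfold mC
    rw [hC]
  -- the bound of the directions
  obtain ⟨M, hM, hMb⟩ := fmax fun v : V => ∑ b, (‖s v (e b)‖ + ‖s v (e' b)‖)
  have hMe : ∀ v b, ‖s v (e b)‖ ≤ M := fun v b => by
    refine le_trans ?_ (hMb v)
    refine le_trans ?_ (Finset.single_le_sum (f := fun b => ‖s v (e b)‖ + ‖s v (e' b)‖)
      (fun b _ => by positivity) (Finset.mem_univ b))
    have := norm_nonneg (s v (e' b))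
    linarith
  have hMe' : ∀ v b, ‖s v (e' b)‖ ≤ M := fun v b => by
    refine le_trans ?_ (hMb v)
    refine le_trans ?_ (Finset.single_le_sum (f := fun b => ‖s v (e b)‖ + ‖s v (e' b)‖)
      (fun b _ => by positivity) (Finset.mem_univ b))
    have := norm_nonneg (s v (e b))
    linarith
  have hM0 : 0 < M := by linarith
  -- the radii
  obtain ⟨n1, hn1, hN1⟩ := unz (fun v => mC (s v) C) u₀ x₀ z₁ hB01
  obtain ⟨n2, hn2, hN2⟩ := unz (fun v => mC (s v) C) u₀ z₁ z₂ hB12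
  obtain ⟨n3, hn3, hN3⟩ := unz (fun v => mC (s v) C) u₀ z₂ x₀ hB20
  have hB02 : ∀ v, Bf (mC (s v) C) (u₀ v) (x₀ v) (z₂ v) ≠ 0 := fun v => by
    rw [Bf_symm _ (hCv v)]
    exact hB20 v
  have hB10 : ∀ v, Bf (mC (s v) C) (u₀ v) (z₁ v) (x₀ v) ≠ 0 := fun v => by
    rw [Bf_symm _ (hCv v)]
    exact hB01 v
  obtain ⟨n5, hn5, hN5⟩ := unz (fun v => mC (s v) C) u₀ x₀ z₂ hB02
  obtain ⟨n6, hn6, hN6⟩ := unz9 (fun v => mC (s v) C) (fun v b => s v (e b))
    (fun v b => s v (e' b)) u₀ z₂ hc1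
  obtain ⟨δ₁, hδ₁, hMv1⟩ := hM1
  obtain ⟨δ₂, hδ₂, hMv2⟩ := hM2
  obtain ⟨σ, hσ, hσ1, hσ2, hσ3, hσ5, hσ6, hσd1, hσd2⟩ : ∃ σ : ℝ, 0 < σ ∧ σ ≤ n1 ∧ σ ≤ n2 ∧
      σ ≤ n3 ∧ σ ≤ n5 ∧ σ ≤ n6 ∧ σ ≤ δ₁ ∧ σ ≤ δ₂ :=
    ⟨min n1 (min n2 (min n3 (min n5 (min n6 (min δ₁ δ₂))))), by positivity, by simp, by simp,
      by simp, by simp, by simp, by simp, by simp⟩
  have hE0 : 0 < σ / (8 * M) := by positivity
  -- TWO
  have hT : ∃ ρ : ℝ, 0 < ρ ∧ ∀ (v : V) (u : β → L v) (x z : α → L v),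
      (∀ b, ‖u b - u₀ v b‖ < ρ) → (∀ a, ‖x a - z₁ v a‖ < ρ) → (∀ a, ‖z a - z₂ v a‖ < ρ) →
      Bf (mC (s v) C) u x x = 0 → ∃ S R : L v, ‖S‖ < σ / (8 * M) ∧ ‖R‖ < σ / (8 * M) ∧
      Bf (mC (s v) C) (fun b => u b + S * s v (e b) + R * s v (e' b)) x x = 0 ∧
      Bf (mC (s v) C) (fun b => u b + S * s v (e b) + R * s v (e' b)) z z = 0 := by
    choose ρ hρ hb using fun v => two' h2 (mC (s v) C) (fun b => s v (e b))
      (fun b => s v (e' b)) (hPv v) (u₀ v) (z₁ v) (z₂ v) (hz2 v) (hdet v) (σ / (8 * M)) hE0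
    obtain ⟨r, hr, hr2⟩ := fmin ρ hρ
    exact ⟨r, hr, fun v u x z hu hx hz => hb v u x z (fun b => (hu b).trans_le (hr2 v))
      (fun a => (hx a).trans_le (hr2 v)) (fun a => (hz a).trans_le (hr2 v))⟩
  obtain ⟨ρB, hρB, hTB⟩ := hT
  obtain ⟨m, hm, hmB, hmσ⟩ : ∃ m : ℝ, 0 < m ∧ m ≤ ρB ∧ m ≤ σ :=
    ⟨min ρB σ, lt_min hρB hσ, min_le_left _ _, min_le_right _ _⟩
  obtain ⟨ρA, hρA, hA⟩ := unzq h1 hchar (fun v => mC (s v) C) hCv u₀ z₁ x₀ hz1 hB10 (m / 4)
    (by positivity)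
  obtain ⟨ρC, hρC, hCc⟩ := unzq h1 hchar (fun v => mC (s v) C) hCv u₀ z₂ x₀ hz2 hB20 (m / 4)
    (by positivity)
  obtain ⟨δ, hδ, hδA, hδB, hδC, hδσ⟩ : ∃ δ : ℝ, 0 < δ ∧ δ ≤ ρA ∧ δ ≤ ρB ∧
      δ ≤ ρC / (8 * M) ∧ δ ≤ σ / (8 * M) :=
    ⟨min ρA (min ρB (min (ρC / (8 * M)) (σ / (8 * M)))), by positivity, by simp, by simp,
      by simp, by simp⟩
  have hδσ' : M * δ ≤ σ / 8 := by
    rw [le_div_iff₀ (by positivity)] at hδσ
    linarith
  have hδC' : M * δ ≤ ρC / 8 := by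
    rw [le_div_iff₀ (by positivity)] at hδC
    linarith
  have hδM : δ ≤ M * δ := by nlinarith
  refine ⟨δ, hδ, ?_⟩
  intro x u hxx hx hu t y ht hy hyy η hη
  -- step A
  choose y₁ hy₁ hy₁Q using fun v => hA v (fun b => s v (u b)) (fun b => (hu v b).trans_le hδA)
  obtain ⟨x₁, hx₁Q, hx₁⟩ := hQ K V L s hD α β C hC u x hxx y₁ hy₁Q
    (fun v => hN1 v _ _ _ (fun b => (hu v b).trans_le (by linarith))
      (fun a => (hx v a).trans_le (by linarith))
      (fun a => (hy₁ v a).trans_le (by linarith))) (m / 4) (by positivity)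
  have hx₁z : ∀ v a, ‖s v (x₁ a) - z₁ v a‖ < m / 2 := fun v a => by
    have h3 := hx₁ v a
    have h4 := hy₁ v a
    have h5 := norm_sub_le_norm_sub_add_norm_sub (s v (x₁ a)) (y₁ v a) (z₁ v a)
    linarith
  -- step B
  have hus : ∀ v b, ‖(s v (u b) + t v * s v (e b)) - u₀ v b‖ ≤ 2 * (M * δ) := fun v b => by
    have h3 := tri (s v (u b)) (u₀ v b) (t v) 0 (s v (e b)) (s v (e b)) M (hMe v b) (hMe v b)
    rw [zero_mul, add_zero, norm_zero, mul_zero, add_zero] at h3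
    have h4 := (hu v b).le
    have h5 : M * ‖t v‖ ≤ M * δ := mul_le_mul_of_nonneg_left (ht v).le hM0.le
    linarith
  choose z' hz' hz'Q using fun v => hCc v (fun b => s v (u b) + t v * s v (e b))
    (fun b => (hus v b).trans_lt (by linarith))
  have hx₁Qv : ∀ v, Bf (mC (s v) C) (fun b => s v (u b)) (fun a => s v (x₁ a))
      (fun a => s v (x₁ a)) = 0 := fun v => by
    rw [← Bf_map', hx₁Q, map_zero]
  choose S R hS hR hSRx hSRz using fun v => hTB v (fun b => s v (u b)) (fun a => s v (x₁ a))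
    (z' v) (fun b => (hu v b).trans_le hδB) (fun a => (hx₁z v a).trans_le (by linarith))
    (fun a => (hz' v a).trans_le (by linarith)) (hx₁Qv v)
  have hu' : ∀ v b, ‖(s v (u b) + S v * s v (e b) + R v * s v (e' b)) - u₀ v b‖ < σ / 2 :=
    fun v b => by
      have h3 := tri (s v (u b)) (u₀ v b) (S v) (R v) (s v (e b)) (s v (e' b)) M (hMe v b)
        (hMe' v b)
      have h4 := hu v b
      have h5 := scale hM (hS v)
      have h6 := scale hM (hR v)
      linarith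
  -- step F, precision
  obtain ⟨ζ, hζ, hζη, hζσ⟩ : ∃ ζ : ℝ, 0 < ζ ∧ ζ ≤ η ∧ ζ ≤ σ :=
    ⟨min η σ, lt_min hη hσ, min_le_left _ _, min_le_right _ _⟩
  obtain ⟨ρF, hρF, hF⟩ := unzq h1 hchar (fun v => mC (s v) C) hCv
    (fun v b => s v (u b) + t v * s v (e b)) y z₂ hyy
    (fun v => hN5 v _ _ _ (fun b => (hus v b).trans_lt (by linarith))
      (fun a => (hy v a).trans_le (by linarith)) (fun a => by simpa using hn5)) (ζ / 4)
    (by positivity)
  obtain ⟨κF, hκF, hκFρ, hκFζ⟩ : ∃ κ : ℝ, 0 < κ ∧ κ ≤ ρF ∧ κ ≤ ζ :=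
    ⟨min ρF ζ, lt_min hρF hζ, min_le_left _ _, min_le_right _ _⟩
  -- step E, precision
  have hE : ∃ ρ : ℝ, 0 < ρ ∧ ∀ (v : V) (x : α → L v), (∀ a, ‖x a - z' v a‖ < ρ) →
      ∃ r : L v, ‖r‖ < κF / (8 * M) ∧ Bf (mC (s v) C)
        (fun b => (s v (u b) + t v * s v (e b)) + r * s v (e' b)) x x = 0 := by
    choose ρ hρ hb using fun v => lemE h1 (mC (s v) C) (fun b => s v (e b))
      (fun b => s v (e' b)) (hPv v) (fun b => s v (u b) + t v * s v (e b)) (z' v) (hz'Q v)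
      (hN6 v _ _ (fun b => (hus v b).trans_lt (by linarith))
        (fun a => (hz' v a).trans_le (by linarith))) (κF / (8 * M)) (by positivity)
    obtain ⟨r, hr, hr2⟩ := fmin ρ hρ
    exact ⟨r, hr, fun v x hx => hb v x (fun b => (hx b).trans_le (hr2 v))⟩
  obtain ⟨ρE, hρE, hEE⟩ := hE
  obtain ⟨κE, hκE, hκEρ, hκEσ⟩ : ∃ κ : ℝ, 0 < κ ∧ κ ≤ ρE ∧ κ ≤ σ :=
    ⟨min ρE σ, lt_min hρE hσ, min_le_left _ _, min_le_right _ _⟩
  -- step D, precision
  obtain ⟨ρD, hρD, hDD⟩ := unzq h1 hchar (fun v => mC (s v) C) hCv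
    (fun v b => s v (u b) + S v * s v (e b) + R v * s v (e' b)) z' x₀ hSRz
    (fun v => hN3 v _ _ _ (fun b => (hu' v b).trans_le (by linarith))
      (fun a => (hz' v a).trans_le (by linarith)) (fun a => by simpa using hn3)) (κE / 4)
    (by positivity)
  obtain ⟨κD, hκD, hκDρ, hκDσ⟩ : ∃ κ : ℝ, 0 < κ ∧ κ ≤ ρD ∧ κ ≤ σ :=
    ⟨min ρD σ, lt_min hρD hσ, min_le_left _ _, min_le_right _ _⟩
  -- step C
  obtain ⟨S', R', hx₁', hSR'⟩ := hMv1 x₁ u hx₁Q
    (fun v a => (hx₁z v a).trans_le (by linarith)) (fun v b => (hu v b).trans_le (by linarith))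
    S R (fun v => (scale' hM (norm_nonneg _) (hS v)).trans_le (by linarith))
    (fun v => (scale' hM (norm_nonneg _) (hR v)).trans_le (by linarith)) hSRx
    (κD / (8 * M)) (by positivity)
  set u₁ : β → K := fun b => u b + S' * e b + R' * e' b with hu₁
  have hsu₁ : ∀ v b, s v (u₁ b) = s v (u b) + s v S' * s v (e b) + s v R' * s v (e' b) :=
    fun v b => by rw [hu₁]; simp only [map_add, map_mul]
  have hu₁' : ∀ v b, ‖s v (u₁ b) - (s v (u b) + S v * s v (e b) + R v * s v (e' b))‖ < κD / 4 :=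
    fun v b => by
      have h3 := tri (s v (u b)) (s v (u b)) (s v S' - S v) (s v R' - R v) (s v (e b))
        (s v (e' b)) M (hMe v b) (hMe' v b)
      have h4 : s v (u₁ b) - (s v (u b) + S v * s v (e b) + R v * s v (e' b)) =
          s v (u b) + (s v S' - S v) * s v (e b) + (s v R' - R v) * s v (e' b) - s v (u b) := by
        rw [hsu₁]
        ring
      rw [h4]
      have h5 := scale hM (hSR' v).1
      have h6 := scale hM (hSR' v).2
      rw [sub_self, norm_zero] at h3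
      linarith
  have hu₁0 : ∀ v b, ‖s v (u₁ b) - u₀ v b‖ < 3 * σ / 4 := fun v b => by
    have h3 := hu₁' v b
    have h4 := hu' v b
    have h5 := norm_sub_le_norm_sub_add_norm_sub (s v (u₁ b))
      (s v (u b) + S v * s v (e b) + R v * s v (e' b)) (u₀ v b)
    linarith
  -- step D
  choose y₂ hy₂ hy₂Q using fun v => hDD v (fun b => s v (u₁ b))
    (fun b => (hu₁' v b).trans_le (by linarith))
  have hy₂z : ∀ v a, ‖y₂ v a - z₂ v a‖ < σ / 2 := fun v a => by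
    have h3 := hy₂ v a
    have h4 := hz' v a
    have h5 := norm_sub_le_norm_sub_add_norm_sub (y₂ v a) (z' v a) (z₂ v a)
    linarith
  obtain ⟨x₂, hx₂Q, hx₂⟩ := hQ K V L s hD α β C hC u₁ x₁ hx₁' y₂ hy₂Q
    (fun v => hN2 v _ _ _ (fun b => (hu₁0 v b).trans_le (by linarith))
      (fun a => (hx₁z v a).trans_le (by linarith))
      (fun a => (hy₂z v a).trans_le (by linarith))) (κE / 4) (by positivity)
  have hx₂z' : ∀ v a, ‖s v (x₂ a) - z' v a‖ < κE / 2 := fun v a => by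
    have h3 := hx₂ v a
    have h4 := hy₂ v a
    have h5 := norm_sub_le_norm_sub_add_norm_sub (s v (x₂ a)) (y₂ v a) (z' v a)
    linarith
  have hx₂z : ∀ v a, ‖s v (x₂ a) - z₂ v a‖ < 3 * σ / 4 := fun v a => by
    have h3 := hx₂z' v a
    have h4 := hz' v a
    have h5 := norm_sub_le_norm_sub_add_norm_sub (s v (x₂ a)) (z' v a) (z₂ v a)
    linarith
  -- step E
  choose r hr hrQ using fun v => hEE v (fun a => s v (x₂ a))
    (fun a => (hx₂z' v a).trans_le (by linarith))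
  have hS' : ∀ v, ‖s v S'‖ < σ / 4 := fun v => by
    have h3 := scale' hM (norm_nonneg _) (hSR' v).1
    have h4 := scale' hM (norm_nonneg _) (hS v)
    have h5 := norm_add_le (s v S' - S v) (S v)
    rw [sub_add_cancel] at h5
    linarith
  have hR' : ∀ v, ‖s v R'‖ < σ / 4 := fun v => by
    have h3 := scale' hM (norm_nonneg _) (hSR' v).2
    have h4 := scale' hM (norm_nonneg _) (hR v)
    have h5 := norm_add_le (s v R' - R v) (R v)
    rw [sub_add_cancel] at h5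
    linarith
  obtain ⟨S₃, R₃, hx₂', hSR₃⟩ := hMv2 x₂ u₁ hx₂Q
    (fun v a => (hx₂z v a).trans_le (by linarith)) (fun v b => (hu₁0 v b).trans_le (by linarith))
    (fun v => t v - s v S') (fun v => - s v R' + r v)
    (fun v => by
      have h3 := norm_sub_le (t v) (s v S')
      have h4 := ht v
      have h5 := hS' v
      linarith)
    (fun v => by
      have h3 := norm_add_le (- s v R') (r v)
      rw [norm_neg] at h3
      have h4 := scale' hM (norm_nonneg _) (hr v)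
      have h5 := hR' v
      linarith)
    (fun v => by
      have h3 : (fun b => s v (u₁ b) + (t v - s v S') * s v (e b) +
          (- s v R' + r v) * s v (e' b)) =
          fun b => (s v (u b) + t v * s v (e b)) + r v * s v (e' b) := by
        funext b
        rw [hsu₁]
        ring
      rw [h3]
      exact hrQ v)
    (κF / (8 * M)) (by positivity)
  set u₂ : β → K := fun b => u₁ b + S₃ * e b + R₃ * e' b with hu₂
  have hsu₂ : ∀ v b, s v (u₂ b) = s v (u₁ b) + s v S₃ * s v (e b) + s v R₃ * s v (e' b) :=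
    fun v b => by rw [hu₂]; simp only [map_add, map_mul]
  have hu₂' : ∀ v b, ‖s v (u₂ b) - (s v (u b) + t v * s v (e b))‖ < κF / 2 := fun v b => by
    have h3 := tri (r v * s v (e' b)) 0 (s v S₃ - (t v - s v S'))
      (s v R₃ - (- s v R' + r v)) (s v (e b)) (s v (e' b)) M (hMe v b) (hMe' v b)
    have h4 : s v (u₂ b) - (s v (u b) + t v * s v (e b)) =
        r v * s v (e' b) + (s v S₃ - (t v - s v S')) * s v (e b) +
          (s v R₃ - (- s v R' + r v)) * s v (e' b) - 0 := by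
      rw [hsu₂, hsu₁]
      ring
    rw [h4]
    have h5 := scale hM (hSR₃ v).1
    have h6 := scale hM (hSR₃ v).2
    have h7 := scale hM (hr v)
    have h8 : ‖r v * s v (e' b)‖ ≤ M * ‖r v‖ := by
      rw [norm_mul, mul_comm]
      exact mul_le_mul_of_nonneg_right (hMe' v b) (norm_nonneg _)
    simp only [sub_zero] at h3
    rw [sub_zero]
    linarith
  have hu₂0 : ∀ v b, ‖s v (u₂ b) - u₀ v b‖ < 3 * σ / 4 + σ / 8 := fun v b => by
    have h3 := hu₂' v b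
    have h4 := hus v b
    have h5 := norm_sub_le_norm_sub_add_norm_sub (s v (u₂ b)) (s v (u b) + t v * s v (e b))
      (u₀ v b)
    linarith
  -- step F
  choose y' hy' hy'Q using fun v => hF v (fun b => s v (u₂ b))
    (fun b => (hu₂' v b).trans_le (by linarith))
  have hy'0 : ∀ v a, ‖y' v a - x₀ v a‖ < σ / 2 := fun v a => by
    have h3 := hy' v a
    have h4 := hy v a
    have h5 := norm_sub_le_norm_sub_add_norm_sub (y' v a) (y v a) (x₀ v a)
    linarith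
  obtain ⟨x', hx'Q, hx'⟩ := hQ K V L s hD α β C hC u₂ x₂ hx₂' y' hy'Q
    (fun v => hN3 v _ _ _ (fun b => (hu₂0 v b).trans_le (by linarith))
      (fun a => (hx₂z v a).trans_le (by linarith))
      (fun a => (hy'0 v a).trans_le (by linarith))) (ζ / 4) (by positivity)
  refine ⟨x', u₂, hx'Q, fun v a => ?_, fun v b => (hu₂' v b).trans_le (by linarith)⟩
  have h3 := hx' v a
  have h4 := hy' v a
  have h5 := norm_sub_le_norm_sub_add_norm_sub (s v (x' a)) (y' v a) (y v a)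
  linarith

end Pool.Agent.K6.H43.GH
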