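import Pool.Agent.K6.H43.GH.Alg

/-!
# PRM: a root of `P` which is not a root of `Q`, in a family (helper75 for helper43)
-/

set_option autoImplicit false

open Polynomial

namespace Pool.Agent.K6.H43.GH

/-- pseudo-division -/
theorem prm_div {A : Type} [CommRing A] (P : A[X]) (n : ℕ) (hn : 0 < n) (hP : P.natDegree ≤ n) :
    ∀ (d : ℕ) (g : A[X]), g.natDegree ≤ d →
    ∃ (k : ℕ) (q r : A[X]), C (P.coeff n) ^ k * g = P * q + r ∧ r.natDegree < n := by
  intro d
  induction d with
  | zero =>
    intro g hg
    exact ⟨0, 0, g, by simp, by omega⟩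
  | succ d ih =>
    intro g hg
    by_cases hd : d + 1 < n
    · exact ⟨0, 0, g, by simp, by omega⟩
    · push Not at hd
      have h1 : (C (P.coeff n) * g - P * (C (g.coeff (d + 1)) * X ^ (d + 1 - n))).natDegree ≤ d := by
        rw [natDegree_le_iff_coeff_eq_zero]
        intro N hN
        have h2 : (P * (C (g.coeff (d + 1)) * X ^ (d + 1 - n))).coeff N =
            P.coeff (N - (d + 1 - n)) * g.coeff (d + 1) := by
          rw [← mul_assoc, coeff_mul_X_pow', if_pos (by omega), coeff_mul_C]
        rw [coeff_sub, coeff_C_mul, h2]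
        rcases Nat.eq_or_lt_of_le (show d + 1 ≤ N from hN) with h3 | h3
        · subst h3
          rw [show d + 1 - (d + 1 - n) = n by omega]
          ring
        · have h4 : g.coeff N = 0 := coeff_eq_zero_of_natDegree_lt (by omega)
          have h5 : P.coeff (N - (d + 1 - n)) = 0 := coeff_eq_zero_of_natDegree_lt (by omega)
          rw [h4, h5]
          ring
      obtain ⟨k, q, r, h3, h4⟩ := ih _ h1
      refine ⟨k + 1, q + C (P.coeff n) ^ k * (C (g.coeff (d + 1)) * X ^ (d + 1 - n)), r, ?_, h4⟩
      linear_combination h3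

theorem t_PRM : S_PRM := by
  intro A _ n P Q hPn M _ π s₀ hP hQ hl
  -- the degree is positive
  have hn : 0 < n := by
    rcases Nat.eq_zero_or_pos n with h0 | h0
    · exfalso
      subst h0
      rw [eq_C_of_natDegree_le_zero hPn, map_C, eval_C] at hP
      exact hl hP
    · exact h0
  obtain ⟨k, q, r, h1, h2⟩ := prm_div P n hn hPn _ (Q ^ n) le_rfl
  -- the remainder does not vanish
  have h3 : r.map π ≠ 0 := by
    intro h0
    have h4 := congrArg (fun f => (f.map π).eval s₀) h1
    simp only [Polynomial.map_mul, Polynomial.map_pow, Polynomial.map_add, map_C, eval_mul, eval_pow,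
      eval_C, h0, hP, zero_mul, add_zero] at h4
    exact (mul_ne_zero (pow_ne_zero k hl) (pow_ne_zero n hQ)) h4
  obtain ⟨j, hj⟩ : ∃ j, π (r.coeff j) ≠ 0 := by
    by_contra h0
    push Not at h0
    exact h3 (by ext j; rw [coeff_map, h0, coeff_zero])
  refine ⟨r.coeff j, hj, ?_⟩
  intro F _ φ hφ hρ
  by_contra h0
  push Not at h0
  -- work over the algebraic closure
  set ψ : A →+* AlgebraicClosure F := (algebraMap F (AlgebraicClosure F)).comp φ with hψ
  have e1 : ∀ (f : A[X]) (t : AlgebraicClosure F), aeval t (f.map φ) = (f.map ψ).eval t := by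
    intro f t
    rw [hψ, ← Polynomial.map_map, aeval_def, eval_map]
  have hlψ : ψ (P.coeff n) ≠ 0 := by
    rw [hψ, RingHom.comp_apply]
    exact fun h => hφ ((map_eq_zero _).1 h)
  have hρψ : ψ (r.coeff j) ≠ 0 := by
    rw [hψ, RingHom.comp_apply]
    exact fun h => hρ ((map_eq_zero _).1 h)
  have hd : (P.map ψ).natDegree = n := by
    apply le_antisymm (natDegree_map_le.trans hPn)
    exact le_natDegree_of_ne_zero (by rw [coeff_map]; exact hlψ)
  have hP0 : P.map ψ ≠ 0 := by
    intro h
    rw [h, natDegree_zero] at hd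
    omega
  have hs : (P.map ψ).Splits := IsAlgClosed.splits _
  have hfac := hs.eq_prod_roots
  have hcard : (P.map ψ).roots.card = n := by
    rw [← hd]; exact hs.natDegree_eq_card_roots.symm
  have hdvd : ((P.map ψ).roots.map fun a => X - C a).prod ∣ (Q.map ψ) ^ n := by
    rw [← hcard, ← Multiset.card_map (fun a => X - C a), ← Multiset.prod_replicate]
    have key : ∀ s : Multiset (AlgebraicClosure F), (∀ a ∈ s, X - C a ∣ Q.map ψ) →
        (s.map fun a => X - C a).prod ∣ (Multiset.replicate (s.map fun a => X - C a).card (Q.map ψ)).prod := by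
      intro s
      induction s using Multiset.induction_on with
      | empty => intro _; simp
      | cons a s ih =>
        intro h
        rw [Multiset.map_cons, Multiset.prod_cons, Multiset.card_cons, Multiset.replicate_succ,
          Multiset.prod_cons]
        exact mul_dvd_mul (h a (Multiset.mem_cons_self a s))
          (ih fun b hb => h b (Multiset.mem_cons_of_mem hb))
    apply key
    intro a ha
    rw [mem_roots hP0] at ha
    rw [dvd_iff_isRoot, IsRoot.def, ← e1]
    exact h0 a (by rw [e1]; exact ha)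
  have hdvd2 : P.map ψ ∣ r.map ψ := by
    have h5 : P.map ψ ∣ (Q.map ψ) ^ n := by
      rw [hfac]
      have hu : IsUnit (C (P.map ψ).leadingCoeff) :=
        isUnit_C.2 (IsUnit.mk0 _ (leadingCoeff_ne_zero.2 hP0))
      exact (hu.mul_left_dvd).2 hdvd
    have h6 := congrArg (fun f => f.map ψ) h1
    simp only [Polynomial.map_mul, Polynomial.map_pow, Polynomial.map_add, map_C] at h6
    have h7 : r.map ψ = C (ψ (P.coeff n)) ^ k * Q.map ψ ^ n - P.map ψ * q.map ψ := by
      rw [h6]; ring
    rw [h7]
    exact dvd_sub (Dvd.dvd.mul_left h5 _) (dvd_mul_right _ _)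
  have h8 : r.map ψ = 0 := by
    apply eq_zero_of_dvd_of_natDegree_lt hdvd2
    rw [hd]
    exact lt_of_le_of_lt natDegree_map_le h2
  apply hρψ
  rw [← coeff_map, h8, coeff_zero]

end Pool.Agent.K6.H43.GH
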