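import Pool.Agent.K6.H43.GH.Stm

/-!
# Piece QGC: moves on a plane cubic through the origin from the quartics (helper96)
-/

set_option autoImplicit false
set_option linter.unusedVariables false
set_option linter.unusedSectionVars false

open Filter Topology Pool.Agent.Y720.MZ

namespace Pool.Agent.K6.H43.GH

section alg

/-- leading coefficient of the quadratic equation for `t` on the line of the parameter `μ` -/
def aC {R : Type*} [CommRing R] (c : Fin 9 → R) (μ : R) : R :=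
  c 5 * c 1 ^ 3 + c 6 * c 1 ^ 2 * (μ - c 0) + c 7 * c 1 * (μ - c 0) ^ 2 + c 8 * (μ - c 0) ^ 3

/-- middle coefficient -/
def bC {R : Type*} [CommRing R] (c : Fin 9 → R) (μ : R) : R :=
  c 2 * c 1 ^ 2 + c 3 * c 1 * (μ - c 0) + c 4 * (μ - c 0) ^ 2

/-- numerator of the slope -/
def nC {R : Type*} [CommRing R] (c : Fin 9 → R) (S : R) : R := c 0 + c 2 * S + c 5 * S ^ 2

/-- denominator of the slope -/
def dC {R : Type*} [CommRing R] (c : Fin 9 → R) (S T : R) : R :=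
  c 1 + c 3 * S + c 4 * T + c 6 * S ^ 2 + c 7 * S * T + c 8 * T ^ 2

lemma cdisc {R : Type*} [CommRing R] (c : Fin 9 → R) (μ : R) :
    bC c μ ^ 2 - 4 * aC c μ * (c 1 * μ) = qv (th9 c).1 (th9 c).2 μ := by
  have e0 : (th9 c).2 0 = 2 * Ph c * (c 3 * c 1 - 2 * c 4 * c 0) -
      4 * c 1 * (c 5 * c 1 ^ 3 - c 6 * c 1 ^ 2 * c 0 + c 7 * c 1 * c 0 ^ 2 - c 8 * c 0 ^ 3) := rfl
  have e1 : (th9 c).2 1 = (c 3 * c 1 - 2 * c 4 * c 0) ^ 2 + 2 * Ph c * c 4 -
      4 * c 1 * (c 6 * c 1 ^ 2 - 2 * c 7 * c 1 * c 0 + 3 * c 8 * c 0 ^ 2) := rfl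
  have e2 : (th9 c).2 2 = 2 * (c 3 * c 1 - 2 * c 4 * c 0) * c 4 -
      4 * c 1 * (c 7 * c 1 - 3 * c 8 * c 0) := rfl
  have e3 : (th9 c).2 3 = c 4 ^ 2 - 4 * c 1 * c 8 := rfl
  have e4 : (th9 c).1 = Ph c := rfl
  unfold qv
  rw [e0, e1, e2, e3, e4]
  unfold aC bC Ph
  ring

lemma ccub {R : Type*} [CommRing R] (c : Fin 9 → R) (μ t : R) :
    cub c (t * c 1) (t * (μ - c 0)) = t * (aC c μ * t ^ 2 + bC c μ * t + c 1 * μ) := by
  unfold cub aC bC
  ring

variable {F : Type*} [Field F]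

/-- from the cubic to the quadratic equation -/
lemma cfwd {c : Fin 9 → F} {S T μ : F} (h1 : c 1 ≠ 0) (h : cub c S T = 0) (hD : dC c S T ≠ 0)
    (hμ : μ = c 0 - c 1 * (nC c S / dC c S T)) :
    S = S / c 1 * c 1 ∧ T = S / c 1 * (μ - c 0) ∧
      aC c μ * (S / c 1) ^ 2 + bC c μ * (S / c 1) + c 1 * μ = 0 := by
  have e1 : S / c 1 * c 1 = S := div_mul_cancel₀ S h1
  have e2 : T * dC c S T = -(S * nC c S) := by
    unfold cub at h
    unfold dC nC
    linear_combination h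
  have e3 : T = S / c 1 * (μ - c 0) := by
    have h2 : S / c 1 * (μ - c 0) = -(S * nC c S) / dC c S T := by
      rw [hμ]
      generalize dC c S T = d at *
      field_simp
      ring
    rw [h2, eq_div_iff hD]
    exact e2
  refine ⟨e1.symm, e3, ?_⟩
  by_cases hS : S = 0
  · have hT : T = 0 := by rw [e3, hS, zero_div, zero_mul]
    have hm : μ = 0 := by
      have n0 : nC c 0 = c 0 := by simp [nC]
      have d0 : dC c 0 0 = c 1 := by simp [dC]
      rw [hμ, hS, hT, n0, d0, mul_div_cancel₀ _ h1, sub_self]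
    rw [hS, hm]
    simp
  · have h2 := ccub c μ (S / c 1)
    rw [e1, ← e3, h] at h2
    exact (mul_eq_zero.1 h2.symm).resolve_left (div_ne_zero hS h1)

/-- from the quadratic equation to the cubic -/
lemma cbwd {c : Fin 9 → F} {u Z : F}
    (hZ : Z ^ 2 = bC c u ^ 2 - 4 * aC c u * (c 1 * u)) (hD : bC c u + Z ≠ 0) :
    cub c (-(2 * (c 1 * u)) / (bC c u + Z) * c 1) (-(2 * (c 1 * u)) / (bC c u + Z) * (u - c 0)) =
      0 := by
  rw [ccub]
  have h2 : aC c u * (-(2 * (c 1 * u)) / (bC c u + Z)) ^ 2 +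
      bC c u * (-(2 * (c 1 * u)) / (bC c u + Z)) + c 1 * u = 0 := by
    generalize aC c u = a at *
    generalize bC c u = b at *
    field_simp
    linear_combination (c 1 * u) * hZ
  rw [h2, mul_zero]

lemma cval {c : Fin 9 → F} {t μ : F} (h : aC c μ * t ^ 2 + bC c μ * t + c 1 * μ = 0)
    (hD : bC c μ + (2 * aC c μ * t + bC c μ) ≠ 0) :
    -(2 * (c 1 * μ)) / (bC c μ + (2 * aC c μ * t + bC c μ)) = t := by
  rw [div_eq_iff hD]
  linear_combination (-2) * h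

lemma map_aC {G : Type*} [Field G] (σ : F →+* G) (c : Fin 9 → F) (μ : F) :
    σ (aC c μ) = aC (fun m => σ (c m)) (σ μ) := by
  simp [aC]

lemma map_bC {G : Type*} [Field G] (σ : F →+* G) (c : Fin 9 → F) (μ : F) :
    σ (bC c μ) = bC (fun m => σ (c m)) (σ μ) := by
  simp [bC]

lemma map_th1 {G : Type*} [Field G] (σ : F →+* G) (c : Fin 9 → F) :
    σ (th9 c).1 = (th9 fun m => σ (c m)).1 := by
  simp [th9, Ph]

lemma map_th2 {G : Type*} [Field G] (σ : F →+* G) (c : Fin 9 → F) (j : Fin 4) :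
    σ ((th9 c).2 j) = (th9 fun m => σ (c m)).2 j := by
  have h2 : σ 2 = 2 := map_ofNat σ 2
  have h3 : σ 3 = 3 := map_ofNat σ 3
  have h4 : σ 4 = 4 := map_ofNat σ 4
  fin_cases j <;> simp [th9, q9, Ph, h2, h3, h4]

end alg

section cont

variable {L : Type*} [NontriviallyNormedField L] [CharZero L]

/-- first continuity statement -/
lemma qcont1 {k : Fin 9 → L} (hk : k 1 ≠ 0) (hP : Ph k ≠ 0) {δ : ℝ} (hδ : 0 < δ) :
    ∃ ρ : ℝ, 0 < ρ ∧ ∀ (c : Fin 9 → L) (S T : L), (∀ m, ‖c m - k m‖ < ρ) → ‖S‖ < ρ → ‖T‖ < ρ →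
      c 1 ≠ 0 ∧ dC c S T ≠ 0 ∧ ‖(th9 c).1 - (th9 k).1‖ < δ ∧
      (∀ j, ‖(th9 c).2 j - (th9 k).2 j‖ < δ) ∧
      ∀ μ, μ = c 0 - c 1 * (nC c S / dC c S T) → ‖μ‖ < δ ∧
        ‖2 * aC c μ * (S / c 1) + bC c μ - (th9 k).1‖ < δ ∧
        bC c μ + (2 * aC c μ * (S / c 1) + bC c μ) ≠ 0 := by
  let e₀ : (Fin 9 → L) × L × L := (k, 0, 0)
  have cc : ∀ m, ContinuousAt (fun e : (Fin 9 → L) × L × L => e.1 m) e₀ := fun m => by fun_prop
  have cS : ContinuousAt (fun e : (Fin 9 → L) × L × L => e.2.1) e₀ := by fun_prop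
  have cT : ContinuousAt (fun e : (Fin 9 → L) × L × L => e.2.2) e₀ := by fun_prop
  have cD : ContinuousAt (fun e : (Fin 9 → L) × L × L => dC e.1 e.2.1 e.2.2) e₀ := by
    unfold dC
    fun_prop
  have cN : ContinuousAt (fun e : (Fin 9 → L) × L × L => nC e.1 e.2.1) e₀ := by
    unfold nC
    fun_prop
  have hD0 : dC e₀.1 e₀.2.1 e₀.2.2 ≠ 0 := by
    show dC k 0 0 ≠ 0
    simpa [dC] using hk
  have cm : ContinuousAt (fun e : (Fin 9 → L) × L × L =>
      e.1 0 - e.1 1 * (nC e.1 e.2.1 / dC e.1 e.2.1 e.2.2)) e₀ :=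
    (cc 0).sub ((cc 1).mul (cN.div cD hD0))
  set mu : (Fin 9 → L) × L × L → L := fun e =>
    e.1 0 - e.1 1 * (nC e.1 e.2.1 / dC e.1 e.2.1 e.2.2) with hmu
  have hmu0 : mu e₀ = 0 := by
    show k 0 - k 1 * (nC k 0 / dC k 0 0) = 0
    have h1 : nC k 0 = k 0 := by simp [nC]
    have h2 : dC k 0 0 = k 1 := by simp [dC]
    rw [h1, h2, mul_div_cancel₀ _ hk, sub_self]
  have ca : ContinuousAt (fun e : (Fin 9 → L) × L × L => aC e.1 (mu e)) e₀ := by
    unfold aC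
    exact ((((cc 5).mul ((cc 1).pow 3)).add (((cc 6).mul ((cc 1).pow 2)).mul (cm.sub (cc 0)))).add
      (((cc 7).mul (cc 1)).mul ((cm.sub (cc 0)).pow 2))).add ((cc 8).mul ((cm.sub (cc 0)).pow 3))
  have cb : ContinuousAt (fun e : (Fin 9 → L) × L × L => bC e.1 (mu e)) e₀ := by
    unfold bC
    exact (((cc 2).mul ((cc 1).pow 2)).add (((cc 3).mul (cc 1)).mul (cm.sub (cc 0)))).add
      ((cc 4).mul ((cm.sub (cc 0)).pow 2))
  have ct : ContinuousAt (fun e : (Fin 9 → L) × L × L => e.2.1 / e.1 1) e₀ := cS.div (cc 1) hk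
  have cZ : ContinuousAt (fun e : (Fin 9 → L) × L × L =>
      2 * aC e.1 (mu e) * (e.2.1 / e.1 1) + bC e.1 (mu e)) e₀ :=
    ((continuousAt_const.mul ca).mul ct).add cb
  have hb0 : bC e₀.1 (mu e₀) = (th9 k).1 := by
    rw [hmu0]
    show bC k 0 = Ph k
    unfold bC Ph
    ring
  have hZ0 : 2 * aC e₀.1 (mu e₀) * (e₀.2.1 / e₀.1 1) + bC e₀.1 (mu e₀) = (th9 k).1 := by
    rw [hb0]
    show 2 * aC k (mu e₀) * (0 / k 1) + _ = _
    rw [zero_div, mul_zero, zero_add]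
  have hT0 : (th9 k).1 ≠ 0 := hP
  have cT1 : ContinuousAt (fun e : (Fin 9 → L) × L × L => (th9 e.1).1) e₀ := by
    show ContinuousAt (fun e : (Fin 9 → L) × L × L => Ph e.1) e₀
    unfold Ph
    fun_prop
  have cT2 : ∀ j, ContinuousAt (fun e : (Fin 9 → L) × L × L => (th9 e.1).2 j) e₀ := by
    intro j
    have cP : Continuous (fun e : (Fin 9 → L) × L × L => Ph e.1) := by
      unfold Ph
      fun_prop
    fin_cases j
    · show ContinuousAt (fun e : (Fin 9 → L) × L × L =>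
        2 * Ph e.1 * (e.1 3 * e.1 1 - 2 * e.1 4 * e.1 0) -
        4 * e.1 1 * (e.1 5 * e.1 1 ^ 3 - e.1 6 * e.1 1 ^ 2 * e.1 0 + e.1 7 * e.1 1 * e.1 0 ^ 2 -
          e.1 8 * e.1 0 ^ 3)) e₀
      fun_prop
    · show ContinuousAt (fun e : (Fin 9 → L) × L × L =>
        (e.1 3 * e.1 1 - 2 * e.1 4 * e.1 0) ^ 2 + 2 * Ph e.1 * e.1 4 -
        4 * e.1 1 * (e.1 6 * e.1 1 ^ 2 - 2 * e.1 7 * e.1 1 * e.1 0 + 3 * e.1 8 * e.1 0 ^ 2)) e₀
      fun_prop
    · show ContinuousAt (fun e : (Fin 9 → L) × L × L =>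
        2 * (e.1 3 * e.1 1 - 2 * e.1 4 * e.1 0) * e.1 4 -
        4 * e.1 1 * (e.1 7 * e.1 1 - 3 * e.1 8 * e.1 0)) e₀
      fun_prop
    · show ContinuousAt (fun e : (Fin 9 → L) × L × L => e.1 4 ^ 2 - 4 * e.1 1 * e.1 8) e₀
      fun_prop
  have near : ∀ {g : (Fin 9 → L) × L × L → L}, ContinuousAt g e₀ →
      ∀ᶠ e in 𝓝 e₀, ‖g e - g e₀‖ < δ := by
    intro g hg
    have := (hg.sub (continuousAt_const (y := g e₀))).norm
    have h0 : ‖g e₀ - g e₀‖ < δ := by rwa [sub_self, norm_zero]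
    exact this.eventually_lt continuousAt_const h0
  have hall := ((cc 1).eventually_ne hk).and ((cD.eventually_ne hD0).and ((near cT1).and
    ((Filter.eventually_all.2 fun j => near (cT2 j)).and ((near cm).and ((near cZ).and
      ((cb.add cZ).eventually_ne (by
        show bC e₀.1 (mu e₀) + (2 * aC e₀.1 (mu e₀) * (e₀.2.1 / e₀.1 1) + bC e₀.1 (mu e₀)) ≠ 0
        rw [hZ0, hb0, ← two_mul]
        exact mul_ne_zero two_ne_zero hT0)))))))
  obtain ⟨ρ, hρ, hb⟩ := Metric.eventually_nhds_iff_ball.1 hall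
  refine ⟨ρ, hρ, fun c S T q1 q2 q3 => ?_⟩
  obtain ⟨g1, g2, g3, g4, g5, g6, g7⟩ := hb (c, S, T) (by
    rw [Metric.mem_ball, Prod.dist_eq, Prod.dist_eq]
    refine max_lt ?_ (max_lt ?_ ?_)
    · rw [dist_pi_lt_iff hρ]
      intro m
      rw [dist_eq_norm]; exact q1 m
    · rw [dist_eq_norm, sub_zero]; exact q2
    · rw [dist_eq_norm, sub_zero]; exact q3)
  refine ⟨g1, g2, g3, g4, fun μ hμ => ?_⟩
  have e1 : mu (c, S, T) = μ := hμ.symm
  rw [hmu0, sub_zero, e1] at g5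
  rw [hZ0] at g6
  simp only [Pi.add_apply] at g6 g7
  rw [e1] at g6 g7
  exact ⟨g5, g6, g7⟩

/-- second continuity statement: from the quartic back to the cubic -/
lemma qcont2 {c : Fin 9 → L} {t S T μ Z : L} (hD : bC c μ + Z ≠ 0)
    (ht : -(2 * (c 1 * μ)) / (bC c μ + Z) = t) (hS : t * c 1 = S) (hT : t * (μ - c 0) = T)
    {η : ℝ} (hη : 0 < η) :
    ∃ ρ : ℝ, 0 < ρ ∧ ∀ u Z' : L, ‖u - μ‖ < ρ → ‖Z' - Z‖ < ρ → bC c u + Z' ≠ 0 ∧
      ‖-(2 * (c 1 * u)) / (bC c u + Z') * c 1 - S‖ < η ∧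
      ‖-(2 * (c 1 * u)) / (bC c u + Z') * (u - c 0) - T‖ < η := by
  have cD : ContinuousAt (fun e : L × L => bC c e.1 + e.2) (μ, Z) := by
    unfold bC
    fun_prop
  have cT : ContinuousAt (fun e : L × L => -(2 * (c 1 * e.1)) / (bC c e.1 + e.2)) (μ, Z) :=
    ContinuousAt.div (by fun_prop) cD hD
  have cS : ContinuousAt (fun e : L × L => -(2 * (c 1 * e.1)) / (bC c e.1 + e.2) * c 1) (μ, Z) :=
    cT.mul continuousAt_const
  have cR : ContinuousAt (fun e : L × L => -(2 * (c 1 * e.1)) / (bC c e.1 + e.2) * (e.1 - c 0))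
      (μ, Z) := cT.mul (by fun_prop)
  have n1 : ∀ᶠ e in 𝓝 (μ, Z), ‖-(2 * (c 1 * e.1)) / (bC c e.1 + e.2) * c 1 - S‖ < η := by
    refine ((cS.sub (continuousAt_const (y := S))).norm).eventually_lt continuousAt_const ?_
    show ‖-(2 * (c 1 * μ)) / (bC c μ + Z) * c 1 - S‖ < η
    rwa [ht, hS, sub_self, norm_zero]
  have n2 : ∀ᶠ e in 𝓝 (μ, Z), ‖-(2 * (c 1 * e.1)) / (bC c e.1 + e.2) * (e.1 - c 0) - T‖ < η := by
    refine ((cR.sub (continuousAt_const (y := T))).norm).eventually_lt continuousAt_const ?_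
    show ‖-(2 * (c 1 * μ)) / (bC c μ + Z) * (μ - c 0) - T‖ < η
    rwa [ht, hT, sub_self, norm_zero]
  obtain ⟨ρ, hρ, hb⟩ := Metric.eventually_nhds_iff_ball.1
    ((cD.eventually_ne hD).and (n1.and n2))
  refine ⟨ρ, hρ, fun u Z' q1 q2 => ?_⟩
  exact hb (u, Z') (by
    rw [Metric.mem_ball, Prod.dist_eq]
    refine max_lt ?_ ?_
    · rw [dist_eq_norm]; exact q1
    · rw [dist_eq_norm]; exact q2)

end cont

theorem t_QGC : S_QGC := by
  intro K _ _ V _ L _ _ _ s c₀ hc1 hPh hW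
  obtain ⟨δ, hδ, hb⟩ := hW
  choose ρ hρ hρb using fun v => qcont1 (hc1 v) (hPh v) hδ
  obtain ⟨δ₁, hδ₁, hm⟩ := fin_min hρ
  refine ⟨δ₁, hδ₁, fun c hc S R hS hR hcub η hη => ?_⟩
  by_cases hV : IsEmpty V
  · exact ⟨0, 0, by simp [cub], fun v => (hV.false v).elim⟩
  rw [not_isEmpty_iff] at hV
  have dat : ∀ v, _ := fun v => hρb v (fun m => s v (c m)) (S v) (R v)
    (fun m => (hc v m).trans_le (hm v)) ((hS v).trans_le (hm v)) ((hR v).trans_le (hm v))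
  have hc1' : c 1 ≠ 0 := by
    obtain ⟨v⟩ := hV
    exact (map_ne_zero (s v)).1 (dat v).1
  set μ : ∀ v, L v := fun v => s v (c 0) - s v (c 1) * (nC (fun m => s v (c m)) (S v) /
    dC (fun m => s v (c m)) (S v) (R v)) with hμ
  set Z : ∀ v, L v := fun v => 2 * aC (fun m => s v (c m)) (μ v) * (S v / s v (c 1)) +
    bC (fun m => s v (c m)) (μ v) with hZ
  have fw : ∀ v, _ := fun v => cfwd (μ := μ v) (dat v).1 (hcub v) (dat v).2.1 rfl
  have hmu : ∀ v, _ := fun v => (dat v).2.2.2.2 (μ v) rfl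
  have hZq : ∀ v, Z v ^ 2 = qv (s v (th9 c).1) (fun j => s v ((th9 c).2 j)) (μ v) := by
    intro v
    have h1 := cdisc (fun m => s v (c m)) (μ v)
    have h2 := (fw v).2.2
    have e1 : s v (th9 c).1 = (th9 fun m => s v (c m)).1 := map_th1 (s v) c
    have e2 : (fun j => s v ((th9 c).2 j)) = (th9 fun m => s v (c m)).2 := by
      funext j
      exact map_th2 (s v) c j
    rw [e1, e2, ← h1]
    show (2 * aC (fun m => s v (c m)) (μ v) * (S v / s v (c 1)) + bC (fun m => s v (c m)) (μ v)) ^ 2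
      = _
    linear_combination (4 * aC (fun m => s v (c m)) (μ v)) * h2
  -- back
  have bk : ∀ v, _ := fun v => qcont2 (L := L v) (Z := Z v) (hmu v).2.2
    (cval (fw v).2.2 (hmu v).2.2) (fw v).1.symm (fw v).2.1.symm hη
  choose κ hκ hκb using bk
  obtain ⟨κ₀, hκ₀, hκm⟩ := fin_min hκ
  obtain ⟨u, Z', g1, g2⟩ := hb (th9 c)
    (fun v => by
      have := (dat v).2.2.1
      rw [← map_th1 (s v)] at this
      exact this)
    (fun v j => by
      have := (dat v).2.2.2.1 j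
      rw [← map_th2 (s v)] at this
      exact this)
    μ Z (fun v => (hmu v).1) (fun v => (hmu v).2.1) hZq κ₀ hκ₀
  have fin : ∀ v, _ := fun v => hκb v (s v u) (s v Z') ((g2 v).1.trans_le (hκm v))
    ((g2 v).2.trans_le (hκm v))
  have hD : bC c u + Z' ≠ 0 := by
    obtain ⟨v⟩ := hV
    have := (fin v).1
    rw [← map_bC, ← map_add] at this
    exact (map_ne_zero (s v)).1 this
  have g3 : Z' ^ 2 = bC c u ^ 2 - 4 * aC c u * (c 1 * u) := by
    rw [g1, cdisc]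
  have g4 := cbwd g3 hD
  set T := -(2 * (c 1 * u)) / (bC c u + Z') with hT
  clear_value T
  have sT : ∀ v, s v T = -(2 * (s v (c 1) * s v u)) / (bC (fun m => s v (c m)) (s v u) + s v Z') := by
    intro v
    rw [hT, map_div₀, map_neg, map_mul, map_mul, map_add, map_bC, map_ofNat]
  refine ⟨T * c 1, T * (u - c 0), g4, fun v => ⟨?_, ?_⟩⟩
  · rw [map_mul, sT]
    exact (fin v).2.1
  · rw [map_mul, map_sub, sT]
    exact (fin v).2.2

end Pool.Agent.K6.H43.GH
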