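import Pool.Agent.K6.H43.GH.Alg

/-!
# QUA: weak approximation on a quadric with a rational point (helper38)
-/

set_option autoImplicit false
set_option linter.unusedVariables false

open Filter Topology

namespace Pool.Agent.K6.H43.GH

namespace Qua

section alg

variable {R : Type*} [CommRing R] {α β : Type*} [Fintype α]

lemma Bf_mC {S : Type*} [CommRing S] (φ : R →+* S) (C : α → α → MvPolynomial β R) (u : β → R)
    (x y : α → R) :
    Bf (mC φ C) (fun b => φ (u b)) (fun a => φ (x a)) (fun a => φ (y a)) = φ (Bf C u x y) := by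
  unfold Bf mC
  simp only [map_sum, map_mul]
  refine Finset.sum_congr rfl fun i _ => Finset.sum_congr rfl fun j _ => ?_
  congr 2
  rw [MvPolynomial.eval_map]
  have h := MvPolynomial.eval₂_comp_left φ (RingHom.id R) u (C i j)
  rw [RingHom.comp_id] at h
  exact h.symm

lemma Bf_add_left (C : α → α → MvPolynomial β R) (u : β → R) (x x' y : α → R) :
    Bf C u (fun a => x a + x' a) y = Bf C u x y + Bf C u x' y := by
  unfold Bf
  rw [← Finset.sum_add_distrib]
  refine Finset.sum_congr rfl fun i _ => ?_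
  rw [← Finset.sum_add_distrib]
  exact Finset.sum_congr rfl fun j _ => by ring

lemma Bf_smul_left (C : α → α → MvPolynomial β R) (u : β → R) (k : R) (x y : α → R) :
    Bf C u (fun a => k * x a) y = k * Bf C u x y := by
  unfold Bf
  rw [Finset.mul_sum]
  refine Finset.sum_congr rfl fun i _ => ?_
  rw [Finset.mul_sum]
  exact Finset.sum_congr rfl fun j _ => by ring

lemma Bf_symm {C : α → α → MvPolynomial β R} (hC : ∀ i j, C i j = C j i) (u : β → R)
    (x y : α → R) : Bf C u x y = Bf C u y x := by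
  unfold Bf
  rw [Finset.sum_comm]
  refine Finset.sum_congr rfl fun i _ => Finset.sum_congr rfl fun j _ => ?_
  rw [hC j i]; ring

lemma Bf_add_right (C : α → α → MvPolynomial β R) (u : β → R) (x x' y : α → R) :
    Bf C u y (fun a => x a + x' a) = Bf C u y x + Bf C u y x' := by
  unfold Bf
  rw [← Finset.sum_add_distrib]
  refine Finset.sum_congr rfl fun i _ => ?_
  rw [← Finset.sum_add_distrib]
  exact Finset.sum_congr rfl fun j _ => by ring

lemma Bf_smul_right (C : α → α → MvPolynomial β R) (u : β → R) (k : R) (x y : α → R) :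
    Bf C u y (fun a => k * x a) = k * Bf C u y x := by
  unfold Bf
  rw [Finset.mul_sum]
  refine Finset.sum_congr rfl fun i _ => ?_
  rw [Finset.mul_sum]
  exact Finset.sum_congr rfl fun j _ => by ring

/-- the point `c (q(m) x - 2 B(x, m) m)` is on the quadric -/
lemma Bf_refl {C : α → α → MvPolynomial β R} (hC : ∀ i j, C i j = C j i) (u : β → R)
    (x m : α → R) (hx : Bf C u x x = 0) (c : R) :
    Bf C u (fun a => c * (Bf C u m m * x a - 2 * Bf C u x m * m a))
      (fun a => c * (Bf C u m m * x a - 2 * Bf C u x m * m a)) = 0 := by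
  have e : (fun a => c * (Bf C u m m * x a - 2 * Bf C u x m * m a)) =
      fun a => (c * Bf C u m m) * x a + (- (2 * c * Bf C u x m)) * m a := by
    funext a; ring
  rw [e]
  rw [Bf_add_left C u (fun a => (c * Bf C u m m) * x a) (fun a => (- (2 * c * Bf C u x m)) * m a),
    Bf_add_right C u (fun a => (c * Bf C u m m) * x a) (fun a => (- (2 * c * Bf C u x m)) * m a),
    Bf_add_right C u (fun a => (c * Bf C u m m) * x a) (fun a => (- (2 * c * Bf C u x m)) * m a),
    Bf_smul_left, Bf_smul_left, Bf_smul_left, Bf_smul_left, Bf_smul_right, Bf_smul_right,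
    Bf_smul_right, Bf_smul_right, hx, Bf_symm hC u m x]
  ring

end alg

/-- continuity -/
lemma cont {F : Type*} [NontriviallyNormedField F] {α β : Type*} [Fintype α]
    (C : α → α → MvPolynomial β F) (u : β → F) (x : α → F) (a : α) :
    Continuous fun p : (α → F) × F =>
      p.2 * (Bf C u p.1 p.1 * x a - 2 * Bf C u x p.1 * p.1 a) := by
  unfold Bf
  fun_prop

end Qua

open Qua in
theorem t_QUA : S_QUA := by
  intro K _ _ V _ L _ s hD α β _ C hC u x hx y hy hxy η hη
  -- at each place a modulus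
  have hloc : ∀ v, ∃ δ : ℝ, 0 < δ ∧ ∀ (m : α → L v) (c : L v), (∀ a, ‖m a - y v a‖ < δ) →
      ‖c - (-1 / (2 * Bf (mC (s v) C) (fun b => s v (u b)) (fun a => s v (x a)) (y v)))‖ < δ →
      ∀ a, ‖c * (Bf (mC (s v) C) (fun b => s v (u b)) m m * s v (x a) -
        2 * Bf (mC (s v) C) (fun b => s v (u b)) (fun a => s v (x a)) m * m a) - y v a‖ < η := by
    intro v
    have : CharZero (L v) := charZero_of_injective_ringHom (s v).injective
    obtain ⟨B, hB⟩ : ∃ B, B = Bf (mC (s v) C) (fun b => s v (u b)) (fun a => s v (x a)) (y v) :=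
      ⟨_, rfl⟩
    have hB0 : B ≠ 0 := by rw [hB]; exact hxy v
    rw [← hB]
    have hfin : ∀ a : α, ∀ᶠ p : (α → L v) × L v in 𝓝 (y v, -1 / (2 * B)),
        ‖p.2 * (Bf (mC (s v) C) (fun b => s v (u b)) p.1 p.1 * s v (x a) -
          2 * Bf (mC (s v) C) (fun b => s v (u b)) (fun a => s v (x a)) p.1 * p.1 a) -
            y v a‖ < η := by
      intro a
      have hc := (cont (mC (s v) C) (fun b => s v (u b)) (fun a => s v (x a)) a).tendsto
        (y v, -1 / (2 * B))
      have e : (y v, -1 / (2 * B)).2 * (Bf (mC (s v) C) (fun b => s v (u b)) (y v, -1 / (2 * B)).1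
          (y v, -1 / (2 * B)).1 * s v (x a) - 2 * Bf (mC (s v) C) (fun b => s v (u b))
            (fun a => s v (x a)) (y v, -1 / (2 * B)).1 * (y v, -1 / (2 * B)).1 a) = y v a := by
        simp only
        rw [hy v, ← hB]
        field_simp
        ring
      rw [e] at hc
      have := (hc.sub_const (y v a)).norm
      rw [sub_self, norm_zero] at this
      exact this.eventually (gt_mem_nhds hη)
    have hall := (eventually_all.2 hfin)
    rw [Metric.eventually_nhds_iff] at hall
    obtain ⟨δ, hδ, h⟩ := hall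
    refine ⟨δ, hδ, fun m c hm hc a => ?_⟩
    refine @h (m, c) ?_ a
    rw [Prod.dist_eq, max_lt_iff]
    refine ⟨?_, ?_⟩
    · rw [dist_pi_lt_iff hδ]
      intro b
      rw [dist_eq_norm]
      exact hm b
    · rw [dist_eq_norm]
      exact hc
  choose δ hδ hδ' using hloc
  obtain ⟨ρ, hρ, hρδ⟩ : ∃ ρ : ℝ, 0 < ρ ∧ ∀ v, ρ ≤ δ v := by
    have := Fintype.ofFinite V
    by_cases hV : Nonempty V
    · refine ⟨Finset.univ.inf' Finset.univ_nonempty δ, ?_, fun v => Finset.inf'_le _ (Finset.mem_univ v)⟩
      rw [Finset.lt_inf'_iff]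
      exact fun v _ => hδ v
    · exact ⟨1, one_pos, fun v => (hV ⟨v⟩).elim⟩
  choose m hm using fun a : α => hD (fun v => y v a) ρ hρ
  obtain ⟨c, hc⟩ := hD (fun v => -1 / (2 * Bf (mC (s v) C) (fun b => s v (u b))
    (fun a => s v (x a)) (y v))) ρ hρ
  refine ⟨fun a => c * (Bf C u m m * x a - 2 * Bf C u x m * m a), Bf_refl hC u x m hx c, ?_⟩
  intro v a
  have h := hδ' v (fun a => s v (m a)) (s v c) (fun a => (hm a v).trans_le (hρδ v))
    ((hc v).trans_le (hρδ v)) a
  rw [Bf_mC, Bf_mC] at h
  simpa only [map_mul, map_sub, map_ofNat] using h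

end Pool.Agent.K6.H43.GH
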