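import Pool.Agent.K6.H43.GH.Alg

/-!
# Rational parameters with spanning directions (helper70, for helper43)
-/

set_option autoImplicit false

namespace Pool.Agent.K6.H43.GH

/-- **SPN.** -/
theorem t_SPN : S_SPN := by
  classical
  intro K _ _ Γ κ Θ _ _ _ G M _ ψ P hex
  let H : MvPolynomial (κ ⊕ Θ) M :=
    MvPolynomial.eval₂ (MvPolynomial.C.comp ψ)
      (Sum.elim (fun g => MvPolynomial.C (P g)) fun l => MvPolynomial.X l) G
  have hH : ∀ π : κ ⊕ Θ → M, MvPolynomial.eval π H = MvPolynomial.eval₂ ψ (Sum.elim P π) G := by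
    intro π
    change MvPolynomial.eval π (MvPolynomial.eval₂ _ _ G) = _
    rw [MvPolynomial.eval₂_comp_left (MvPolynomial.eval π)]
    have e1 : (MvPolynomial.eval π).comp (MvPolynomial.C.comp ψ) = ψ := by
      ext a
      simp
    have e2 : (⇑(MvPolynomial.eval π) ∘ (Sum.elim (fun g => MvPolynomial.C (P g))
        fun l => (MvPolynomial.X l : MvPolynomial (κ ⊕ Θ) M))) = Sum.elim P π := by
      funext j
      rcases j with g | l
      · simp
      · simp
    rw [e1, e2]
  have hH0 : H ≠ 0 := by
    obtain ⟨π, hπ⟩ := hex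
    intro h0
    apply hπ
    rw [← hH, h0, map_zero]
  let S : Set (κ → K) := {e | ∃ π : κ ⊕ Θ → K, MvPolynomial.eval (fun l => ψ (π l)) H ≠ 0 ∧
    e = fun l => π (Sum.inl l)}
  have hK : Infinite K := CharZero.infinite K
  have hrange : (Set.range ψ).Infinite := Set.infinite_range_of_injective ψ.injective
  have hS : Submodule.span K S = ⊤ := by
    by_contra hne
    obtain ⟨lam, hlam, hle⟩ := Submodule.exists_le_ker_of_lt_top _ (lt_top_iff_ne_top.2 hne)
    let c : κ → K := fun l => lam (Pi.single l 1)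
    have hlamc : ∀ e : κ → K, lam e = ∑ l, e l * c l := by
      intro e
      conv_lhs => rw [← Finset.univ_sum_single e]
      rw [map_sum]
      refine Finset.sum_congr rfl fun l _ => ?_
      have : Pi.single l (e l) = e l • (Pi.single l 1 : κ → K) := by
        rw [← Pi.single_smul, smul_eq_mul, mul_one]
      rw [this, map_smul, smul_eq_mul]
    let Lam : MvPolynomial (κ ⊕ Θ) M :=
      ∑ l : κ, MvPolynomial.X (Sum.inl l) * MvPolynomial.C (ψ (c l))
    have hLam : ∀ π : κ ⊕ Θ → K, MvPolynomial.eval (fun l => ψ (π l)) Lam =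
        ψ (lam fun l => π (Sum.inl l)) := by
      intro π
      rw [hlamc]
      simp only [Lam, map_sum, map_mul, MvPolynomial.eval_X, MvPolynomial.eval_C]
    have hLam0 : Lam ≠ 0 := by
      intro h0
      apply hlam
      apply LinearMap.ext
      intro e
      have h1 := hLam (Sum.elim e fun _ => 0)
      rw [h0, map_zero] at h1
      have h2 := (map_eq_zero_iff ψ ψ.injective).1 h1.symm
      simpa using h2
    have hprod : H * Lam = 0 := by
      refine MvPolynomial.funext_set (fun _ => Set.range ψ) (fun _ => hrange) fun x hx => ?_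
      have hx' : ∀ l, ∃ a, ψ a = x l := fun l => hx l (Set.mem_univ l)
      choose π hπ using hx'
      have hxe : x = fun l => ψ (π l) := by
        funext l
        rw [hπ]
      rw [map_mul, map_zero, hxe]
      by_cases h0 : MvPolynomial.eval (fun l => ψ (π l)) H = 0
      · rw [h0, zero_mul]
      · have h1 : (fun l => π (Sum.inl l)) ∈ Submodule.span K S :=
          Submodule.subset_span ⟨π, h0, rfl⟩
        have h2 : lam (fun l => π (Sum.inl l)) = 0 := hle h1
        rw [hLam, h2, map_zero, mul_zero]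
    rcases mul_eq_zero.1 hprod with h | h
    · exact hH0 h
    · exact hLam0 h
  obtain ⟨b, hbS, hbs, hbi⟩ := exists_linearIndependent K S
  have hbf : b.Finite := hbi.setFinite
  have hch : ∀ e : κ → K, ∃ π : κ ⊕ Θ → K, e ∈ b →
      (MvPolynomial.eval (fun l => ψ (π l)) H ≠ 0 ∧ e = fun l => π (Sum.inl l)) := by
    intro e
    by_cases he : e ∈ b
    · obtain ⟨π, h1, h2⟩ := hbS he
      exact ⟨π, fun _ => ⟨h1, h2⟩⟩
    · exact ⟨0, fun h => absurd h he⟩
  choose g hg using hch
  refine ⟨hbf.toFinset.image g, ?_, ?_⟩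
  · rw [eq_top_iff, ← hS, ← hbs]
    refine Submodule.span_mono fun e he => ?_
    exact ⟨g e, Finset.mem_image_of_mem g (hbf.mem_toFinset.2 he), (hg e he).2⟩
  · intro π hπ
    obtain ⟨e, he, rfl⟩ := Finset.mem_image.1 hπ
    have h1 := (hg e (hbf.mem_toFinset.1 he)).1
    rw [hH] at h1
    exact h1

end Pool.Agent.K6.H43.GH
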