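import Pool.Agent.K6.H43.GH.Alg

/-!
# TWO: transversal intersections of two plane cubics persist (helper55)
-/

set_option autoImplicit false
set_option linter.unusedVariables false

open Filter Topology

namespace Pool.Agent.K6.H43.GH

section two

variable {F : Type} [NontriviallyNormedField F] {E : Type} [NormedAddCommGroup E]
  [NormedSpace F E]

lemma two_mul0 {a : E} {f g : E → F} {f' : E →L[F] F} (hf : HasStrictFDerivAt f f' a)
    (hg : HasStrictFDerivAt g (0 : E →L[F] F) a) (h0 : g a = 0) :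
    HasStrictFDerivAt (fun p => f p * g p) (0 : E →L[F] F) a := by
  have := hf.mul hg
  rw [h0] at this
  have e : f a • (0 : E →L[F] F) + (0 : F) • f' = 0 := by ext v; simp
  rw [e] at this
  exact this

lemma two_mul1 {a : E} {f g : E → F} {f' g' : E →L[F] F} (hf : HasStrictFDerivAt f f' a)
    (hg : HasStrictFDerivAt g g' a) (hf0 : f a = 0) (h0 : g a = 0) :
    HasStrictFDerivAt (fun p => f p * g p) (0 : E →L[F] F) a := by
  have := hf.mul hg
  rw [h0, hf0] at this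
  have e : (0 : F) • g' + (0 : F) • f' = 0 := by ext v; simp
  rw [e] at this
  exact this

lemma two_mul2 {a : E} {f g : E → F} {f' g' : E →L[F] F} (hf : HasStrictFDerivAt f f' a)
    (hg : HasStrictFDerivAt g g' a) (h0 : g a = 0) :
    HasStrictFDerivAt (fun p => f p * g p) (f a • g') a := by
  have := hf.mul hg
  rw [h0] at this
  have e : f a • g' + (0 : F) • f' = f a • g' := by ext v; simp
  rw [e] at this
  exact this

lemma cub_strict {a : E} {f : Fin 9 → E → F} {f' : Fin 9 → E →L[F] F} {h S R : E → F}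
    {h' S' R' : E →L[F] F} (hf : ∀ m, HasStrictFDerivAt (f m) (f' m) a)
    (hh : HasStrictFDerivAt h h' a) (hS : HasStrictFDerivAt S S' a)
    (hR : HasStrictFDerivAt R R' a) (hS0 : S a = 0) (hR0 : R a = 0) :
    HasStrictFDerivAt (fun p => h p + cub (fun m => f m p) (S p) (R p))
      (h' + (f 0 a • S' + f 1 a • R')) a := by
  have hSS : HasStrictFDerivAt (fun p => S p * S p) (0 : E →L[F] F) a := two_mul1 hS hS hS0 hS0
  have hSR : HasStrictFDerivAt (fun p => S p * R p) (0 : E →L[F] F) a := two_mul1 hS hR hS0 hR0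
  have hRR : HasStrictFDerivAt (fun p => R p * R p) (0 : E →L[F] F) a := two_mul1 hR hR hR0 hR0
  have hSSS : HasStrictFDerivAt (fun p => S p * (S p * S p)) (0 : E →L[F] F) a :=
    two_mul0 hS hSS (by simp [hS0])
  have hRSS : HasStrictFDerivAt (fun p => R p * (S p * S p)) (0 : E →L[F] F) a :=
    two_mul0 hR hSS (by simp [hS0])
  have hSRR : HasStrictFDerivAt (fun p => S p * (R p * R p)) (0 : E →L[F] F) a :=
    two_mul0 hS hRR (by simp [hR0])
  have hRRR : HasStrictFDerivAt (fun p => R p * (R p * R p)) (0 : E →L[F] F) a :=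
    two_mul0 hR hRR (by simp [hR0])
  have h0 := two_mul2 (hf 0) hS hS0
  have h1 := two_mul2 (hf 1) hR hR0
  have h2 := two_mul0 (hf 2) hSS (by simp [hS0])
  have h3 := two_mul0 (hf 3) hSR (by simp [hS0])
  have h4 := two_mul0 (hf 4) hRR (by simp [hR0])
  have h5 := two_mul0 (hf 5) hSSS (by simp [hS0])
  have h6 := two_mul0 (hf 6) hRSS (by simp [hS0])
  have h7 := two_mul0 (hf 7) hSRR (by simp [hS0])
  have h8 := two_mul0 (hf 8) hRRR (by simp [hR0])
  have key := hh.add ((((((((h0.add h1).add h2).add h3).add h4).add h5).add h6).add h7).add h8)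
  simp only [add_zero] at key
  refine key.congr_of_eventuallyEq (Eventually.of_forall fun p => ?_)
  simp only [Pi.add_apply, cub]
  ring

/-- zeros persist, if the partial derivative is surjective -/
lemma two_persist [CompleteSpace F] {P : Type} [NormedAddCommGroup P] [NormedSpace F P]
    [CompleteSpace P] (G₁ G₂ : P × (F × F) → F) (p₀ : P) (G₁' G₂' : P × (F × F) →L[F] F)
    (h₁ : HasStrictFDerivAt G₁ G₁' (p₀, 0, 0)) (h₂ : HasStrictFDerivAt G₂ G₂' (p₀, 0, 0))
    (g₁ : G₁ (p₀, 0, 0) = 0) (g₂ : G₂ (p₀, 0, 0) = 0)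
    (hs : ∀ (p : P) (x y : F), ∃ S R : F, G₁' (p, S, R) = x ∧ G₂' (p, S, R) = y)
    (ε : ℝ) (hε : 0 < ε) :
    ∃ ρ : ℝ, 0 < ρ ∧ ∀ p : P, dist p p₀ < ρ → ∃ S R : F, ‖S‖ < ε ∧ ‖R‖ < ε ∧
      G₁ (p, S, R) = 0 ∧ G₂ (p, S, R) = 0 := by
  have hΦ := ((ContinuousLinearMap.fst F P (F × F)).hasStrictFDerivAt
    (x := (p₀, 0, 0))).prodMk (h₁.prodMk h₂)
  have hsurj : LinearMap.range ((ContinuousLinearMap.fst F P (F × F)).prod
      (G₁'.prod G₂')).toLinearMap = ⊤ := by
    rw [LinearMap.range_eq_top]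
    rintro ⟨p, x, y⟩
    obtain ⟨S, R, hx, hy⟩ := hs p x y
    exact ⟨(p, S, R), Prod.ext rfl (Prod.ext hx hy)⟩
  have hmap := hΦ.map_nhds_eq_of_surj hsurj
  have hU : {p : P × (F × F) | ‖p.2.1‖ < ε ∧ ‖p.2.2‖ < ε} ∈ 𝓝 ((p₀, 0, 0) : P × (F × F)) := by
    refine IsOpen.mem_nhds ?_ ⟨?_, ?_⟩
    · exact (isOpen_lt (continuous_fst.comp continuous_snd).norm continuous_const).inter
        (isOpen_lt (continuous_snd.comp continuous_snd).norm continuous_const)
    · simpa using hε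
    · simpa using hε
  have hV := image_mem_map hU (m := fun p : P × (F × F) =>
    ((ContinuousLinearMap.fst F P (F × F)) p, G₁ p, G₂ p))
  rw [hmap] at hV
  obtain ⟨ρ, hρ, hball⟩ := Metric.mem_nhds_iff.1 hV
  refine ⟨ρ, hρ, fun p hp => ?_⟩
  have hmem : ((p, 0, 0) : P × (F × F)) ∈ Metric.ball (α := P × (F × F))
      ((ContinuousLinearMap.fst F P (F × F)) (p₀, 0, 0), G₁ (p₀, 0, 0), G₂ (p₀, 0, 0)) ρ := by
    rw [g₁, g₂, Metric.mem_ball, Prod.dist_eq]
    exact max_lt hp (by simpa using hρ)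
  obtain ⟨⟨p', S, R⟩, ⟨hp1, hp2⟩, hq⟩ := hball hmem
  simp only [Prod.mk.injEq] at hq
  obtain ⟨hc', h1, h2⟩ := hq
  have hpp : p' = p := hc'
  subst hpp
  exact ⟨S, R, hp1, hp2, h1, h2⟩

end two

/-- the parameters -/
abbrev P2 (F : Type) : Type := (Fin 9 → F) × (Fin 9 → F) × F × F

theorem t_TWO : S_TWO := by
  intro F _ _ c₀ d₀ hdet ε hε
  let a : P2 F × (F × F) := ((c₀, d₀, 0, 0), 0, 0)
  have hS : HasStrictFDerivAt (fun p : P2 F × (F × F) => p.2.1)
      ((ContinuousLinearMap.fst F F F).comp (ContinuousLinearMap.snd F (P2 F) (F × F))) a :=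
    ContinuousLinearMap.hasStrictFDerivAt
      ((ContinuousLinearMap.fst F F F).comp (ContinuousLinearMap.snd F (P2 F) (F × F)))
  have hR : HasStrictFDerivAt (fun p : P2 F × (F × F) => p.2.2)
      ((ContinuousLinearMap.snd F F F).comp (ContinuousLinearMap.snd F (P2 F) (F × F))) a :=
    ContinuousLinearMap.hasStrictFDerivAt
      ((ContinuousLinearMap.snd F F F).comp (ContinuousLinearMap.snd F (P2 F) (F × F)))
  have hh : HasStrictFDerivAt (fun p : P2 F × (F × F) => p.1.2.2.1)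
      ((ContinuousLinearMap.fst F _ _).comp ((ContinuousLinearMap.snd F _ _).comp
        ((ContinuousLinearMap.snd F _ _).comp (ContinuousLinearMap.fst F (P2 F) (F × F))))) a :=
    ContinuousLinearMap.hasStrictFDerivAt
      ((ContinuousLinearMap.fst F _ _).comp ((ContinuousLinearMap.snd F _ _).comp
        ((ContinuousLinearMap.snd F _ _).comp (ContinuousLinearMap.fst F (P2 F) (F × F)))))
  have hk : HasStrictFDerivAt (fun p : P2 F × (F × F) => p.1.2.2.2)
      ((ContinuousLinearMap.snd F _ _).comp ((ContinuousLinearMap.snd F _ _).comp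
        ((ContinuousLinearMap.snd F _ _).comp (ContinuousLinearMap.fst F (P2 F) (F × F))))) a :=
    ContinuousLinearMap.hasStrictFDerivAt
      ((ContinuousLinearMap.snd F _ _).comp ((ContinuousLinearMap.snd F _ _).comp
        ((ContinuousLinearMap.snd F _ _).comp (ContinuousLinearMap.fst F (P2 F) (F × F)))))
  have hc : ∀ m, HasStrictFDerivAt (fun p : P2 F × (F × F) => p.1.1 m)
      ((ContinuousLinearMap.proj m).comp ((ContinuousLinearMap.fst F _ _).comp
        (ContinuousLinearMap.fst F (P2 F) (F × F)))) a := fun m =>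
    ContinuousLinearMap.hasStrictFDerivAt ((ContinuousLinearMap.proj m).comp
      ((ContinuousLinearMap.fst F _ _).comp (ContinuousLinearMap.fst F (P2 F) (F × F))))
  have hd : ∀ m, HasStrictFDerivAt (fun p : P2 F × (F × F) => p.1.2.1 m)
      ((ContinuousLinearMap.proj m).comp ((ContinuousLinearMap.fst F _ _).comp
        ((ContinuousLinearMap.snd F _ _).comp (ContinuousLinearMap.fst F (P2 F) (F × F))))) a :=
    fun m => ContinuousLinearMap.hasStrictFDerivAt ((ContinuousLinearMap.proj m).comp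
      ((ContinuousLinearMap.fst F _ _).comp ((ContinuousLinearMap.snd F _ _).comp
        (ContinuousLinearMap.fst F (P2 F) (F × F)))))
  have h₁ := cub_strict (f := fun m (p : P2 F × (F × F)) => p.1.1 m) hc hh hS hR rfl rfl
  have h₂ := cub_strict (f := fun m (p : P2 F × (F × F)) => p.1.2.1 m) hd hk hS hR rfl rfl
  obtain ⟨ρ, hρ, H⟩ := two_persist (F := F) (P := P2 F) _ _ (c₀, d₀, 0, 0) _ _ h₁ h₂
    (by simp [cub]) (by simp [cub])
    (by
      rintro ⟨c, d, h, k⟩ x y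
      refine ⟨(d₀ 1 * (x - h) - c₀ 1 * (y - k)) * (c₀ 0 * d₀ 1 - c₀ 1 * d₀ 0)⁻¹,
        (c₀ 0 * (y - k) - d₀ 0 * (x - h)) * (c₀ 0 * d₀ 1 - c₀ 1 * d₀ 0)⁻¹, ?_, ?_⟩
      · show h + (c₀ 0 * ((d₀ 1 * (x - h) - c₀ 1 * (y - k)) * (c₀ 0 * d₀ 1 - c₀ 1 * d₀ 0)⁻¹) +
          c₀ 1 * ((c₀ 0 * (y - k) - d₀ 0 * (x - h)) * (c₀ 0 * d₀ 1 - c₀ 1 * d₀ 0)⁻¹)) = x
        linear_combination (x - h) * mul_inv_cancel₀ hdet
      · show k + (d₀ 0 * ((d₀ 1 * (x - h) - c₀ 1 * (y - k)) * (c₀ 0 * d₀ 1 - c₀ 1 * d₀ 0)⁻¹) +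
          d₀ 1 * ((c₀ 0 * (y - k) - d₀ 0 * (x - h)) * (c₀ 0 * d₀ 1 - c₀ 1 * d₀ 0)⁻¹)) = y
        linear_combination (y - k) * mul_inv_cancel₀ hdet) ε hε
  refine ⟨ρ, hρ, fun c d h k hc hd hh hk => H (c, d, h, k) ?_⟩
  rw [Prod.dist_eq, Prod.dist_eq, Prod.dist_eq]
  refine max_lt ?_ (max_lt ?_ (max_lt ?_ ?_))
  · exact (dist_pi_lt_iff hρ).2 fun m => by rw [dist_eq_norm]; exact hc m
  · exact (dist_pi_lt_iff hρ).2 fun m => by rw [dist_eq_norm]; exact hd m
  · rw [dist_eq_norm]; simpa using hh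
  · rw [dist_eq_norm]; simpa using hk

end Pool.Agent.K6.H43.GH
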